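import Pool.Agent.Lib.MP_1a91b9_ntW.R.Defs8
import Pool.Agent.Lib.MP_1a91b9_ntW.C.LamW

/-!
# The abscissae of the points of `y² = x³ + 4 x² + 2 x` over `ℚ(√-2)`
-/

set_option autoImplicit false

namespace Pool.Agent.Lib.MP_1a91b9_ntC

open NumberField
open Pool.Agent.Lib.MP_1a91b9_ntW
open Pool.Agent.Lib.MP_1a91b9_ntW.C (z8 z8_sq)

/-- associated to a square: a square up to the sign -/
theorem sq_of_assoc {a c : 𝓞 K8} (h : Associated (c ^ 2) a) : a = c ^ 2 ∨ a = -c ^ 2 := by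
  obtain ⟨u, hu⟩ := h
  rcases isUnit_iff.1 u.isUnit with h1 | h1
  · left
    rw [← hu, h1, mul_one]
  · right
    rw [← hu, h1]
    ring

/-- The factors of the equation. -/
theorem ar (a b t : 𝓞 K8) (ha : a ≠ 0) (hab : IsCoprime a b)
    (h : a * b * (a ^ 2 + 4 * a * b + 2 * b ^ 2) = t ^ 2) :
    (∃ α : 𝓞 K8, a = α ^ 2 ∨ a = -α ^ 2 ∨ a = lam * α ^ 2 ∨ a = -lam * α ^ 2) ∧
      ∃ β : 𝓞 K8, b = β ^ 2 ∨ b = -β ^ 2 := by
  have h2 : (2 : 𝓞 K8) = -lam ^ 2 := two_eq
  have hbc : IsCoprime b (a ^ 2 + 4 * a * b + 2 * b ^ 2) := by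
    have e : a ^ 2 + 4 * a * b + 2 * b ^ 2 = a ^ 2 + b * (4 * a + 2 * b) := by ring
    rw [e]
    exact IsCoprime.add_mul_left_right (hab.symm.pow_right) _
  have hbac : IsCoprime b (a * (a ^ 2 + 4 * a * b + 2 * b ^ 2)) :=
    IsCoprime.mul_right hab.symm hbc
  have h' : b * (a * (a ^ 2 + 4 * a * b + 2 * b ^ 2)) = t ^ 2 := by
    rw [← h]
    ring
  have hB : ∃ β : 𝓞 K8, b = β ^ 2 ∨ b = -β ^ 2 := by
    obtain ⟨β, hβ⟩ := exists_associated_pow_of_mul_eq_pow' hbac h'
    exact ⟨β, sq_of_assoc hβ⟩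
  refine ⟨?_, hB⟩
  obtain ⟨g, hg⟩ : ∃ g : 𝓞 K8, Associated (g ^ 2) (a * (a ^ 2 + 4 * a * b + 2 * b ^ 2)) := by
    rw [mul_comm] at h'
    exact exists_associated_pow_of_mul_eq_pow' hbac.symm h'
  by_cases hla : lam ∣ a
  · obtain ⟨e, rfl⟩ := hla
    have heb : IsCoprime e b := hab.of_mul_left_right
    have hlb : IsCoprime lam b := hab.of_mul_left_left
    -- `c = lam² c'`
    have hc : (lam * e) * ((lam * e) ^ 2 + 4 * (lam * e) * b + 2 * b ^ 2) =
        lam ^ 2 * (lam * (e * (e ^ 2 - 2 * lam * e * b - b ^ 2))) := by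
      linear_combination (lam * e * b * (2 * lam * e + b)) * lam_sq
    rw [hc] at hg
    have hlg : lam ∣ g := by
      have h5 : lam ∣ g ^ 2 := by
        refine (Associated.dvd_iff_dvd_right hg).2 ?_
        exact Dvd.intro _ (by ring : lam * (lam * (lam * (e * (e ^ 2 - 2 * lam * e * b - b ^ 2)))) = _)
      exact lam_prime.dvd_of_dvd_pow h5
    obtain ⟨g', rfl⟩ := hlg
    have hg' : Associated (g' ^ 2) (lam * (e * (e ^ 2 - 2 * lam * e * b - b ^ 2))) := by
      rw [mul_pow] at hg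
      exact Associated.of_mul_left hg (Associated.refl _) (pow_ne_zero 2 lam_ne_zero)
    have hec : IsCoprime e (e ^ 2 - 2 * lam * e * b - b ^ 2) := by
      have e1 : e ^ 2 - 2 * lam * e * b - b ^ 2 = -b ^ 2 + e * (e - 2 * lam * b) := by ring
      rw [e1]
      exact IsCoprime.add_mul_left_right (heb.pow_right.neg_right) _
    by_cases hle : lam ∣ e
    · have hlc : IsCoprime lam (e ^ 2 - 2 * lam * e * b - b ^ 2) := by
        obtain ⟨f, rfl⟩ := hle
        have e1 : (lam * f) ^ 2 - 2 * lam * (lam * f) * b - b ^ 2 =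
            -b ^ 2 + lam * (lam * f ^ 2 - 2 * (lam * f) * b) := by ring
        rw [e1]
        exact IsCoprime.add_mul_left_right (hlb.pow_right.neg_right) _
      have h6 : IsCoprime (lam * e) (e ^ 2 - 2 * lam * e * b - b ^ 2) := IsCoprime.mul_left hlc hec
      rw [← mul_assoc] at hg'
      obtain ⟨α, hα⟩ := exists_associated_pow_of_associated_pow_mul h6 hg'
      rcases sq_of_assoc hα with h7 | h7
      · exact ⟨α, Or.inl h7⟩
      · exact ⟨α, Or.inr (Or.inl h7)⟩
    · have hel : IsCoprime e lam := (lam_prime.coprime_iff_not_dvd.2 hle).symm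
      have h6 : IsCoprime e (lam * (e ^ 2 - 2 * lam * e * b - b ^ 2)) := IsCoprime.mul_right hel hec
      have h8 : lam * (e * (e ^ 2 - 2 * lam * e * b - b ^ 2)) =
        e * (lam * (e ^ 2 - 2 * lam * e * b - b ^ 2)) := by ring
      rw [h8] at hg'
      obtain ⟨α, hα⟩ := exists_associated_pow_of_associated_pow_mul h6 hg'
      rcases sq_of_assoc hα with h7 | h7
      · exact ⟨α, Or.inr (Or.inr (Or.inl (by rw [← h7])))⟩
      · exact ⟨α, Or.inr (Or.inr (Or.inr (by rw [h7]; ring)))⟩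
  · have hal : IsCoprime a lam := (lam_prime.coprime_iff_not_dvd.2 hla).symm
    have hac : IsCoprime a (a ^ 2 + 4 * a * b + 2 * b ^ 2) := by
      have e1 : a ^ 2 + 4 * a * b + 2 * b ^ 2 = -lam ^ 2 * b ^ 2 + a * (a + 4 * b) := by
        rw [h2]
        ring
      rw [e1]
      refine IsCoprime.add_mul_left_right ?_ _
      exact IsCoprime.mul_right hal.pow_right.neg_right hab.pow_right
    obtain ⟨α, hα⟩ := exists_associated_pow_of_associated_pow_mul hac hg
    rcases sq_of_assoc hα with h7 | h7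
    · exact ⟨α, Or.inl h7⟩
    · exact ⟨α, Or.inr (Or.inl h7)⟩

/-- The abscissae. -/
theorem abs8 (x y : K8) (hx : x ≠ 0) (hE : y ^ 2 = x ^ 3 + 4 * x ^ 2 + 2 * x) :
    ∃ w : K8, x = w ^ 2 ∨ x = -w ^ 2 ∨ x = z8 * w ^ 2 ∨ x = -z8 * w ^ 2 := by
  obtain ⟨A, hA⟩ : ∃ A : 𝓞 K8 →+* K8, A = algebraMap (𝓞 K8) K8 := ⟨_, rfl⟩
  have hAi : Function.Injective A := by
    rw [hA]
    exact FaithfulSMul.algebraMap_injective (𝓞 K8) K8
  have hz : A lam = z8 := by
    rw [hA]
    rfl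
  obtain ⟨a, b, hab, hx'⟩ := IsFractionRing.exists_reduced_fraction (𝓞 K8) x
  have hxb : x * A (b : 𝓞 K8) = A a := by
    rw [← hx', hA]
    exact IsLocalization.mk'_spec _ a b
  have hbn := nonZeroDivisors.ne_zero b.2
  obtain ⟨b', hb'⟩ : ∃ b' : 𝓞 K8, b' = (b : 𝓞 K8) := ⟨_, rfl⟩
  rw [← hb'] at hxb hab hbn
  have hb0 : A b' ≠ 0 := by
    intro h0
    exact hbn (hAi (by rw [h0, map_zero]))
  have hab' : IsCoprime a b' := hab.isCoprime
  have ha : a ≠ 0 := by
    rintro rfl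
    rw [map_zero] at hxb
    exact (mul_ne_zero hx hb0) hxb
  have h1 : (y * A b' ^ 2) ^ 2 = A (a * b' * (a ^ 2 + 4 * a * b' + 2 * b' ^ 2)) := by
    have e4 : A 4 = 4 := map_ofNat _ 4
    have e2 : A 2 = 2 := map_ofNat _ 2
    simp only [map_mul, map_add, map_pow, e4, e2]
    rw [mul_pow, hE, ← hxb]
    ring
  obtain ⟨t, ht⟩ := IsIntegrallyClosed.exists_algebraMap_eq_of_isIntegral_pow (R := 𝓞 K8)
    (x := y * A b' ^ 2) (n := 2) two_pos (by
      rw [h1, hA]
      exact isIntegral_algebraMap)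
  rw [← hA] at ht
  have h2 : a * b' * (a ^ 2 + 4 * a * b' + 2 * b' ^ 2) = t ^ 2 := by
    apply hAi
    rw [← h1, map_pow, ht]
  obtain ⟨⟨α, hα⟩, β, hβ⟩ := ar a b' t ha hab' h2
  have hx1 : x = A a / A b' := by
    rw [eq_div_iff hb0, hxb]
  refine ⟨A α / A β, ?_⟩
  rcases hβ with hb | hb
  · rcases hα with h | h | h | h
    · left
      rw [hx1, h, hb, map_pow, map_pow, div_pow]
    · right; left
      rw [hx1, h, hb, map_neg, map_pow, map_pow, div_pow]
      ring
    · right; right; left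
      rw [hx1, h, hb, map_mul, map_pow, map_pow, div_pow, hz]
      ring
    · right; right; right
      rw [hx1, h, hb, map_mul, map_neg, map_pow, map_pow, div_pow, hz]
      ring
  · rcases hα with h | h | h | h
    · right; left
      rw [hx1, h, hb, map_neg, map_pow, map_pow, div_pow, div_neg]
    · left
      rw [hx1, h, hb, map_neg, map_neg, map_pow, map_pow, div_pow, neg_div_neg_eq]
    · right; right; right
      rw [hx1, h, hb, map_neg, map_mul, map_pow, map_pow, div_pow, hz, div_neg]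
      ring
    · right; right; left
      rw [hx1, h, hb, map_mul, map_neg, map_neg, map_pow, map_pow, div_pow, hz, div_neg]
      ring

end Pool.Agent.Lib.MP_1a91b9_ntC
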