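import Pool.Agent.Lib.MP_1a91b9_ntC.Stab

/-!
# MP_1a91b9_nt (stability of the rank): the assembly

`R2 F`: the L-series over `F` of `y² = x³ + 4 x² + 2 x` has a zero of order two at `1`, and the group of
points over `F` has rank two. `asm`: stability for every curve of the class, and `R2 K` if `K` contains a square
root of `-2`.
-/

set_option autoImplicit false

namespace Pool.Agent.Lib.MP_1a91b9_ntC

open NumberField WeierstrassCurve
open Pool.Agent.Lib.MP_1a91b9_ntW (K8 lam8 lam8_sq)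
open Pool.Agent.Lib.MP_1a91b9_ntW.J (c8)
open Pool.Agent.Lib.MP_1a91b9_nuI (HasJ)
open Pool.Agent.Lib.MP_1a91b9_ntL (crv)

noncomputable section

/-- the curve -/
def E0 (F : Type) [Field F] : WeierstrassCurve F := ⟨0, 4, 0, 2, 0⟩

/-- order and rank are two -/
def R2 (F : Type) [Field F] [NumberField F] : Prop :=
  (∃ h : ℂ → ℂ, Differentiable ℂ h ∧ (∀ s : ℂ, 3 / 2 < s.re → h s = (E0 F).LSeries s) ∧
    analyticOrderAt h 1 = 2) ∧ rk (E0 F) = 2

theorem c8_one {F : Type} [Field F] : c8 (1 : F) = E0 F := by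
  unfold c8 E0
  rw [mul_one, one_pow, mul_one]

theorem hasJ_E0 {F : Type} [Field F] : HasJ (E0 F) 8000 := by
  unfold HasJ E0 WeierstrassCurve.c₄ WeierstrassCurve.Δ WeierstrassCurve.b₂ WeierstrassCurve.b₄
    WeierstrassCurve.b₆ WeierstrassCurve.b₈
  push_cast
  ring

theorem E0_map {F F' : Type} [Field F] [Field F'] (f : F →+* F') : (E0 F).map f = E0 F' := by
  refine WeierstrassCurve.ext ?_ ?_ ?_ ?_ ?_
  · exact map_zero f
  · exact map_ofNat f 4
  · exact map_zero f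
  · exact map_ofNat f 2
  · exact map_zero f

/-- The property is invariant under isomorphisms. -/
theorem R2.equiv {F F' : Type} [Field F] [NumberField F] [Field F'] [NumberField F'] (e : F ≃+* F')
    (h : R2 F) : R2 F' := by
  obtain ⟨⟨g, h1, h2, h3⟩, h4⟩ := h
  refine ⟨⟨g, h1, fun s hs => ?_, h3⟩, ?_⟩
  · rw [h2 s hs, ← E0_map (e : F →+* F')]
    exact (Pool.Agent.Lib.MP_1a91b9_ntI.ls_e_hasJ e hasJ_E0 s).symm
  · let _ : Algebra F F' := (e : F →+* F').toAlgebra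
    have h5 := rk_bij (F := F) (F' := F') e.bijective (E0 F)
    rw [h4] at h5
    rw [← h5, E0_map]

/-- **The base case**, over every field generated by a square root of `-2`. -/
theorem R2_K (h8 : R2 K8) {K : Type} [Field K] [NumberField K] (hK : Module.finrank ℚ K = 2) {s : K}
    (hs : s ^ 2 = -2) : R2 K := by
  have hl : (lam8 : K8) ^ 2 = -2 := by
    have h1 := congrArg (fun x : 𝓞 K8 => (x : K8)) lam8_sq
    push_cast at h1
    exact h1
  obtain ⟨e⟩ := Pool.Agent.Lib.MP_1a91b9_ntI.exists_iso_pq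
    Pool.Agent.Lib.MP_1a91b9_ntW.T.finrank_K8 hK (t := 0) (n := 2) (by norm_num) (s := (lam8 : K8))
    (by rw [hl]; push_cast; ring) (s' := s) (by rw [hs]; push_cast; ring)
  exact h8.equiv e

open Classical in
/-- **The result.** -/
theorem asm (h8 : R2 K8) (K : Type) [Field K] [NumberField K] (hK : Module.finrank ℚ K = 2) :
    (∀ E : WeierstrassCurve K, E.a₁ = 0 → E.a₃ = 0 → E.a₆ = 0 → E.Δ ≠ 0 → ∀ j D : ℤ,
      (j, D) ∈ [((0 : ℤ), (-3 : ℤ)), (54000, -3), (-12288000, -3), (1728, -4), (287496, -4),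
        (-3375, -7), (16581375, -7), (8000, -8), (-32768, -11), (-884736, -19), (-884736000, -43),
        (-147197952000, -67), (-262537412640768000, -163)] →
      E.c₄ ^ 3 = j * E.Δ → (∃ s : K, s ^ 2 = D) →
      ∀ l : ℕ, (l = 2 ∨ l = 4 ∧ ∃ i : K, i ^ 2 = -1) →
      ∀ (F : Type) [Field F] [NumberField F] [Algebra K F],
      IntermediateField.adjoin K {x : F | ∃ c : K, x ^ l = algebraMap K F c} = ⊤ →
      ∀ (n : ℕ) (m u : 𝓞 K), m ∣ 2 ^ n → (∀ p, Prime p → ¬ (p ^ 2 ∣ m ∧ p ^ 2 ∣ u)) →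
      ∀ c : ℝ, (c = if Prime (2 : 𝓞 K) then (if ∃ x : F, x ^ 2 = -1 then
          √((∏' i : ℕ, (1 + 1 / (2 : ℝ) ^ (2 * i + 1))⁻¹) / 2) else
          ∏' i : ℕ, (1 + 1 / (2 : ℝ) ^ (2 * i + 1))⁻¹) else
        if Squarefree (2 : 𝓞 K) then ∏' i : ℕ, (1 - 1 / (2 : ℝ) ^ (i + 1)) else
        ∏' i : ℕ, (1 + 1 / (2 : ℝ) ^ (i + 1))⁻¹) → ∀ ε : ℝ, 0 < ε →
      ∀ᶠ X : ℝ in Filter.atTop, c ^ Module.finrank K F - ε ≤
        (Nat.card {d : 𝓞 K // Squarefree d ∧ m ∣ d - u ∧ |Algebra.norm ℤ d| ≤ X ∧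
          ∀ (F' : Type) [Field F'] [NumberField F'] [Algebra F F'] (x : F'),
            x ^ 2 = algebraMap F F' (algebraMap K F d) → IntermediateField.adjoin F {x} = ⊤ →
            (∃ g : ℂ → ℂ, Differentiable ℂ g ∧ g 1 ≠ 0 ∧ ∀ s : ℂ, 3 / 2 < s.re →
              ((E.baseChange F).baseChange F').LSeries s = (E.baseChange F).LSeries s * g s) ∧
            Module.finrank ℤ ((E.baseChange F).baseChange F').toAffine.Point =
              Module.finrank ℤ (E.baseChange F).toAffine.Point} : ℝ) /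
          (Nat.card {d : 𝓞 K // Squarefree d ∧ m ∣ d - u ∧ |Algebra.norm ℤ d| ≤ X} : ℝ)) ∧
    ((∃ s : K, s ^ 2 = -2) → ∀ E : WeierstrassCurve K, E = ⟨0, 4, 0, 2, 0⟩ →
      (∃ h : ℂ → ℂ, Differentiable ℂ h ∧ (∀ s : ℂ, 3 / 2 < s.re → h s = E.LSeries s) ∧
        analyticOrderAt h 1 = 2) ∧ Module.finrank ℤ E.toAffine.Point = 2) := by
  refine ⟨?_, ?_⟩
  · intro E h1 h3 h6 hΔ j D hjD hj hD l hl F _ _ _ hF n m u hm hu c hc ε hε
    obtain ⟨a, ha⟩ : ∃ a, a = E.a₂ := ⟨_, rfl⟩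
    obtain ⟨b, hb⟩ : ∃ b, b = E.a₄ := ⟨_, rfl⟩
    have hE : E = crv a b := WeierstrassCurve.ext h1 ha.symm h3 hb.symm h6
    rw [hE] at hΔ hj ⊢
    rw [Pool.Agent.Lib.MP_1a91b9_ntY.crv_Δ] at hΔ hj
    rw [Pool.Agent.Lib.MP_1a91b9_ntY.crv_c₄] at hj
    refine stab_final K hK a b ?_ j D hjD ?_ hD l hl F hF n m u hm hu c hc ε hε
    · intro h
      refine hΔ ?_
      linear_combination 16 * b * h
    · have h16 : (16 : K) ≠ 0 := by norm_num
      refine mul_left_cancel₀ h16 ?_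
      linear_combination hj
  · rintro ⟨s, hs⟩ E rfl
    exact R2_K h8 hK hs

end

end Pool.Agent.Lib.MP_1a91b9_ntC
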