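import Pool.Agent.Lib.MP_1a91b9_ntC.Th

/-!
# MP_1a91b9_nt (positive rank): the L-function of the Hecke character, its zero at `s = 1`

`f = G H`, `f (1 / t) = - t ^ 2 f t`, `f > 0` on `(1, ∞)`.
-/

set_option autoImplicit false

namespace Pool.Agent.Lib.MP_1a91b9_ntC

open Real Complex Filter Topology Asymptotics Set MeasureTheory

noncomputable section

/-- The properties of the two theta series. -/
structure ThD (G H : ℝ → ℝ) : Prop where
  gs : ∀ t : ℝ, 0 < t → HasSum (fun x : ℤ => ((ch x * x : ℤ) : ℝ) *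
    rexp (-π * ((x : ℝ) ^ 2 / 8) * t)) (G t)
  hs : ∀ t : ℝ, 0 < t → HasSum (fun y : ℤ => ((et y : ℤ) : ℝ) *
    rexp (-π * ((y : ℝ) ^ 2 / 4) * t)) (H t)
  gc : ContinuousOn G (Ioi 0)
  hc : ContinuousOn H (Ioi 0)
  gf : ∀ t : ℝ, 0 < t → G (1 / t) = t ^ (3 / 2 : ℝ) * G t
  hf : ∀ t : ℝ, 0 < t → H (1 / t) = -(√t * H t)
  dec : ∃ c : ℝ, 0 < c ∧ (fun t => G t * H t) =O[atTop] fun t => rexp (-c * t)
  gp : ∀ t : ℝ, 1 ≤ t → 0 < G t
  hp : ∀ t : ℝ, 1 < t → 0 < H t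

variable {G H : ℝ → ℝ}

/-- The theta series of the Hecke character. -/
def fT (G H : ℝ → ℝ) (t : ℝ) : ℂ := ((G t * H t : ℝ) : ℂ)

theorem ThD.feq (h : ThD G H) {t : ℝ} (ht : 0 < t) :
    G (1 / t) * H (1 / t) = -(t ^ (2 : ℝ)) * (G t * H t) := by
  have e : t ^ (3 / 2 : ℝ) * √t = t ^ (2 : ℝ) := by
    rw [Real.sqrt_eq_rpow, ← Real.rpow_add ht]
    norm_num
  rw [h.gf t ht, h.hf t ht, ← e]
  ring

theorem ThD.fc (h : ThD G H) : ContinuousOn (fT G H) (Ioi 0) :=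
  Complex.continuous_ofReal.comp_continuousOn (h.gc.mul h.hc)

theorem ThD.ftop (h : ThD G H) (r : ℝ) : fT G H =O[atTop] fun t : ℝ => t ^ r := by
  obtain ⟨c, hc, h1⟩ := h.dec
  have h2 := h1.trans (isLittleO_exp_neg_mul_rpow_atTop hc r).isBigO
  have h3 : (fun t => ‖fT G H t‖) =O[atTop] fun t : ℝ => t ^ r := by
    refine h2.norm_left.congr_left fun t => ?_
    rw [fT, Complex.norm_real]
  exact h3.of_norm_left

/-- The functional equation pair. -/
def pr (h : ThD G H) : WeakFEPair ℂ where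
  f := fT G H
  g := fT G H
  k := 2
  ε := -1
  f₀ := 0
  g₀ := 0
  hf_int := h.fc.locallyIntegrableOn measurableSet_Ioi
  hg_int := h.fc.locallyIntegrableOn measurableSet_Ioi
  hk := two_pos
  hε := by norm_num
  h_feq := fun x hx => by
    rw [fT, h.feq hx, fT]
    push_cast
    rw [smul_eq_mul]
    ring
  hf_top := fun r => by
    simp only [sub_zero]
    exact h.ftop r
  hg_top := fun r => by
    simp only [sub_zero]
    exact h.ftop r

theorem pr_strong (h : ThD G H) : IsStrongFEPair (pr h) := ⟨rfl, rfl⟩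

theorem ThD.mellin_diff (h : ThD G H) : Differentiable ℂ (mellin (fT G H)) := by
  have h1 := (pr_strong h).differentiable_Λ
  rw [(pr_strong h).Λ_eq] at h1
  exact h1

theorem ThD.mellin_one (h : ThD G H) : mellin (fT G H) 1 = 0 := by
  have h1 := (pr h).functional_equation 1
  rw [(pr_strong h).Λ_eq, (pr_strong h).symm_Λ_eq] at h1
  have e : ((pr h).k : ℂ) - 1 = 1 := by
    show (((2 : ℝ) : ℂ)) - 1 = 1
    push_cast
    norm_num
  rw [e] at h1
  have h2 : mellin (fT G H) 1 = (-1 : ℂ) • mellin (fT G H) 1 := h1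
  rw [smul_eq_mul] at h2
  linear_combination (1 / 2 : ℂ) * h2

/-- The integrand of the derivative is nonnegative. -/
theorem ThD.nonneg (h : ThD G H) {t : ℝ} (ht : 0 < t) : 0 ≤ Real.log t * (G t * H t) := by
  rcases lt_trichotomy t 1 with h1 | h1 | h1
  · have hu : 1 < 1 / t := by rwa [lt_one_div one_pos ht, div_one]
    have hu0 : 0 < 1 / t := one_pos.trans hu
    have h2 := h.feq hu0
    rw [one_div_one_div] at h2
    have h3 : 0 < G (1 / t) * H (1 / t) := mul_pos (h.gp _ hu.le) (h.hp _ hu)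
    have h4 : G t * H t < 0 := by
      rw [h2]
      have h5 : 0 < (1 / t) ^ (2 : ℝ) := Real.rpow_pos_of_pos hu0 _
      nlinarith [mul_pos h5 h3]
    exact (mul_pos_of_neg_of_neg (Real.log_neg ht h1) h4).le
  · rw [h1, Real.log_one, zero_mul]
  · exact (mul_pos (Real.log_pos h1) (mul_pos (h.gp t h1.le) (h.hp t h1))).le

theorem ThD.mellin_deriv (h : ThD G H) :
    ∃ I : ℝ, 0 < I ∧ HasDerivAt (mellin (fT G H)) (I : ℂ) 1 := by
  have hbot : fT G H =O[𝓝[>] 0] fun t : ℝ => t ^ (-(0 : ℝ)) := (pr_strong h).hf_zero (-(0 : ℝ))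
  obtain ⟨h1, h2⟩ := mellin_hasDerivAt_of_isBigO_rpow (a := 2) (b := 0) (s := 1)
    (h.fc.locallyIntegrableOn measurableSet_Ioi) (h.ftop (-2)) (by norm_num) hbot (by norm_num)
  have e : ∀ t : ℝ, ((t : ℂ) ^ ((1 : ℂ) - 1)) • (Real.log t • fT G H t) =
      ((Real.log t * (G t * H t) : ℝ) : ℂ) := by
    intro t
    rw [sub_self, Complex.cpow_zero, one_smul, fT, Complex.real_smul]
    push_cast
    rfl
  have hint : IntegrableOn (fun t => Real.log t * (G t * H t)) (Ioi 0) := by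
    have h3 : IntegrableOn (fun t : ℝ => ((t : ℂ) ^ ((1 : ℂ) - 1)) • (Real.log t • fT G H t))
      (Ioi 0) := h1
    have h4 := h3.re
    refine h4.congr (Eventually.of_forall fun t => ?_)
    show RCLike.re (((t : ℂ) ^ ((1 : ℂ) - 1)) • (Real.log t • fT G H t)) = _
    rw [e]
    exact Complex.ofReal_re _
  refine ⟨∫ t in Ioi 0, Real.log t * (G t * H t), ?_, ?_⟩
  · rw [setIntegral_pos_iff_support_of_nonneg_ae
      ((ae_restrict_iff' measurableSet_Ioi).2 (Eventually.of_forall fun t ht => h.nonneg ht)) hint]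
    refine lt_of_lt_of_le ?_ (measure_mono (μ := volume) (s := Ioi (1 : ℝ)) ?_)
    · rw [Real.volume_Ioi]
      exact ENNReal.zero_lt_top
    · intro t ht
      have ht1 : 1 < t := ht
      have ht0 : 0 < t := one_pos.trans ht1
      refine ⟨?_, ht0⟩
      exact (mul_pos (Real.log_pos ht1) (mul_pos (h.gp t ht1.le) (h.hp t ht1))).ne'
  · have h3 : mellin (fun t => Real.log t • fT G H t) 1 =
        ((∫ t in Ioi 0, Real.log t * (G t * H t) : ℝ) : ℂ) := by
      have h4 : mellin (fun t => Real.log t • fT G H t) 1 =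
          ∫ t in Ioi (0 : ℝ), ((Real.log t * (G t * H t) : ℝ) : ℂ) :=
        integral_congr_ae (Eventually.of_forall fun t => e t)
      rw [h4]
      exact integral_complex_ofReal
    rw [h3] at h2
    exact h2

/-! ### The Dirichlet series -/

theorem ch_abs (x : ℤ) : |ch x| ≤ 1 := by
  unfold ch
  split_ifs <;> norm_num

theorem et_abs (y : ℤ) : |et y| ≤ 1 := by
  unfold et
  split_ifs <;> norm_num

/-- The norm form. -/
def nf (p : ℤ × ℤ) : ℝ := (p.1 : ℝ) ^ 2 + 2 * (p.2 : ℝ) ^ 2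

/-- The coefficients. -/
def cf (p : ℤ × ℤ) : ℂ := ((ch p.1 * et p.2 * p.1 : ℤ) : ℂ)

theorem cf_or (p : ℤ × ℤ) : cf p = 0 ∨ 0 < nf p := by
  by_cases h : p.1 = 0
  · left
    rw [cf, h, mul_zero, Int.cast_zero]
  · right
    have h1 : (p.1 : ℝ) ≠ 0 := by exact_mod_cast h
    unfold nf
    positivity

theorem cf_norm (p : ℤ × ℤ) : ‖cf p‖ ≤ |(p.1 : ℝ)| := by
  rw [cf, Complex.norm_intCast]
  push_cast
  rw [abs_mul, abs_mul]
  have h1 : |((ch p.1 : ℤ) : ℝ)| ≤ 1 := by exact_mod_cast ch_abs p.1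
  have h2 : |((et p.2 : ℤ) : ℝ)| ≤ 1 := by exact_mod_cast et_abs p.2
  have h3 : |((ch p.1 : ℤ) : ℝ)| * |((et p.2 : ℤ) : ℝ)| ≤ 1 :=
    mul_le_one₀ h1 (abs_nonneg _) h2
  nlinarith [abs_nonneg (p.1 : ℝ)]

theorem cf_sum {σ : ℝ} (hσ : 3 / 2 < σ) : Summable fun p : ℤ × ℤ => ‖cf p‖ / (nf p / 8) ^ σ := by
  have h1 : Summable fun p : ℤ × ℤ => 8 ^ σ * ‖(![p.1, p.2] : Fin 2 → ℤ)‖ ^ (-(2 * σ - 1)) := by
    have h2 := (finTwoArrowEquiv ℤ).symm.summable_iff.2
      (EisensteinSeries.summable_one_div_norm_rpow (k := 2 * σ - 1) (by linarith))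
    exact (h2.mul_left (8 ^ σ)).congr fun p => rfl
  refine h1.of_nonneg_of_le (fun p => ?_) fun p => ?_
  · refine div_nonneg (norm_nonneg _) (Real.rpow_nonneg ?_ _)
    unfold nf
    positivity
  · rcases cf_or p with h0 | h0
    · rw [h0, norm_zero, zero_div]
      positivity
    by_cases hx : p.1 = 0
    · rw [cf, hx, mul_zero, Int.cast_zero, norm_zero, zero_div]
      positivity
    obtain ⟨n, hn⟩ : ∃ n, n = ‖(![p.1, p.2] : Fin 2 → ℤ)‖ := ⟨_, rfl⟩
    have hx1 : |(p.1 : ℝ)| ≤ n := by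
      rw [hn]
      have h2 := norm_le_pi_norm (![p.1, p.2] : Fin 2 → ℤ) 0
      rwa [Matrix.cons_val_zero, Int.norm_eq_abs] at h2
    have hpos : 0 < |(p.1 : ℝ)| := abs_pos.2 (by exact_mod_cast hx)
    have hn0 : 0 < n := hpos.trans_le hx1
    have hnN : n ^ 2 ≤ nf p := by
      have h3 : n ≤ √(nf p) := by
        rw [hn]
        refine (pi_norm_le_iff_of_nonneg (Real.sqrt_nonneg _)).2 fun i => ?_
        fin_cases i
        · show ‖p.1‖ ≤ _
          rw [Int.norm_eq_abs]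
          refine Real.abs_le_sqrt ?_
          unfold nf
          nlinarith [sq_nonneg (p.2 : ℝ)]
        · show ‖p.2‖ ≤ _
          rw [Int.norm_eq_abs]
          refine Real.abs_le_sqrt ?_
          unfold nf
          nlinarith [sq_nonneg (p.1 : ℝ), sq_nonneg (p.2 : ℝ)]
      exact (Real.le_sqrt hn0.le h0.le).1 h3
    rw [← hn]
    have h4 : (n ^ 2 / 8) ^ σ ≤ (nf p / 8) ^ σ :=
      Real.rpow_le_rpow (by positivity) (by linarith) (by linarith)
    have h5 : 0 < (n ^ 2 / 8) ^ σ := Real.rpow_pos_of_pos (by positivity) _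
    have h6 : n / (n ^ 2 / 8) ^ σ = 8 ^ σ * n ^ (-(2 * σ - 1)) := by
      rw [Real.div_rpow (by positivity) (by norm_num), ← Real.rpow_natCast, ← Real.rpow_mul hn0.le,
        div_div_eq_mul_div, div_eq_iff (Real.rpow_pos_of_pos hn0 _).ne', mul_assoc,
        ← Real.rpow_add hn0]
      have e : -(2 * σ - 1) + ((2 : ℕ) : ℝ) * σ = 1 := by
        push_cast
        ring
      rw [e, Real.rpow_one, mul_comm]
    calc ‖cf p‖ / (nf p / 8) ^ σ ≤ n / (nf p / 8) ^ σ :=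
          div_le_div_of_nonneg_right ((cf_norm p).trans hx1) (h5.le.trans h4)
      _ ≤ n / (n ^ 2 / 8) ^ σ := div_le_div_of_nonneg_left hn0.le h5 h4
      _ = _ := h6

theorem ThD.hasSum (h : ThD G H) {t : ℝ} (ht : 0 < t) :
    HasSum (fun p : ℤ × ℤ => cf p * rexp (-π * (nf p / 8) * t)) (fT G H t) := by
  have h1 := h.gs t ht
  have h2 := h.hs t ht
  have h3 : Summable fun p : ℤ × ℤ => (((ch p.1 * p.1 : ℤ) : ℝ) *
      rexp (-π * ((p.1 : ℝ) ^ 2 / 8) * t)) * (((et p.2 : ℤ) : ℝ) *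
      rexp (-π * ((p.2 : ℝ) ^ 2 / 4) * t)) :=
    summable_mul_of_summable_norm h1.summable.norm h2.summable.norm
  have h4 := h1.mul h2 h3
  have h5 := Complex.hasSum_ofReal.2 h4
  have h6 : (fun p : ℤ × ℤ => cf p * ((rexp (-π * (nf p / 8) * t) : ℝ) : ℂ)) =
      fun p : ℤ × ℤ => (((((ch p.1 * p.1 : ℤ) : ℝ) * rexp (-π * ((p.1 : ℝ) ^ 2 / 8) * t)) *
        (((et p.2 : ℤ) : ℝ) * rexp (-π * ((p.2 : ℝ) ^ 2 / 4) * t)) : ℝ) : ℂ) := by
    funext p
    have e : -π * (nf p / 8) * t = -π * ((p.1 : ℝ) ^ 2 / 8) * t + -π * ((p.2 : ℝ) ^ 2 / 4) * t := by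
      unfold nf
      ring
    rw [e, Real.exp_add, cf]
    push_cast
    ring
  rw [h6]
  exact h5

/-! ### The L-function -/

/-- The L-function. -/
def LL (G H : ℝ → ℝ) (s : ℂ) : ℂ :=
  ((π / 8 : ℝ) : ℂ) ^ s * (Complex.Gamma s)⁻¹ * mellin (fT G H) s

theorem ThD.LL_diff (h : ThD G H) : Differentiable ℂ (LL G H) := by
  have h1 : ((π / 8 : ℝ) : ℂ) ≠ 0 := by
    rw [Complex.ofReal_ne_zero]
    positivity
  refine Differentiable.mul (Differentiable.mul ?_ ?_) h.mellin_diff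
  · exact fun s => (differentiableAt_id.const_cpow (Or.inl h1))
  · exact Complex.differentiable_one_div_Gamma

theorem ThD.LL_one (h : ThD G H) : LL G H 1 = 0 := by
  rw [LL, h.mellin_one, mul_zero]

theorem ThD.LL_deriv (h : ThD G H) : deriv (LL G H) 1 ≠ 0 := by
  obtain ⟨I, hI, hd⟩ := h.mellin_deriv
  have h1 : ((π / 8 : ℝ) : ℂ) ≠ 0 := by
    rw [Complex.ofReal_ne_zero]
    positivity
  have hA : DifferentiableAt ℂ (fun s : ℂ => ((π / 8 : ℝ) : ℂ) ^ s * (Complex.Gamma s)⁻¹) 1 :=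
    (differentiableAt_id.const_cpow (Or.inl h1)).mul (Complex.differentiable_one_div_Gamma 1)
  have h2 := hA.hasDerivAt.mul hd
  have h3 : deriv (LL G H) 1 = deriv (fun s : ℂ => ((π / 8 : ℝ) : ℂ) ^ s * (Complex.Gamma s)⁻¹) 1 *
      mellin (fT G H) 1 + ((π / 8 : ℝ) : ℂ) ^ (1 : ℂ) * (Complex.Gamma 1)⁻¹ * (I : ℂ) := h2.deriv
  rw [h3, h.mellin_one, mul_zero, zero_add, Complex.cpow_one, Complex.Gamma_one, inv_one, mul_one]
  exact mul_ne_zero h1 (Complex.ofReal_ne_zero.2 hI.ne')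

theorem ThD.LL_eq (h : ThD G H) {s : ℂ} (hs : 2 < s.re) : LL G H s = ∑' p : ℤ × ℤ, tm s p := by
  have hs0 : 0 < s.re := by linarith
  have h1 := hasSum_mellin_pi_mul (a := cf) (q := fun p => nf p / 8) (F := fT G H) (s := s)
    (fun p => ?_) hs0 (fun t ht => ?_) (cf_sum (by linarith))
  · have h2 := h1.mul_left (((π / 8 : ℝ) : ℂ) ^ s * (Complex.Gamma s)⁻¹)
    have h3 : (fun p : ℤ × ℤ => ((π / 8 : ℝ) : ℂ) ^ s * (Complex.Gamma s)⁻¹ *
        ((π : ℂ) ^ (-s) * Complex.Gamma s * cf p / ((nf p / 8 : ℝ) : ℂ) ^ s)) = tm s := by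
      funext p
      rcases cf_or p with h0 | h0
      · rw [h0, mul_zero, zero_div, mul_zero, tm]
        rw [cf] at h0
        rw [h0, zero_mul]
      · have e1 : Complex.Gamma s ≠ 0 := Complex.Gamma_ne_zero_of_re_pos hs0
        have e2 : ((π / 8 : ℝ) : ℂ) ^ s = (π : ℂ) ^ s * ((1 / 8 : ℝ) : ℂ) ^ s := by
          rw [← Complex.mul_cpow_ofReal_nonneg pi_pos.le (by norm_num), ← Complex.ofReal_mul]
          norm_num
          ring_nf
        have e3 : ((nf p / 8 : ℝ) : ℂ) ^ s = ((nf p : ℝ) : ℂ) ^ s * ((1 / 8 : ℝ) : ℂ) ^ s := by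
          rw [← Complex.mul_cpow_ofReal_nonneg h0.le (by norm_num), ← Complex.ofReal_mul]
          norm_num
          ring_nf
        have e4 : (π : ℂ) ^ s ≠ 0 := by
          rw [Ne, Complex.cpow_eq_zero_iff]
          exact fun h => pi_ne_zero (Complex.ofReal_eq_zero.1 h.1)
        have e5 : ((1 / 8 : ℝ) : ℂ) ^ s ≠ 0 := by
          rw [Ne, Complex.cpow_eq_zero_iff]
          exact fun h => absurd (Complex.ofReal_eq_zero.1 h.1) (by norm_num)
        have e6 : ((nf p : ℝ) : ℂ) ^ s ≠ 0 := by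
          rw [Ne, Complex.cpow_eq_zero_iff]
          exact fun h => h0.ne' (Complex.ofReal_eq_zero.1 h.1)
        have e7 : tm s p = cf p * ((nf p : ℝ) : ℂ) ^ (-s) := by
          rw [tm, cf, nf]
          push_cast
          rfl
        rw [e7, e2, e3, Complex.cpow_neg, Complex.cpow_neg]
        field_simp
    rw [h3] at h2
    exact h2.tsum_eq.symm
  · rcases cf_or p with h0 | h0
    · exact Or.inl h0
    · exact Or.inr (by positivity)
  · exact h.hasSum ht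

/-- The L-function: entire, with a simple zero at `1`. -/
theorem exists_L_of (h : ThD G H) : ∃ L : ℂ → ℂ, Differentiable ℂ L ∧
    (∀ s : ℂ, 2 < s.re → L s = ∑' p : ℤ × ℤ, tm s p) ∧ L 1 = 0 ∧ deriv L 1 ≠ 0 :=
  ⟨LL G H, h.LL_diff, fun _ hs => h.LL_eq hs, h.LL_one, h.LL_deriv⟩

theorem thD : ThD GG HH where
  gs := fun t ht => by
    have e : (fun x : ℤ => ((ch x * x : ℤ) : ℝ) * rexp (-π * ((x : ℝ) ^ 2 / 8) * t)) =
        fun x : ℤ => (ch x : ℝ) * (x : ℝ) * rexp (-π * (x : ℝ) ^ 2 * t / 8) := by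
      funext x
      have e1 : -π * ((x : ℝ) ^ 2 / 8) * t = -π * (x : ℝ) ^ 2 * t / 8 := by ring
      rw [e1, Int.cast_mul]
    rw [e]
    exact hasSum_GG ht
  hs := fun t ht => by
    have e : (fun y : ℤ => ((et y : ℤ) : ℝ) * rexp (-π * ((y : ℝ) ^ 2 / 4) * t)) =
        fun y : ℤ => (et y : ℝ) * rexp (-π * (y : ℝ) ^ 2 * t / 4) := by
      funext y
      have e1 : -π * ((y : ℝ) ^ 2 / 4) * t = -π * (y : ℝ) ^ 2 * t / 4 := by ring
      rw [e1]
    rw [e]
    exact hasSum_HH ht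
  gc := continuousOn_GG
  hc := continuousOn_HH
  gf := fun _ ht => GG_inv ht
  hf := fun _ ht => HH_inv ht
  dec := by
    obtain ⟨c, C, hc, hC, h1⟩ := GG_bound
    obtain ⟨D, hD, h2⟩ := HH_bound
    refine ⟨c, hc, IsBigO.of_bound (C * D) ?_⟩
    filter_upwards [eventually_ge_atTop 1] with t ht
    rw [norm_mul, Real.norm_eq_abs, Real.norm_eq_abs, Real.norm_eq_abs, Real.abs_exp]
    calc |GG t| * |HH t| ≤ (C * rexp (-c * t)) * D :=
          mul_le_mul (h1 t ht) (h2 t ht) (abs_nonneg _) (by positivity)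
      _ = _ := by ring
  gp := fun _ ht => GG_pos ht
  hp := fun _ ht => HH_pos ht

/-- **The L-function of the Hecke character**: entire, with a simple zero at `1`. -/
theorem exists_L : ∃ L : ℂ → ℂ, Differentiable ℂ L ∧
    (∀ s : ℂ, 2 < s.re → L s = ∑' p : ℤ × ℤ, tm s p) ∧ L 1 = 0 ∧ deriv L 1 ≠ 0 :=
  exists_L_of thD

end

end Pool.Agent.Lib.MP_1a91b9_ntC
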