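import Pool.Agent.Lib.MP_1a91b9_ntC.L2

/-!
# MP_1a91b9_nt (positive rank): the order of vanishing of the L-series of `y² = x³ + 4 x² + 2 x`
over `ℚ(√-2)` is two
-/

set_option autoImplicit false

namespace Pool.Agent.Lib.MP_1a91b9_ntC

open NumberField IsDedekindDomain Polynomial WeierstrassCurve Filter Topology LSeries
  Pool.Agent.Lib.MP_1a91b9_nt Pool.Agent.Lib.MP_1a91b9_nuT Pool.Agent.Lib.MP_1a91b9_nuT.S7
  Pool.Agent.Lib.MP_1a91b9_ntW
open Pool.Agent.Lib.MP_1a91b9_nuT.S4 (Lf)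
open Pool.Agent.Lib.MP_1a91b9_ntQ (em)

noncomputable section

section gen
variable {W : WeierstrassCurve K8} {p : Ideal (𝓞 K8) → ℂ} (p1 : p 1 = 1)
  (pmul : ∀ I J, p (I * J) = p I * p J)
  (ple : ∀ I, ‖p I‖ ≤ (Ideal.absNorm I : ℝ) ^ (1 / 2 : ℝ))
include p1 pmul ple

/-- the range `2 < Re s` -/
private theorem Ser_two (hloc : ∀ (v : HeightOneSpectrum (𝓞 K8)) (x : ℂ),
      aeval x (locPoly W v) = (1 - p v.asIdeal * x) * (1 - (starRingEnd ℂ) (p v.asIdeal) * x))
    (s : ℂ) (hs : 2 < s.re) :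
    W.LSeries s = Lf p s * Lf (fun I => (starRingEnd ℂ) (p I)) s := by
  have hp := (S4.hasProd_Lf p p1 pmul (1 / 2) (by norm_num) ple s (by linarith)).2
  have hq := (S4.hasProd_Lf (fun I => (starRingEnd ℂ) (p I)) (by rw [p1, map_one])
    (fun I J => by rw [pmul, map_mul]) (1 / 2) (by norm_num)
    (fun I => by rw [RCLike.norm_conj]; exact ple I) s (by linarith)).2
  have hpq := hp.mul hq
  have he := hasProd_fac W hs
  refine he.unique ?_
  have e : (fun w : HeightOneSpectrum (𝓞 K8) => fac W w s) = fun w =>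
      (1 - p w.asIdeal * (Ideal.absNorm w.asIdeal : ℂ) ^ (-s))⁻¹ *
      (1 - (starRingEnd ℂ) (p w.asIdeal) * (Ideal.absNorm w.asIdeal : ℂ) ^ (-s))⁻¹ := by
    funext w
    rw [fac, nrm_eq, hloc, mul_inv]
  rw [e]
  exact hpq

private theorem Ser_half (hloc : ∀ (v : HeightOneSpectrum (𝓞 K8)) (x : ℂ),
      aeval x (locPoly W v) = (1 - p v.asIdeal * x) * (1 - (starRingEnd ℂ) (p v.asIdeal) * x))
    (s : ℂ) (hs : 3 / 2 < s.re) :
    W.LSeries s = Lf p s * Lf (fun I => (starRingEnd ℂ) (p I)) s := by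
  have hp := hasSum_coefI_of_le p p1 pmul ple
  have hq := hasSum_coefI_of_le (fun I => (starRingEnd ℂ) (p I)) (by rw [p1, map_one])
    (fun I J => by rw [pmul, map_mul]) (fun I => by rw [RCLike.norm_conj]; exact ple I)
  have h1 := half_plane W (LSeries.convolution (coefI p)
    (coefI (fun I => (starRingEnd ℂ) (p I))))
    (fun s hs => ((hp s hs).convolution (hq s hs)).LSeriesSummable)
    (fun s hs => by
      have hs' : 3 / 2 < s.re := by linarith
      rw [Ser_two p1 pmul ple hloc s hs, ((hp s hs').convolution (hq s hs')).LSeries_eq]) s hs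
  rw [h1.2, ((hp s hs).convolution (hq s hs)).LSeries_eq]

omit p1 pmul ple in
private theorem Ser_conj (s : ℂ) :
    Lf (fun I => (starRingEnd ℂ) (p I)) s = (starRingEnd ℂ) (Lf p ((starRingEnd ℂ) s)) := by
  rw [Lf, Lf, Complex.conj_tsum]
  refine tsum_congr fun I => ?_
  rw [map_mul]
  congr 1
  rw [← map_neg, Complex.cpow_conj _ _ (by
    rw [Complex.natCast_arg]
    exact Real.pi_pos.ne), Complex.conj_natCast, Complex.conj_conj]

/-- from `2 < Re s` to `3/2 < Re s` -/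
private theorem Ser_halfL {g : ℂ → ℂ} (hg : Differentiable ℂ g)
    (h2 : ∀ s : ℂ, 2 < s.re → g s = Lf p s) : ∀ s : ℂ, 3 / 2 < s.re → g s = Lf p s := by
  have hq := hasSum_coefI_of_le p p1 pmul ple
  obtain ⟨b, hb⟩ : ∃ b : ℕ → ℂ, b = coefI p := ⟨_, rfl⟩
  rw [← hb] at hq
  have hab : abscissaOfAbsConv b ≤ ((3 / 2 : ℝ) : EReal) := by
    refine LSeries.abscissaOfAbsConv_le_of_forall_lt_LSeriesSummable fun y hy => ?_
    exact (hq y (by simpa using hy)).LSeriesSummable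
  have hL : AnalyticOnNhd ℂ (LSeries b) {s : ℂ | 3 / 2 < s.re} := by
    refine (LSeries_analyticOnNhd b).mono fun s hs => ?_
    exact hab.trans_lt (by exact_mod_cast hs)
  have hG : AnalyticOnNhd ℂ g {s : ℂ | 3 / 2 < s.re} := fun s _ => hg.analyticAt s
  have hc : IsPreconnected {s : ℂ | 3 / 2 < s.re} := (convex_halfSpace_re_gt _).isPreconnected
  have h3 : (3 : ℂ) ∈ {s : ℂ | 3 / 2 < s.re} := by norm_num
  have hev : g =ᶠ[𝓝 (3 : ℂ)] LSeries b := by
    have ho : IsOpen {s : ℂ | 2 < s.re} := isOpen_lt continuous_const Complex.continuous_re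
    filter_upwards [ho.mem_nhds (show (3 : ℂ) ∈ {s : ℂ | 2 < s.re} by norm_num)] with s hs
    have hs' : 2 < s.re := hs
    rw [h2 s hs', (hq s (by linarith)).LSeries_eq]
  intro s hs
  rw [hG.eqOn_of_preconnected_of_eventuallyEq hL hc h3 hev hs, (hq s hs).LSeries_eq]

/-- **The L-series of a curve with the Euler factors of a Hecke character**, the function itself. -/
theorem Ser_fun (hloc : ∀ (v : HeightOneSpectrum (𝓞 K8)) (x : ℂ),
      aeval x (locPoly W v) = (1 - p v.asIdeal * x) * (1 - (starRingEnd ℂ) (p v.asIdeal) * x))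
    {L : ℂ → ℂ} (hL : Differentiable ℂ L) (hL2 : ∀ s : ℂ, 2 < s.re → L s = Lf p s) (s : ℂ)
    (hs : 3 / 2 < s.re) :
    (starRingEnd ℂ) (L ((starRingEnd ℂ) s)) * L s = W.LSeries s := by
  have hL1 := Ser_halfL p1 pmul ple hL hL2
  rw [Ser_half p1 pmul ple hloc s hs, Ser_conj, hL1 s hs,
    hL1 _ (by rw [Complex.conj_re]; exact hs), mul_comm]

end gen

/-- **The L-series of `WW (dW k j S)`, bad reduction at `lam`**, the function itself. -/
theorem ser_bad_fun {k j : ZMod 2} {S : Finset Pg} (h : ¬ (j = 0 ∧ k = 1 ∧ AS S = 1)) (s : ℂ)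
    (hs : 3 / 2 < s.re) :
    (starRingEnd ℂ) (LG Pr (X8 k j S) ((starRingEnd ℂ) s)) * LG Pr (X8 k j S) s =
      (WW (dW k j S)).LSeries s := by
  have hX := X8_chr k j S
  refine Ser_fun (W := WW (dW k j S)) (p := pG Pr (X8 k j S)) hX.pG_one hX.pG_mul hX.pG_le ?_
    hX.LG_diff hX.LG_eq s hs
  intro v x
  rcases Gen_place (P := Pr) v with h1 | ⟨q, hqv⟩
  · rw [pG_neg h1, L.lam_bad h (lam_mem_of_not h1)]
    simp
  · have e : pG Pr (X8 k j S) v.asIdeal = (starRingEnd ℂ) (em q.1) * X8 k j S q.1 := by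
      rw [← hqv]
      exact pG_plf (X8 k j S) q
    rw [e]
    exact L.loc8_eval k j S q v (by rw [← hqv]; rfl) x

theorem dW_one : dW 0 1 ∅ = 1 := by
  rw [dW, DD_empty]
  simp [ZMod.val_one]

/-- the L-function of the Hecke character is real on the real axis -/
theorem LG_real (s : ℂ) :
    (starRingEnd ℂ) (LG Pr (X8 0 1 ∅) ((starRingEnd ℂ) s)) = LG Pr (X8 0 1 ∅) s := by
  have hd := (X8_chr 0 1 ∅).LG_diff
  have h := S4.entire_eq (S4.differentiable_conj_conj hd) hd fun s hs => by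
    have h1 := two_LG hs
    have h2 := two_LG (s := (starRingEnd ℂ) s) (by rw [Complex.conj_re]; exact hs)
    have h3 : (starRingEnd ℂ) (∑' p : ℤ × ℤ, tm ((starRingEnd ℂ) s) p) = ∑' p : ℤ × ℤ, tm s p := by
      rw [Complex.conj_tsum]
      refine tsum_congr fun p => ?_
      rw [tm, tm, map_mul, map_intCast]
      congr 1
      have h0 : (0 : ℤ) ≤ p.1 ^ 2 + 2 * p.2 ^ 2 := by positivity
      obtain ⟨n, hn⟩ := Int.eq_ofNat_of_zero_le h0
      rw [hn, Int.cast_natCast, ← map_neg, Complex.cpow_conj _ _ (by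
        rw [Complex.natCast_arg]
        exact Real.pi_pos.ne), Complex.conj_natCast, Complex.conj_conj]
    rw [← h2, map_mul, map_ofNat, ← h1] at h3
    exact mul_left_cancel₀ two_ne_zero h3
  exact congrFun h s

/-- **The order of vanishing is two.** -/
theorem exists_g (h : ∃ L : ℂ → ℂ, Differentiable ℂ L ∧
      (∀ s : ℂ, 2 < s.re → L s = ∑' p : ℤ × ℤ, tm s p) ∧ L 1 = 0 ∧ deriv L 1 ≠ 0) :
    ∃ g : ℂ → ℂ, Differentiable ℂ g ∧ (∀ s : ℂ, 3 / 2 < s.re → g s = (WW 1).LSeries s) ∧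
      analyticOrderAt g 1 = 2 := by
  obtain ⟨L, hL, h2, h3, h4⟩ := h
  have hd := (X8_chr 0 1 ∅).LG_diff
  have e : (fun s => 2 * LG Pr (X8 0 1 ∅) s) = L :=
    S4.entire_eq (hd.const_mul 2) hL fun s hs => by rw [two_LG hs, h2 s hs]
  have e1 : LG Pr (X8 0 1 ∅) 1 = 0 := by
    have h5 : 2 * LG Pr (X8 0 1 ∅) 1 = L 1 := congrFun e 1
    rw [h3] at h5
    exact (mul_eq_zero.1 h5).resolve_left two_ne_zero
  have e2 : deriv (LG Pr (X8 0 1 ∅)) 1 ≠ 0 := by
    intro h5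
    apply h4
    rw [← e, deriv_const_mul _ (hd 1), h5, mul_zero]
  have ha : AnalyticAt ℂ (LG Pr (X8 0 1 ∅)) 1 := hd.analyticAt 1
  have e3 : analyticOrderAt (LG Pr (X8 0 1 ∅)) 1 = 1 := by
    have h5 := ha.analyticOrderAt_sub_eq_one_of_deriv_ne_zero e2
    simpa [e1] using h5
  refine ⟨fun s => LG Pr (X8 0 1 ∅) s * LG Pr (X8 0 1 ∅) s, hd.mul hd, fun s hs => ?_, ?_⟩
  · have h5 := ser_bad_fun (k := 0) (j := 1) (S := ∅) (fun h => one_ne_zero h.1) s hs
    rw [LG_real, dW_one] at h5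
    exact h5
  · have h5 := analyticOrderAt_mul ha ha
    rw [e3] at h5
    exact h5

end

end Pool.Agent.Lib.MP_1a91b9_ntC
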