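import Mathlib

/-!
# Finitely generated groups with an endomorphism `mu`, `mu² = -2`
-/

set_option autoImplicit false

namespace Pool.Agent.Lib.MP_1a91b9_ntC

open Module

section

variable {M : Type*} [AddCommGroup M] [Module.Finite ℤ M]

omit [Module.Finite ℤ M] in
theorem mem_tors {x : M} : x ∈ Submodule.torsion ℤ M ↔ IsOfFinAddOrder x := by
  rw [← AddCommGroup.mem_torsion, ← Submodule.torsion_int]
  rfl

/-- The torsion subgroup is finite. -/
theorem tors_finite : Finite (Submodule.torsion ℤ M) :=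
  Module.finite_of_fg_torsion _ (Submodule.torsion_isTorsion)

/-- If the kernel is `{0, t}` and `t` is not a value, every torsion element is a value up to `t`. -/
theorem tors_div (mu : M →+ M) (t : M) (ht : 2 • t = 0) (hker : ∀ x, mu x = 0 → x = 0 ∨ x = t)
    (htr : t ∉ mu.range) (x : M) (hx : IsOfFinAddOrder x) : x ∈ mu.range ∨ x + t ∈ mu.range := by
  have hfin : Finite (Submodule.torsion ℤ M) := tors_finite
  obtain ⟨T, hT⟩ : ∃ T : AddSubgroup M, T = (Submodule.torsion ℤ M).toAddSubgroup := ⟨_, rfl⟩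
  have hmem : ∀ y : M, y ∈ T ↔ IsOfFinAddOrder y := by
    intro y
    rw [hT]
    exact mem_tors
  have hTf : Finite T := by
    rw [hT]
    exact hfin
  have htT : t ∈ T := by
    rw [hmem, isOfFinAddOrder_iff_nsmul_eq_zero]
    exact ⟨2, two_pos, ht⟩
  obtain ⟨f, hf⟩ : ∃ f : T →+ T, ∀ y : T, ((f y : T) : M) = mu y := by
    refine ⟨(mu.comp T.subtype).codRestrict T fun y => ?_, fun y => rfl⟩
    rw [hmem]
    exact AddMonoidHom.isOfFinAddOrder mu ((hmem _).1 y.2)
  have hk : Nat.card f.ker ≤ 2 := by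
    have h1 : (f.ker : Set T) ⊆ {0, ⟨t, htT⟩} := by
      intro y hy
      have h2 : mu (y : M) = 0 := by
        rw [← hf]
        have h3 : f y = 0 := hy
        rw [h3]
        rfl
      rcases hker _ h2 with h3 | h3
      · left
        exact Subtype.ext h3
      · right
        exact Subtype.ext h3
    have h2 : (f.ker : Set T).ncard ≤ 2 := by
      refine (Set.ncard_le_ncard h1 (Set.toFinite _)).trans ?_
      exact (Set.ncard_insert_le _ _).trans (by rw [Set.ncard_singleton])
    exact h2
  have hid : f.range.index ≤ 2 := by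
    have h1 := AddSubgroup.index_mul_card f.range
    have h2 := AddSubgroup.index_ker f
    have h3 := AddSubgroup.index_mul_card f.ker
    have h4 : 0 < Nat.card f.range := Nat.card_pos
    rw [h2, ← h1, mul_comm] at h3
    have h5 := Nat.eq_of_mul_eq_mul_right h4 h3
    rw [← h5]
    exact hk
  have htf : (⟨t, htT⟩ : T) ∉ f.range := by
    rintro ⟨y, hy⟩
    apply htr
    refine ⟨y, ?_⟩
    rw [← hf, hy]
  have hi2 : f.range.index = 2 := by
    have h0 : f.range.index ≠ 0 := AddSubgroup.index_ne_zero_of_finite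
    have h1 : f.range.index ≠ 1 := by
      intro h1
      rw [AddSubgroup.index_eq_one] at h1
      exact htf (by rw [h1]; trivial)
    omega
  have hxT := (hmem x).2 hx
  by_cases hxf : (⟨x, hxT⟩ : T) ∈ f.range
  · left
    obtain ⟨y, hy⟩ := hxf
    exact ⟨y, by rw [← hf, hy]⟩
  · right
    have h1 : (⟨x, hxT⟩ : T) + ⟨t, htT⟩ ∈ f.range := by
      rw [AddSubgroup.add_mem_iff_of_index_two hi2]
      exact ⟨fun h => absurd h hxf, fun h => absurd h htf⟩
    obtain ⟨y, hy⟩ := h1
    exact ⟨y, by rw [← hf, hy]; rfl⟩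

/-- **The rank.** -/
theorem herb (mu : M →+ M) (hmu : ∀ x, mu (mu x) = -(2 • x)) (t : M) (ht : 2 • t = 0)
    (htr : t ∉ mu.range) (hi : mu.range.index ≤ 4) (hi0 : mu.range.index ≠ 0) (x0 : M)
    (hx0 : ¬ IsOfFinAddOrder x0) : finrank ℤ M = 2 := by
  apply le_antisymm
  · -- the upper bound
    obtain ⟨S, hS⟩ : ∃ S : Submodule ℤ M, S = Submodule.torsion ℤ M := ⟨_, rfl⟩
    have hfree : Module.Free ℤ (M ⧸ S) := by
      rw [hS]
      infer_instance
    have hmS : ∀ y : M, y ∈ S ↔ IsOfFinAddOrder y := by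
      intro y
      rw [hS]
      exact mem_tors
    have hle : S ≤ S.comap mu.toIntLinearMap := by
      intro y hy
      rw [Submodule.mem_comap, hmS]
      exact AddMonoidHom.isOfFinAddOrder mu ((hmS _).1 hy)
    have htS : t ∈ S := by
      rw [hmS, isOfFinAddOrder_iff_nsmul_eq_zero]
      exact ⟨2, two_pos, ht⟩
    obtain ⟨m, hm⟩ : ∃ m : (M ⧸ S) →+ (M ⧸ S), ∀ y : M, m (S.mkQ y) = S.mkQ (mu y) :=
      ⟨(S.mapQ S mu.toIntLinearMap hle).toAddMonoidHom, fun y => rfl⟩
    have hmm : ∀ q, m (m q) = -(2 • q) := by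
      intro q
      obtain ⟨y, rfl⟩ := S.mkQ_surjective q
      rw [hm, hm, hmu, map_neg, map_nsmul]
    -- the index of the range of `m`
    have hi2 : m.range.index ≤ 2 := by
      have h1 : (m.range.comap S.mkQ.toAddMonoidHom).index = m.range.index :=
        AddSubgroup.index_comap_of_surjective _ S.mkQ_surjective
      have h2 : mu.range ≤ m.range.comap S.mkQ.toAddMonoidHom := by
        rintro _ ⟨y, rfl⟩
        exact ⟨S.mkQ y, hm y⟩
      have h3 : t ∈ m.range.comap S.mkQ.toAddMonoidHom := by
        have h4 : S.mkQ t = 0 := (Submodule.Quotient.mk_eq_zero S).2 htS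
        show S.mkQ t ∈ m.range
        rw [h4]
        exact zero_mem _
      have h4 := AddSubgroup.relIndex_mul_index h2
      rw [h1] at h4
      have h5 : mu.range.relIndex (m.range.comap S.mkQ.toAddMonoidHom) ≠ 1 := by
        rw [Ne, AddSubgroup.relIndex_eq_one]
        exact fun h => htr (h h3)
      have h6 : mu.range.relIndex (m.range.comap S.mkQ.toAddMonoidHom) ≠ 0 := by
        intro h
        rw [h, zero_mul] at h4
        exact hi0 h4.symm
      by_contra h7
      have h8 : 2 * 3 ≤ mu.range.relIndex (m.range.comap S.mkQ.toAddMonoidHom) * m.range.index :=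
        Nat.mul_le_mul (by omega) (by omega)
      rw [h4] at h8
      omega
    -- the multiplication by two
    have h1 : (nsmulAddMonoidHom (α := M ⧸ S) 2).range = m.range.map m := by
      ext q
      constructor
      · rintro ⟨y, rfl⟩
        refine ⟨m (-y), ⟨-y, rfl⟩, ?_⟩
        rw [hmm]
        simp
      · rintro ⟨_, ⟨y, rfl⟩, rfl⟩
        refine ⟨-y, ?_⟩
        rw [hmm]
        simp
    have h2 := AddSubgroup.index_range_nsmul (M ⧸ S) 2
    rw [h1, AddSubgroup.index_map] at h2
    have h3 : (m.range ⊔ m.ker).index ∣ m.range.index := AddSubgroup.index_dvd_of_le le_sup_left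
    have h0 : 0 < m.range.index := by
      rcases Nat.eq_zero_or_pos m.range.index with h | h
      · rw [h, mul_zero] at h2
        exact absurd h2.symm (pow_ne_zero _ two_ne_zero)
      · exact h
    have h4 := Nat.le_of_dvd h0 h3
    have h5 : 2 ^ finrank ℤ (M ⧸ S) ≤ 2 ^ 2 := by
      rw [← h2]
      exact (Nat.mul_le_mul (h4.trans hi2) hi2).trans (by norm_num)
    have h6 : finrank ℤ (M ⧸ S) ≤ 2 := (Nat.pow_le_pow_iff_right (by norm_num)).1 h5
    have h7 : finrank ℤ (M ⧸ S) = finrank ℤ M := by
      unfold finrank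
      rw [hS, rank_quotient_eq_of_le_torsion le_rfl]
    rw [← h7]
    exact h6
  · -- the lower bound
    have hli : LinearIndependent ℤ ![x0, mu x0] := by
      rw [LinearIndependent.pair_iff]
      intro a b hab
      have h1 : a • mu x0 + b • mu (mu x0) = 0 := by
        rw [← map_zsmul, ← map_zsmul, ← map_add, hab, map_zero]
      rw [hmu] at h1
      have h2 : (a ^ 2 + 2 * b ^ 2) • x0 = 0 := by
        have e1 : (a ^ 2 + 2 * b ^ 2) • x0 =
            a • (a • x0 + b • mu x0) - b • (a • mu x0 + b • -(2 • x0)) := by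
          have e2 : (2 : ℕ) • x0 = (2 : ℤ) • x0 := by
            rw [← natCast_zsmul]
            rfl
          rw [e2]
          module
        rw [e1, hab, h1, smul_zero, smul_zero, sub_zero]
      have h3 : a ^ 2 + 2 * b ^ 2 = 0 := by
        by_contra h
        exact hx0 (isOfFinAddOrder_iff_zsmul_eq_zero.2 ⟨_, h, h2⟩)
      constructor
      · nlinarith [sq_nonneg a, sq_nonneg b]
      · nlinarith [sq_nonneg a, sq_nonneg b]
    have h := hli.fintype_card_le_finrank
    simpa using h

end

end Pool.Agent.Lib.MP_1a91b9_ntC
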