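import Pool.Agent.Lib.MP_1a91b9_ntC.Desc
import Pool.Agent.Lib.MP_1a91b9_ntC.ArK
import Pool.Agent.Lib.MP_1a91b9_ntC.Tors
import Pool.Agent.Lib.MP_1a91b9_ntW.C.TorsW
import Pool.Agent.Lib.MP_17a322_nt.VJ.MW4

/-!
# The rank of `y² = x³ + 4 x² + 2 x` over `ℚ(√-2)` is two
-/

set_option autoImplicit false

namespace Pool.Agent.Lib.MP_1a91b9_ntC

open WeierstrassCurve NumberField
open Pool.Agent.Lib.MP_1a91b9_ntW
open Pool.Agent.Lib.MP_1a91b9_ntW.C Pool.Agent.Lib.MP_1a91b9_nuI

/-- `±√-2` is not a square in `ℚ(√-2)`. -/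
theorem z8_not_sq (w : K8) : w ^ 2 ≠ z8 ∧ w ^ 2 ≠ -z8 := by
  have key : ∀ (e : 𝓞 K8), (e = lam ∨ e = -lam) → ∀ w : K8, w ^ 2 ≠ algebraMap (𝓞 K8) K8 e := by
    intro e he w hw
    obtain ⟨t, ht⟩ := IsIntegrallyClosed.exists_algebraMap_eq_of_isIntegral_pow (R := 𝓞 K8)
      (x := w) (n := 2) two_pos (by
        rw [hw]
        exact isIntegral_algebraMap)
    have h1 : t ^ 2 = e := by
      apply FaithfulSMul.algebraMap_injective (𝓞 K8) K8
      rw [map_pow, ht, hw]
    have h2 : lam ∣ t := by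
      refine lam_prime.dvd_of_dvd_pow (n := 2) ?_
      rw [h1]
      rcases he with h | h
      · rw [h]
      · rw [h]
        exact (dvd_neg).2 dvd_rfl
    obtain ⟨s, rfl⟩ := h2
    have h3 : IsUnit lam := by
      rcases he with h | h
      · refine IsUnit.of_mul_eq_one (s ^ 2) ?_
        refine mul_left_cancel₀ lam_ne_zero ?_
        rw [h] at h1
        linear_combination h1
      · refine IsUnit.of_mul_eq_one (-s ^ 2) ?_
        refine mul_left_cancel₀ lam_ne_zero ?_
        rw [h] at h1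
        linear_combination -h1
    exact lam_not_unit h3
  have hz : z8 = algebraMap (𝓞 K8) K8 lam := rfl
  constructor
  · rw [hz]
    exact key lam (Or.inl rfl) w
  · rw [hz, ← map_neg]
    exact key (-lam) (Or.inr rfl) w

section
open scoped Classical

theorem isS8 : IsS (WW 1).toAffine z8 1 := by
  refine ⟨?_, z8_sq, one_ne_zero⟩
  show cs (algebraMap (𝓞 K8) K8 1) = cs 1
  rw [map_one]

/-- The point `(√-2, 2 √-2)`. -/
theorem q8 : (WW 1).toAffine.Nonsingular z8 (2 * z8) := by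
  rw [isS8.nons]
  linear_combination (-z8) * z8_sq

/-- The values of `mu` have square abscissae. -/
theorem mu_abs {x y : K8} (hn : (WW 1).toAffine.Nonsingular x y)
    (hm : Affine.Point.some x y hn ∈ (mu isS8).range) : ∃ w : K8, w ^ 2 = x := by
  obtain ⟨P, hP⟩ := hm
  exact ⟨_, cfn_sq isS8 P hn hP⟩

/-- The point has infinite order. -/
theorem q8_inf [Module.Finite ℤ (WW 1).toAffine.Point] :
    ¬ IsOfFinAddOrder (Affine.Point.some z8 (2 * z8) q8) := by
  intro h
  have hz0 : z8 ≠ 0 := isS8.z0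
  rcases tors_div (mu isS8) (tq isS8) (by rw [two_nsmul, tq_add_self]) (mu_ker_all isS8)
    (tq_notMem isS8 neg_one_K8) _ h with h1 | h1
  · obtain ⟨w, hw⟩ := mu_abs _ h1
    exact (z8_not_sq w).1 hw
  · obtain ⟨hn', e⟩ := add_tq isS8 q8 hz0
    rw [e] at h1
    obtain ⟨w, hw⟩ := mu_abs _ h1
    refine (z8_not_sq w).2 ?_
    rw [hw]
    field_simp
    linear_combination z8_sq

theorem rk8' : Module.finrank ℤ (WW 1).toAffine.Point = 2 := by
  have hell : (WW 1).IsElliptic := by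
    refine ⟨isUnit_iff_ne_zero.2 ?_⟩
    rw [WW_delta]
    norm_num
  have hfg : AddGroup.FG (WW 1).toAffine.Point :=
    Pool.Agent.Lib.MP_17a322_nt.VJ.mordell_weil (WW 1)
  have hfin : Module.Finite ℤ (WW 1).toAffine.Point := Module.Finite.iff_addGroup_fg.2 hfg
  obtain ⟨h4, h0⟩ := index_le_four isS8 neg_one_K8 (fun x y hn hx => by
    obtain ⟨w, hw⟩ := abs8 x y hx (by
      have hE := (isS8.nons x y).1 hn
      linear_combination hE)
    exact ⟨w, hw⟩)
  exact herb (mu isS8) (fun P => mu_mu isS8 P) (tq isS8) (by rw [two_nsmul, tq_add_self])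
    (tq_notMem isS8 neg_one_K8) h4 h0 _ q8_inf

end

/-- **The rank of `y² = x³ + 4 x² + 2 x` over `ℚ(√-2)` is two.** -/
theorem rk8 [dec : DecidableEq K8] : Module.finrank ℤ (WW 1).toAffine.Point = 2 := by
  have h : dec = Classical.decEq K8 := Subsingleton.elim _ _
  subst h
  exact rk8'

end Pool.Agent.Lib.MP_1a91b9_ntC
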