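import Pool.Agent.Lib.MP_1a91b9_ntC.Asm
import Pool.Agent.Lib.MP_1a91b9_ntC.L1
import Pool.Agent.Lib.MP_1a91b9_ntC.L3
import Pool.Agent.Lib.MP_1a91b9_ntC.Rk8

/-!
# MP_1a91b9_nt (stability of the rank): the curve of rank two
-/

set_option autoImplicit false

namespace Pool.Agent.Lib.MP_1a91b9_ntC

open NumberField WeierstrassCurve
open Pool.Agent.Lib.MP_1a91b9_ntW (K8 WW)
open Pool.Agent.Lib.MP_1a91b9_ntL (crv)

noncomputable section

theorem WW_one : WW 1 = E0 K8 := by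
  have h1 : WW 1 = Pool.Agent.Lib.MP_1a91b9_ntW.J.c8 (1 : K8) := by
    rw [Pool.Agent.Lib.MP_1a91b9_ntW.J.WW_c8]
    congr 1
  rw [h1, c8_one]

/-- **The base case over `K8`.** -/
theorem r2_K8 : R2 K8 := by
  classical
  obtain ⟨g, h1, h2, h3⟩ := exists_g exists_L
  rw [WW_one] at h2
  have h4 := rk8
  rw [WW_one] at h4
  exact ⟨⟨g, h1, h2, h3⟩, h4⟩

/-- For `y² = x³ + 4 x² + 2 x` the field `K` contains a square root of `-2`. -/
theorem s2_of {K : Type} [Field K] [CharZero K] {j D : ℤ}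
    (hjD : (j, D) ∈ [((0 : ℤ), (-3 : ℤ)), (54000, -3), (-12288000, -3), (1728, -4), (287496, -4),
      (-3375, -7), (16581375, -7), (8000, -8), (-32768, -11), (-884736, -19), (-884736000, -43),
      (-147197952000, -67), (-262537412640768000, -163)])
    (hj : (⟨0, 4, 0, 2, 0⟩ : WeierstrassCurve K).c₄ ^ 3 =
      j * (⟨0, 4, 0, 2, 0⟩ : WeierstrassCurve K).Δ) (hD : ∃ s : K, s ^ 2 = D) :
    ∃ s : K, s ^ 2 = -2 := by
  have h1 : (⟨0, 4, 0, 2, 0⟩ : WeierstrassCurve K).c₄ = 160 := by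
    unfold WeierstrassCurve.c₄ WeierstrassCurve.b₂ WeierstrassCurve.b₄
    norm_num
  have h2 : (⟨0, 4, 0, 2, 0⟩ : WeierstrassCurve K).Δ = 512 := by
    unfold WeierstrassCurve.Δ WeierstrassCurve.b₂ WeierstrassCurve.b₄ WeierstrassCurve.b₆
      WeierstrassCurve.b₈
    norm_num
  rw [h1, h2] at hj
  have h3 : j = 8000 := by
    have h4 : ((j * 512 : ℤ) : K) = ((4096000 : ℤ) : K) := by
      push_cast
      rw [← hj]
      norm_num
    have h5 : j * 512 = 4096000 := by exact_mod_cast h4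
    omega
  subst h3
  have h6 : D = -8 := by
    simp only [List.mem_cons, Prod.mk.injEq, List.not_mem_nil, or_false] at hjD
    omega
  subst h6
  obtain ⟨s, hs⟩ := hD
  refine ⟨s / 2, ?_⟩
  rw [div_pow, hs]
  norm_num

/-- the step from `F = K` to `F'`, for the curve of rank two -/
theorem R2.up {F F' : Type} [Field F] [NumberField F] [Field F'] [NumberField F']
    {W : WeierstrassCurve F} {W' : WeierstrassCurve F'} (hW : W = E0 F) (h : R2 F)
    (hS : Stb W W') : (∃ h : ℂ → ℂ, Differentiable ℂ h ∧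
      (∀ s : ℂ, 3 / 2 < s.re → h s = W'.LSeries s) ∧ analyticOrderAt h 1 = 2) ∧ rk W' = 2 := by
  subst hW
  obtain ⟨⟨g, g1, g2, g3⟩, hr⟩ := hS
  obtain ⟨⟨f, f1, f2, f3⟩, h4⟩ := h
  refine ⟨⟨fun s => f s * g s, f1.mul g1, fun s hs => ?_, ?_⟩, hr.trans h4⟩
  · show f s * g s = _
    rw [f2 s hs, g3 s hs]
  · rw [ord_mul f1 g1 g2, f3]

theorem R2.of_one {K F : Type} [Field K] [NumberField K] [Field F] [NumberField F] [Algebra K F]
    (h : R2 K) (h1 : Module.finrank K F = 1) : R2 F := by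
  have hb : Function.Bijective (algebraMap K F) := by
    refine ⟨(algebraMap K F).injective, fun x => ?_⟩
    have h2 := (finrank_eq_one_iff_of_nonzero' (1 : F) one_ne_zero).1 h1 x
    obtain ⟨c, hc⟩ := h2
    exact ⟨c, by rw [← hc, Algebra.smul_def, mul_one]⟩
  exact h.equiv (RingEquiv.ofBijective (algebraMap K F) hb)

end

end Pool.Agent.Lib.MP_1a91b9_ntC
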