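import Mathlib

/-!
# MP_1a91b9_nt (positive rank): the Hecke character of `y² = x³ + 4 x² + 2 x` over `ℚ(√-2)`

`ψ (x + y √-2) = ch x * et y * (x + y √-2)`.
-/

set_option autoImplicit false

namespace Pool.Agent.Lib.MP_1a91b9_ntC

/-- the character `(-2 / x)` -/
def ch (x : ℤ) : ℤ :=
  if x % 8 = 1 ∨ x % 8 = 3 then 1 else if x % 8 = 5 ∨ x % 8 = 7 then -1 else 0

/-- the second factor -/
def et (y : ℤ) : ℤ := if y % 4 = 0 then 1 else -1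

/-- The terms of the L-series. -/
noncomputable def tm (s : ℂ) (p : ℤ × ℤ) : ℂ :=
  ((ch p.1 * et p.2 * p.1 : ℤ) : ℂ) * (((p.1 ^ 2 + 2 * p.2 ^ 2 : ℤ)) : ℂ) ^ (-s)

end Pool.Agent.Lib.MP_1a91b9_ntC
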