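import Pool.Agent.Lib.MP_1a91b9_ntW.C.Crv

/-!
# The descent by `√-2` on `y² = x³ + 4 d x² + 2 d² x`

A point whose abscissa is a nonzero square is divisible by `z = √-2`; the sum of two points whose
abscissae have a square product is divisible by `z`, or it is `(0, 0)`. If `-1` is not a square and every
nonzero abscissa is a square up to the factors `1, -1, z, -z`, then the index of the multiples of `z` is
at most `4`.
-/

set_option autoImplicit false

namespace Pool.Agent.Lib.MP_1a91b9_ntC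

open WeierstrassCurve
open Pool.Agent.Lib.MP_1a91b9_ntW.C Pool.Agent.Lib.MP_1a91b9_nuI
open scoped Classical

section

variable {N : Type*} [Field N] [CharZero N] {W : Affine N} {d z : N}

/-- A point whose abscissa is a nonzero square is divisible by `z`. -/
theorem sq_mem (h : IsS W z d) {x y w : N} (hn : W.Nonsingular x y) (hw : w ≠ 0)
    (hx : x = w ^ 2) : (Affine.Point.some x y hn) ∈ (mu h).range := by
  have hE := (h.nons x y).1 hn
  have hz := h.hz
  have hz0 := h.z0
  have hd := h.hd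
  obtain ⟨t, ht⟩ : ∃ t, t = y / w - 2 * d - x := ⟨_, rfl⟩
  have ht' : (t + 2 * d + x) * w = y := by
    rw [ht]
    field_simp
    ring
  have hx0 : x ≠ 0 := by
    rw [hx]
    exact pow_ne_zero 2 hw
  have h1 : t ^ 2 + (4 * d + 2 * x) * t + 2 * d ^ 2 = 0 := by
    refine mul_left_cancel₀ hx0 ?_
    have e : x * (t + 2 * d + x) ^ 2 = y ^ 2 := by
      rw [← ht', hx]
      ring
    linear_combination e + hE
  have ht0 : t ≠ 0 := by
    rintro rfl
    have h2 : 2 * d ^ 2 = 0 := by linear_combination h1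
    exact mul_ne_zero two_ne_zero (pow_ne_zero 2 hd) h2
  have hS : W.Nonsingular t (-(z * t * w)) := by
    rw [h.nons]
    linear_combination (t ^ 2 * w ^ 2) * hz - t * h1 + 2 * t ^ 2 * hx
  refine ⟨Affine.Point.some t _ hS, ?_⟩
  obtain ⟨x', y', hn', e1, -, e3, e4⟩ := mu_some h hS ht0
  rw [e1]
  refine pt_congr ?_ ?_ _ _
  · rw [e3]
    field_simp
    linear_combination -h1
  · rw [e4, ← ht']
    field_simp
    linear_combination (-(t ^ 2 - 2 * d ^ 2)) * hz - 2 * h1

/-- `x₁ x₂` is a square: the sum is divisible by `z`, or it is `(0, 0)`. -/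
theorem sum_mem (h : IsS W z d) {x₁ y₁ x₂ y₂ v : N} (h₁ : W.Nonsingular x₁ y₁)
    (h₂ : W.Nonsingular x₂ y₂) (hv : v ≠ 0) (hx : x₁ * x₂ = v ^ 2) :
    (Affine.Point.some x₁ y₁ h₁ + Affine.Point.some x₂ y₂ h₂) ∈ (mu h).range ∨
      Affine.Point.some x₁ y₁ h₁ + Affine.Point.some x₂ y₂ h₂ = tq h := by
  have hE₁ := (h.nons x₁ y₁).1 h₁
  have hE₂ := (h.nons x₂ y₂).1 h₂
  have ha1 : W.a₁ = 0 := by rw [h.eq, cs]
  have ha3 : W.a₃ = 0 := by rw [h.eq, cs]
  have ha2 : W.a₂ = 4 * d := by rw [h.eq, cs]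
  by_cases hxx : x₁ = x₂
  · subst hxx
    left
    have hyy : (y₁ - y₂) * (y₁ + y₂) = 0 := by linear_combination hE₁ - hE₂
    rcases mul_eq_zero.1 hyy with e | e
    · have e2 : y₁ = y₂ := by linear_combination e
      subst e2
      refine ⟨-(mu h (Affine.Point.some x₁ y₁ h₁)), ?_⟩
      rw [map_neg, mu_mu, neg_neg, two_nsmul]
    · have e2 : Affine.Point.some x₁ y₂ h₂ = -Affine.Point.some x₁ y₁ h₁ := by
        rw [Affine.Point.neg_some, Affine.Point.some.injEq, negY_eq h]
        exact ⟨rfl, by linear_combination e⟩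
      rw [e2, add_neg_cancel]
      exact zero_mem _
  · have hs : x₁ - x₂ ≠ 0 := sub_ne_zero.2 hxx
    obtain ⟨l, hl⟩ : ∃ l, l = (y₁ - y₂) / (x₁ - x₂) := ⟨_, rfl⟩
    have hl' : l * (x₁ - x₂) = y₁ - y₂ := by
      rw [hl, div_mul_cancel₀ _ hs]
    obtain ⟨x₃, hx₃⟩ : ∃ x₃, x₃ = l ^ 2 - W.a₂ - x₁ - x₂ := ⟨_, rfl⟩
    obtain ⟨hn, e1⟩ := add_pt W ha1 ha3 h₁ h₂ hxx l x₃ _ hl' hx₃ rfl
    rw [e1]
    rw [ha2] at hx₃
    have key : x₁ * x₂ * x₃ = (y₁ - l * x₁) ^ 2 := by
      refine mul_right_cancel₀ (pow_ne_zero 2 hs) ?_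
      rw [hx₃]
      linear_combination (x₁ * (x₁ - x₂) * (y₁ + y₂ - l * (x₁ - x₂))) * hl' +
        (x₂ * (x₁ - x₂)) * hE₁ - (x₁ * (x₁ - x₂)) * hE₂
    by_cases h0 : x₃ = 0
    · right
      subst h0
      have hy := y_zero h hn
      unfold tq
      exact pt_congr rfl hy _ _
    · left
      have hx3 : x₃ = ((y₁ - l * x₁) / v) ^ 2 := by
        rw [hx] at key
        rw [div_pow, ← key]
        field_simp
      refine sq_mem h hn ?_ hx3
      intro h2
      apply h0
      rw [hx3, h2]
      ring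

/-- If `-1` is not a square, the sum is divisible by `z`. -/
theorem sum_mem' (h : IsS W z d) (hm : ¬ IsSquare (-1 : N)) {x₁ y₁ x₂ y₂ v : N}
    (h₁ : W.Nonsingular x₁ y₁) (h₂ : W.Nonsingular x₂ y₂) (hv : v ≠ 0) (hx : x₁ * x₂ = v ^ 2) :
    (Affine.Point.some x₁ y₁ h₁ + Affine.Point.some x₂ y₂ h₂) ∈ (mu h).range := by
  rcases sum_mem h h₁ h₂ hv hx with e | e
  · exact e
  · exfalso
    have hx₁ : x₁ ≠ 0 := by
      rintro rfl
      rw [zero_mul] at hx
      exact pow_ne_zero 2 hv hx.symm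
    have e2 : Affine.Point.some x₂ y₂ h₂ = -Affine.Point.some x₁ y₁ h₁ + tq h := by
      rw [← e]
      abel
    have h₁' : W.Nonsingular x₁ (-y₁) := by
      rw [h.nons]
      rw [h.nons] at h₁
      linear_combination h₁
    have e3 : -Affine.Point.some x₁ y₁ h₁ = Affine.Point.some x₁ (-y₁) h₁' := by
      rw [Affine.Point.neg_some, Affine.Point.some.injEq, negY_eq h]
      exact ⟨rfl, rfl⟩
    obtain ⟨hn', e4⟩ := add_tq h h₁' hx₁
    rw [e3, e4, Affine.Point.some.injEq] at e2
    have h5 : v ^ 2 = -(z * d) ^ 2 := by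
      rw [← hx, e2.1]
      field_simp
      linear_combination (d ^ 2) * h.hz
    apply hm
    have hzd : z * d ≠ 0 := mul_ne_zero h.z0 h.hd
    refine ⟨v / (z * d), ?_⟩
    rw [div_mul_div_comm, ← pow_two, ← pow_two, h5, neg_div, div_self (pow_ne_zero 2 hzd)]

theorem two_mem (h : IsS W z d) (P : W.Point) : 2 • P ∈ (mu h).range :=
  ⟨-(mu h P), by rw [map_neg, mu_mu, neg_neg]⟩

/-- The classes modulo the multiples of `z`. -/
theorem four_classes (h : IsS W z d) (hm : ¬ IsSquare (-1 : N))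
    (hx : ∀ x y : N, W.Nonsingular x y → x ≠ 0 →
      ∃ w : N, x = w ^ 2 ∨ x = -w ^ 2 ∨ x = z * w ^ 2 ∨ x = -z * w ^ 2) :
    ∃ R : W.Point, ∀ P : W.Point, ∃ a b : Bool,
      P + ((if a then tq h else 0) + if b then R else 0) ∈ (mu h).range := by
  have hz0 := h.z0
  have hd := h.hd
  have hz := h.hz
  -- the classes `1` and `-1`
  have c1 : ∀ (x y w : N) (hn : W.Nonsingular x y), x ≠ 0 → x = w ^ 2 →
      Affine.Point.some x y hn ∈ (mu h).range := by
    intro x y w hn h0 hw
    refine sq_mem h hn ?_ hw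
    rintro rfl
    exact h0 (by rw [hw]; ring)
  have c2 : ∀ (x y w : N) (hn : W.Nonsingular x y), x ≠ 0 → x = -w ^ 2 →
      Affine.Point.some x y hn + tq h ∈ (mu h).range := by
    intro x y w hn h0 hw
    have hw0 : w ≠ 0 := by
      rintro rfl
      exact h0 (by rw [hw]; ring)
    obtain ⟨hn', e⟩ := add_tq h hn h0
    rw [e]
    refine sq_mem h (w := z * d / w) hn' (div_ne_zero (mul_ne_zero hz0 hd) hw0) ?_
    rw [hw]
    field_simp
    linear_combination -hz
  -- the classes `z` and `-z`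
  have hc : ∀ (x y w : N) (hn : W.Nonsingular x y), x ≠ 0 → x = -z * w ^ 2 →
      ∃ (x' y' w' : N) (hn' : W.Nonsingular x' y'), x' ≠ 0 ∧ x' = z * w' ^ 2 ∧
        Affine.Point.some x y hn + tq h = Affine.Point.some x' y' hn' := by
    intro x y w hn h0 hw
    have hw0 : w ≠ 0 := by
      rintro rfl
      exact h0 (by rw [hw]; ring)
    obtain ⟨hn', e⟩ := add_tq h hn h0
    refine ⟨_, _, d / w, hn', div_ne_zero (mul_ne_zero two_ne_zero (pow_ne_zero 2 hd)) h0, ?_, e⟩
    rw [hw]
    field_simp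
    linear_combination -hz
  have tt : ∀ P : W.Point, P + tq h + tq h = P := fun P => by
    rw [add_assoc, tq_add_self, add_zero]
  by_cases hR : ∃ (x y w : N), W.Nonsingular x y ∧ x ≠ 0 ∧ x = z * w ^ 2
  · obtain ⟨x₀, y₀, w₀, hn₀, hx₀, hw₀⟩ := hR
    have hw00 : w₀ ≠ 0 := by
      rintro rfl
      exact hx₀ (by rw [hw₀]; ring)
    have c3 : ∀ (x y w : N) (hn : W.Nonsingular x y), x ≠ 0 → x = z * w ^ 2 →
        Affine.Point.some x y hn + Affine.Point.some x₀ y₀ hn₀ ∈ (mu h).range := by
      intro x y w hn h0 hw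
      have hw0 : w ≠ 0 := by
        rintro rfl
        exact h0 (by rw [hw]; ring)
      refine sum_mem' h hm hn hn₀ (v := z * w * w₀) (mul_ne_zero (mul_ne_zero hz0 hw0) hw00) ?_
      rw [hw, hw₀]
      ring
    refine ⟨Affine.Point.some x₀ y₀ hn₀, fun P => ?_⟩
    rcases P with _ | ⟨x, y, hn⟩
    · refine ⟨false, false, ?_⟩
      simp only [Bool.false_eq_true, if_false, add_zero]
      exact zero_mem _
    · by_cases h0 : x = 0
      · subst h0
        refine ⟨true, false, ?_⟩
        simp only [Bool.false_eq_true, if_false, if_true, add_zero]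
        have e : Affine.Point.some 0 y hn = tq h := pt_congr rfl (y_zero h hn) _ _
        rw [e, tq_add_self]
        exact zero_mem _
      · obtain ⟨w, hw | hw | hw | hw⟩ := hx x y hn h0
        · refine ⟨false, false, ?_⟩
          simp only [Bool.false_eq_true, if_false, add_zero]
          exact c1 x y w hn h0 hw
        · refine ⟨true, false, ?_⟩
          simp only [Bool.false_eq_true, if_false, if_true, add_zero]
          exact c2 x y w hn h0 hw
        · refine ⟨false, true, ?_⟩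
          simp only [Bool.false_eq_true, if_false, if_true, zero_add]
          exact c3 x y w hn h0 hw
        · refine ⟨true, true, ?_⟩
          simp only [if_true]
          obtain ⟨x', y', w', hn', h0', hw', e⟩ := hc x y w hn h0 hw
          rw [← add_assoc, e]
          exact c3 x' y' w' hn' h0' hw'
  · refine ⟨0, fun P => ?_⟩
    rcases P with _ | ⟨x, y, hn⟩
    · refine ⟨false, false, ?_⟩
      simp only [Bool.false_eq_true, if_false, add_zero]
      exact zero_mem _
    · by_cases h0 : x = 0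
      · subst h0
        refine ⟨true, false, ?_⟩
        simp only [Bool.false_eq_true, if_false, if_true, add_zero]
        have e : Affine.Point.some 0 y hn = tq h := pt_congr rfl (y_zero h hn) _ _
        rw [e, tq_add_self]
        exact zero_mem _
      · obtain ⟨w, hw | hw | hw | hw⟩ := hx x y hn h0
        · refine ⟨false, false, ?_⟩
          simp only [Bool.false_eq_true, if_false, add_zero]
          exact c1 x y w hn h0 hw
        · refine ⟨true, false, ?_⟩
          simp only [Bool.false_eq_true, if_false, if_true, add_zero]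
          exact c2 x y w hn h0 hw
        · exact absurd ⟨x, y, w, hn, h0, hw⟩ hR
        · obtain ⟨x', y', w', hn', h0', hw', e⟩ := hc x y w hn h0 hw
          exact absurd ⟨x', y', w', hn', h0', hw'⟩ hR

/-- **The index of the multiples of `z` is at most four.** -/
theorem index_le_four (h : IsS W z d) (hm : ¬ IsSquare (-1 : N))
    (hx : ∀ x y : N, W.Nonsingular x y → x ≠ 0 →
      ∃ w : N, x = w ^ 2 ∨ x = -w ^ 2 ∨ x = z * w ^ 2 ∨ x = -z * w ^ 2) :
    (mu h).range.index ≤ 4 ∧ (mu h).range.index ≠ 0 := by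
  obtain ⟨R, hR⟩ := four_classes h hm hx
  have hs : Function.Surjective (fun c : Bool × Bool =>
      (QuotientAddGroup.mk (-((if c.1 then tq h else 0) + if c.2 then R else 0)) :
        W.Point ⧸ (mu h).range)) := by
    intro q
    obtain ⟨P, rfl⟩ := QuotientAddGroup.mk_surjective q
    obtain ⟨a, b, hab⟩ := hR P
    refine ⟨(a, b), ?_⟩
    rw [QuotientAddGroup.eq, neg_neg, add_comm]
    exact hab
  have hf : Finite (W.Point ⧸ (mu h).range) := Finite.of_surjective _ hs
  constructor
  · have h1 := Nat.card_le_card_of_surjective _ hs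
    have h2 : Nat.card (Bool × Bool) = 4 := by
      rw [Nat.card_prod]
      simp
    rw [h2] at h1
    exact h1
  · exact Nat.card_pos.ne'

end

end Pool.Agent.Lib.MP_1a91b9_ntC
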