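import Mathlib

/-!
# MP_1a91b9_nt (stability): a class of squares of `F` contains only finitely many `δ d`, `d` squarefree
-/

set_option autoImplicit false

namespace Pool.Agent.Lib.MP_1a91b9_ntC

open NumberField IntermediateField

/-- Two squarefree elements whose product is a square in the field are associated. -/
theorem assoc_of_sq {K : Type} [Field K] [NumberField K] [IsPrincipalIdealRing (𝓞 K)] {d d' : 𝓞 K}
    (hd : Squarefree d) (hd' : Squarefree d') {z : K} (hz : z ^ 2 = (d : K) * (d' : K)) :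
    Associated d d' := by
  have hz1 : IsIntegral ℤ z := by
    refine IsIntegral.of_pow two_pos ?_
    rw [hz, ← map_mul]
    exact (d * d').2
  obtain ⟨y, hy⟩ : ∃ y : 𝓞 K, algebraMap (𝓞 K) K y = z := ⟨⟨z, hz1⟩, rfl⟩
  have h1 : y ^ 2 = d * d' := by
    apply FaithfulSMul.algebraMap_injective (𝓞 K) K
    rw [map_pow, map_mul, hy]
    exact hz
  have h2 : d ∣ y := (hd.dvd_pow_iff_dvd two_ne_zero).1 (by rw [h1]; exact dvd_mul_right d d')
  have h3 : d' ∣ y := (hd'.dvd_pow_iff_dvd two_ne_zero).1 (by rw [h1]; exact dvd_mul_left d' d)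
  obtain ⟨a, ha⟩ := h2
  obtain ⟨b, hb⟩ := h3
  have hdd : d * d' ≠ 0 := mul_ne_zero hd.ne_zero hd'.ne_zero
  have h4 : a * b = 1 := by
    refine mul_left_cancel₀ hdd ?_
    calc d * d' * (a * b) = (d * a) * (d' * b) := by ring
      _ = y ^ 2 := by rw [← ha, ← hb, sq]
      _ = d * d' * 1 := by rw [h1, mul_one]
  have h5 : IsUnit a := IsUnit.of_mul_eq_one b h4
  have h6 : IsUnit b := IsUnit.of_mul_eq_one a (by rw [mul_comm, h4])
  exact (associated_mul_unit_right d a h5).trans
    ((by rw [← ha, ← hb] : d * a = d' * b) ▸ (associated_mul_unit_right d' b h6).symm)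

/-- Square roots which generate the same field. -/
theorem sq_of_adjoin {K F : Type} [Field K] [CharZero K] [Field F] [Algebra K F] {x x' : F} {c c' : K}
    (hx : x ^ 2 = algebraMap K F c) (hx' : x' ^ 2 = algebraMap K F c')
    (h : K⟮x⟯ = K⟮x'⟯) : ∃ w : K, w ^ 2 = c * c' := by
  have inj := (algebraMap K F).injective
  have hchar : CharZero F := charZero_of_injective_algebraMap inj
  by_cases hK : ∃ t : K, algebraMap K F t = x
  · obtain ⟨t, ht⟩ := hK
    have h1 : K⟮x⟯ = ⊥ := by
      rw [adjoin_simple_eq_bot_iff, IntermediateField.mem_bot]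
      exact ⟨t, ht⟩
    have h2 : x' ∈ (⊥ : IntermediateField K F) := by
      rw [← h1, h]
      exact mem_adjoin_simple_self K x'
    obtain ⟨t', ht'⟩ := IntermediateField.mem_bot.1 h2
    refine ⟨t * t', inj ?_⟩
    rw [map_pow, map_mul, map_mul, ← hx, ← hx', ht, ht']
    ring
  · have hint : IsIntegral K x := ⟨Polynomial.X ^ 2 - Polynomial.C c,
      Polynomial.monic_X_pow_sub_C c two_ne_zero, by
        rw [Polynomial.eval₂_sub, Polynomial.eval₂_X_pow, Polynomial.eval₂_C, hx, sub_self]⟩
    have h2 : x' ∈ K⟮x⟯ := by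
      rw [h]
      exact mem_adjoin_simple_self K x'
    obtain ⟨a, b, hab⟩ : ∃ a b : K, x' = algebraMap K F a + algebraMap K F b * x := by
      have hmon : (Polynomial.X ^ 2 - Polynomial.C c : Polynomial K).Monic :=
        Polynomial.monic_X_pow_sub_C c two_ne_zero
      rw [← IntermediateField.mem_toSubalgebra,
        IntermediateField.adjoin_simple_toSubalgebra_of_isAlgebraic hint.isAlgebraic,
        Algebra.adjoin_singleton_eq_range_aeval] at h2
      obtain ⟨p, hp⟩ := h2
      obtain ⟨r, hr⟩ : ∃ r, r = p %ₘ (Polynomial.X ^ 2 - Polynomial.C c) := ⟨_, rfl⟩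
      have hdeg : r.natDegree < 2 := by
        have h1 := Polynomial.natDegree_modByMonic_lt p hmon (by
          intro h
          have h2 := congrArg Polynomial.natDegree h
          rw [Polynomial.natDegree_X_pow_sub_C, Polynomial.natDegree_one] at h2
          exact absurd h2 (by norm_num))
        rwa [Polynomial.natDegree_X_pow_sub_C, ← hr] at h1
      have h2 : Polynomial.aeval x p = Polynomial.aeval x r := by
        have h3 := Polynomial.modByMonic_add_div p (Polynomial.X ^ 2 - Polynomial.C c)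
        rw [← hr] at h3
        rw [← h3, map_add, map_mul]
        have h4 : Polynomial.aeval x (Polynomial.X ^ 2 - Polynomial.C c : Polynomial K) = 0 := by
          rw [map_sub, map_pow, Polynomial.aeval_X, Polynomial.aeval_C, hx, sub_self]
        rw [h4, zero_mul, add_zero]
      refine ⟨r.coeff 0, r.coeff 1, ?_⟩
      have h5 : x' = Polynomial.aeval x p := hp.symm
      rw [h5, h2, Polynomial.aeval_eq_sum_range' hdeg, Finset.sum_range_succ, Finset.sum_range_one,
        pow_zero, pow_one, Algebra.smul_def, Algebra.smul_def, mul_one]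
    have h3 : algebraMap K F (2 * a * b) * x = algebraMap K F (c' - a ^ 2 - b ^ 2 * c) := by
      have h4 := hx'
      rw [hab] at h4
      simp only [map_mul, map_sub, map_pow, map_ofNat]
      rw [← hx]
      linear_combination h4
    have h5 : 2 * a * b = 0 := by
      by_contra h0
      refine hK ⟨(c' - a ^ 2 - b ^ 2 * c) / (2 * a * b), ?_⟩
      have h6 : algebraMap K F (2 * a * b) ≠ 0 := fun h7 => h0 (inj (by rw [h7, map_zero]))
      rw [map_div₀, ← h3, mul_div_cancel_left₀ _ h6]
    have hb : b ≠ 0 := by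
      intro hb
      refine hK ?_
      have h6 : x ∈ K⟮x'⟯ := by
        rw [← h]
        exact mem_adjoin_simple_self K x
      have h7 : K⟮x'⟯ = ⊥ := by
        rw [adjoin_simple_eq_bot_iff, IntermediateField.mem_bot]
        exact ⟨a, by rw [hab, hb, map_zero, zero_mul, add_zero]⟩
      rw [h7] at h6
      exact IntermediateField.mem_bot.1 h6
    have ha : a = 0 := by
      rcases mul_eq_zero.1 h5 with h6 | h6
      · rcases mul_eq_zero.1 h6 with h7 | h7
        · exact absurd h7 two_ne_zero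
        · exact h7
      · exact absurd h6 hb
    refine ⟨b * c, inj ?_⟩
    rw [ha, map_zero, zero_add] at hab
    rw [map_pow, map_mul, map_mul, ← hx', hab, mul_pow, mul_pow, hx]
    ring

/-- **Finiteness.** -/
theorem fin_ex {K F : Type} [Field K] [NumberField K] [IsPrincipalIdealRing (𝓞 K)] [Finite (𝓞 K)ˣ]
    [Field F] [NumberField F] [Algebra K F] {δ : 𝓞 K} (hδ : δ ≠ 0) {β : F} (hβ : β ≠ 0) :
    {d : 𝓞 K | Squarefree d ∧ IsSquare (algebraMap K F ((δ : K) * (d : K)) * β)}.Finite := by
  classical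
  obtain ⟨S, hS⟩ : ∃ S, S =
    {d : 𝓞 K | Squarefree d ∧ IsSquare (algebraMap K F ((δ : K) * (d : K)) * β)} := ⟨_, rfl⟩
  rw [← hS]
  rcases S.eq_empty_or_nonempty with h0 | ⟨d₀, hd₀⟩
  · rw [h0]
    exact Set.finite_empty
  have hδ' : algebraMap K F (δ : K) ≠ 0 := by
    rw [Ne, map_eq_zero]
    exact_mod_cast hδ
  have hd₀' := hd₀
  rw [hS] at hd₀'
  obtain ⟨hsq₀, r₀, hr₀⟩ := hd₀'
  have hex : ∀ d ∈ S, ∃ x : F, x ^ 2 = algebraMap K F ((d : K) * (d₀ : K)) := by
    intro d hd
    rw [hS] at hd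
    obtain ⟨_, r, hr⟩ := hd
    refine ⟨r * r₀ / (algebraMap K F (δ : K) * β), ?_⟩
    rw [div_pow, div_eq_iff (pow_ne_zero 2 (mul_ne_zero hδ' hβ))]
    have e : (r * r₀) ^ 2 = (r * r) * (r₀ * r₀) := by ring
    rw [e, ← hr, ← hr₀]
    simp only [map_mul]
    ring
  choose! x hx using hex
  have hfin : Finite (IntermediateField K F) := by
    have h1 : FiniteDimensional K F := FiniteDimensional.right ℚ K F
    exact Field.finite_intermediateField_of_exists_primitive_element K F
      (Field.exists_primitive_element K F)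
  refine Set.Finite.of_finite_fibers (fun d => K⟮x d⟯) (Set.toFinite _) ?_
  rintro E ⟨d₁, hd₁, hE⟩
  have hsub : S ∩ (fun d => K⟮x d⟯) ⁻¹' {E} ⊆ Set.range fun w : (𝓞 K)ˣ => d₁ * (w : 𝓞 K) := by
    rintro d ⟨hd, hdE⟩
    have h1 : K⟮x d₁⟯ = K⟮x d⟯ := by
      rw [Set.mem_preimage, Set.mem_singleton_iff] at hdE
      exact hE.trans hdE.symm
    have hq₁ : Squarefree d₁ := by
      rw [hS] at hd₁
      exact hd₁.1
    have hq : Squarefree d := by
      rw [hS] at hd
      exact hd.1
    have n₀ : (d₀ : K) ≠ 0 := by exact_mod_cast hsq₀.ne_zero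
    obtain ⟨w, hw⟩ := sq_of_adjoin (hx d₁ hd₁) (hx d hd) h1
    have h2 : Associated d₁ d := by
      refine assoc_of_sq hq₁ hq (z := w / (d₀ : K)) ?_
      rw [div_pow, hw, div_eq_iff (pow_ne_zero 2 n₀)]
      ring
    obtain ⟨v, hv⟩ := h2
    exact ⟨v, hv⟩
  exact (Set.finite_range _).subset hsub

end Pool.Agent.Lib.MP_1a91b9_ntC
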