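import Mathlib

/-!
# MP_1a91b9_nt (Diophantine stability): infinitely many squarefree elements in a class
-/

set_option autoImplicit false

namespace Pool.Agent.Lib.MP_1a91b9_ntC

open NumberField

/-- a prime factor of each rational prime -/
theorem inf_pf {K : Type} [Field K] [NumberField K] [IsPrincipalIdealRing (𝓞 K)] :
    ∃ f : ℕ → 𝓞 K, ∀ p : ℕ, p.Prime → Prime (f p) ∧ f p ∣ (p : 𝓞 K) := by
  have h : ∀ p : ℕ, ∃ x : 𝓞 K, p.Prime → Prime x ∧ x ∣ (p : 𝓞 K) := by
    intro p
    by_cases hp : p.Prime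
    · have h1 : (p : 𝓞 K) ≠ 0 := by exact_mod_cast hp.ne_zero
      have h2 : ¬ IsUnit (p : 𝓞 K) := by
        intro hu
        have h3 := (NumberField.isUnit_iff_norm (K := K) (x := (p : 𝓞 K))).1 hu
        have h4 : (RingOfIntegers.norm ℚ (p : 𝓞 K) : ℚ) = (p : ℚ) ^ Module.finrank ℚ K := by
          rw [RingOfIntegers.coe_norm]
          have h5 : ((p : 𝓞 K) : K) = algebraMap ℚ K (p : ℚ) := by simp
          rw [h5, Algebra.norm_algebraMap]
        rw [h4] at h3
        have h6 : 1 < (p : ℚ) ^ Module.finrank ℚ K :=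
          one_lt_pow₀ (by exact_mod_cast hp.one_lt) Module.finrank_pos.ne'
        rw [abs_of_pos (by linarith)] at h3
        linarith
      obtain ⟨x, hx, hd⟩ := WfDvdMonoid.exists_irreducible_factor h2 h1
      exact ⟨x, fun _ => ⟨hx.prime, hd⟩⟩
    · exact ⟨0, fun h => absurd h hp⟩
  choose f hf using h
  exact ⟨f, hf⟩

theorem inf_ne {K : Type} [Field K] [NumberField K] {f : ℕ → 𝓞 K}
    (hf : ∀ p : ℕ, p.Prime → Prime (f p) ∧ f p ∣ (p : 𝓞 K)) {p q : ℕ} (hp : p.Prime) (hq : q.Prime)
    (hpq : p ≠ q) : IsCoprime (f p) (f q) := by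
  have h1 : IsCoprime ((p : ℤ)) ((q : ℤ)) := by
    rw [Nat.isCoprime_iff_coprime]
    exact (Nat.coprime_primes hp hq).2 hpq
  have h2 : IsCoprime (p : 𝓞 K) (q : 𝓞 K) := by
    have := h1.map (Int.castRingHom (𝓞 K))
    simpa using this
  exact (h2.of_isCoprime_of_dvd_left (hf p hp).2).of_isCoprime_of_dvd_right (hf q hq).2

/-- **Infinitely many squarefree elements in the class of a squarefree element.** -/
theorem inf_sf {K : Type} [Field K] [NumberField K] [IsPrincipalIdealRing (𝓞 K)] {m u d₀ : 𝓞 K}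
    (hm : m ≠ 0) (h0 : Squarefree d₀) (h1 : m ∣ d₀ - u) :
    {d : 𝓞 K | Squarefree d ∧ m ∣ d - u}.Infinite := by
  classical
  obtain ⟨f, hf⟩ := inf_pf (K := K)
  have hmd : m * d₀ ≠ 0 := mul_ne_zero hm h0.ne_zero
  -- the rational primes whose factor divides `m d₀` are finitely many
  have hfin : {p : ℕ | p.Prime ∧ f p ∣ m * d₀}.Finite := by
    have hI : Ideal.span {m * d₀} ≠ (0 : Ideal (𝓞 K)) := by
      rw [Ideal.zero_eq_bot, Ne, Ideal.span_singleton_eq_bot]
      exact hmd
    have hF := Ideal.finite_factors hI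
    let g : {p : ℕ // p.Prime ∧ f p ∣ m * d₀} →
        {v : IsDedekindDomain.HeightOneSpectrum (𝓞 K) | v.asIdeal ∣ Ideal.span {m * d₀}} := fun p =>
      ⟨⟨Ideal.span {f p.1}, (Ideal.span_singleton_prime (hf p.1 p.2.1).1.ne_zero).2 (hf p.1 p.2.1).1, by
        rw [Ne, Ideal.span_singleton_eq_bot]
        exact (hf p.1 p.2.1).1.ne_zero⟩, by
        show Ideal.span {f p.1} ∣ Ideal.span {m * d₀}
        rw [Ideal.dvd_span_singleton, Ideal.mem_span_singleton]
        exact p.2.2⟩
    have hg : Function.Injective g := by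
      intro p q hpq
      have h2 : Ideal.span {f p.1} = Ideal.span {f q.1} := by
        have := congrArg (fun v => v.1.asIdeal) hpq
        exact this
      by_contra hne
      have h3 : p.1 ≠ q.1 := fun h => hne (Subtype.ext h)
      have h4 := inf_ne hf p.2.1 q.2.1 h3
      rw [Ideal.span_singleton_eq_span_singleton] at h2
      have h5 : IsUnit (f p.1) := h4.isUnit_of_dvd' dvd_rfl h2.dvd
      exact (hf p.1 p.2.1).1.not_isUnit h5
    have := hF.to_subtype
    have h6 : Finite {p : ℕ // p.Prime ∧ f p ∣ m * d₀} := Finite.of_injective g hg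
    exact Set.finite_coe_iff.1 h6
  have hinf : {p : ℕ | p.Prime ∧ ¬ f p ∣ m * d₀}.Infinite := by
    have h2 : {p : ℕ | p.Prime ∧ ¬ f p ∣ m * d₀} = {p : ℕ | p.Prime} \ {p : ℕ | p.Prime ∧ f p ∣ m * d₀} := by
      ext p
      simp only [Set.mem_ofPred_eq, Set.mem_sdiff, not_and]
      constructor
      · rintro ⟨h3, h4⟩
        exact ⟨h3, fun _ => h4⟩
      · rintro ⟨h3, h4⟩
        exact ⟨h3, h4 h3⟩
    rw [h2]
    exact Nat.infinite_setOfPred_prime.sdiff hfin
  -- the finite ring
  have hmI : Ideal.span {m} ≠ (⊥ : Ideal (𝓞 K)) := by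
    rw [Ne, Ideal.span_singleton_eq_bot]
    exact hm
  have : Finite (𝓞 K ⧸ Ideal.span {m}) := Ideal.finiteQuotientOfFreeOfNeBot _ hmI
  have := hinf.to_subtype
  obtain ⟨c, hc⟩ := Finite.exists_infinite_fiber
    (fun p : {p : ℕ | p.Prime ∧ ¬ f p ∣ m * d₀} => Ideal.Quotient.mk (Ideal.span {m}) (f p.1))
  -- `c` is a unit
  have hcu : IsUnit c := by
    obtain ⟨p, hp⟩ := hc.nonempty
    have h2 : IsCoprime (f p.1) m := by
      refine ((hf p.1 p.2.1).1.irreducible.coprime_iff_not_dvd).2 fun h => ?_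
      exact p.2.2 (h.mul_right _)
    obtain ⟨a, b, hab⟩ := h2
    have h3 : Ideal.Quotient.mk (Ideal.span {m}) a * c = 1 := by
      rw [← hp]
      show Ideal.Quotient.mk (Ideal.span {m}) a * Ideal.Quotient.mk (Ideal.span {m}) (f p.1) = 1
      rw [← map_mul, ← map_one (Ideal.Quotient.mk (Ideal.span {m})), Ideal.Quotient.eq,
        Ideal.mem_span_singleton]
      exact ⟨-b, by linear_combination hab⟩
    exact IsUnit.of_mul_eq_one _ (by rw [mul_comm]; exact h3)
  obtain ⟨cu, rfl⟩ := hcu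
  have : Fintype (𝓞 K ⧸ Ideal.span {m})ˣ := Fintype.ofFinite _
  set h := Fintype.card (𝓞 K ⧸ Ideal.span {m})ˣ with hh
  have hpos : 0 < h := Fintype.card_pos
  let e := Infinite.natEmbedding ((fun p : {p : ℕ | p.Prime ∧ ¬ f p ∣ m * d₀} =>
    Ideal.Quotient.mk (Ideal.span {m}) (f p.1)) ⁻¹' {(cu : 𝓞 K ⧸ Ideal.span {m})})
  let w : ℕ → ℕ := fun i => (e i).1.1
  have hw : Function.Injective w := fun i j hij => e.injective (Subtype.ext (Subtype.ext hij))
  have hwp : ∀ i, (w i).Prime := fun i => (e i).1.2.1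
  have hwd : ∀ i, ¬ f (w i) ∣ m * d₀ := fun i => (e i).1.2.2
  have hwc : ∀ i, Ideal.Quotient.mk (Ideal.span {m}) (f (w i)) = (cu : 𝓞 K ⧸ Ideal.span {m}) :=
    fun i => (e i).2
  have hpr : ∀ i, Prime (f (w i)) := fun i => (hf _ (hwp i)).1
  have hcop : ∀ i j, i ≠ j → IsCoprime (f (w i)) (f (w j)) := fun i j hij =>
    inf_ne hf (hwp i) (hwp j) fun h => hij (hw h)
  let z : ℕ → 𝓞 K := fun k => ∏ i ∈ Finset.range h, f (w (k * h + i))
  have hz : ∀ k, Squarefree (d₀ * z k) ∧ m ∣ d₀ * z k - u := by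
    intro k
    constructor
    · rw [squarefree_mul_iff]
      refine ⟨?_, h0, ?_⟩
      · refine IsCoprime.isRelPrime ?_
        refine IsCoprime.prod_right fun i _ => ?_
        refine IsCoprime.symm ?_
        refine ((hpr (k * h + i)).irreducible.coprime_iff_not_dvd).2 fun h2 => ?_
        exact hwd _ (h2.mul_left _)
      · refine Finset.squarefree_prod_of_pairwise_isCoprime ?_ ?_
        · intro i _ j _ hij
          refine IsCoprime.isRelPrime (hcop _ _ ?_)
          intro h2
          exact hij (by omega)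
        · intro i _
          exact (hpr _).squarefree
    · have h2 : Ideal.Quotient.mk (Ideal.span {m}) (z k) = 1 := by
        show Ideal.Quotient.mk (Ideal.span {m}) (∏ i ∈ Finset.range h, f (w (k * h + i))) = 1
        rw [map_prod, Finset.prod_congr rfl fun i _ => hwc _, Finset.prod_const, Finset.card_range,
          ← Units.val_pow_eq_pow_val, pow_card_eq_one, Units.val_one]
      rw [← Ideal.mem_span_singleton, ← Ideal.Quotient.eq, map_mul, h2, mul_one, Ideal.Quotient.eq,
        Ideal.mem_span_singleton]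
      exact h1
  have hzi : Function.Injective fun k => d₀ * z k := by
    intro j k hjk
    by_contra hne
    have h2 : f (w (j * h + 0)) ∣ d₀ * z k := by
      have h3 : d₀ * z j = d₀ * z k := hjk
      rw [← h3]
      refine Dvd.dvd.mul_left ?_ _
      exact Finset.dvd_prod_of_mem _ (Finset.mem_range.2 hpos)
    rcases (hpr _).dvd_or_dvd h2 with h3 | h3
    · exact hwd _ (h3.mul_left _)
    · rw [Prime.dvd_finsetProd_iff (hpr _)] at h3
      obtain ⟨i, hi, h4⟩ := h3
      have h5 : j * h + 0 ≠ k * h + i := by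
        intro h6
        rw [Finset.mem_range] at hi
        apply hne
        have h7 : (j * h + 0) / h = (k * h + i) / h := by rw [h6]
        rw [add_zero, Nat.mul_div_cancel _ hpos, mul_comm k h, Nat.mul_add_div hpos,
          Nat.div_eq_of_lt hi, add_zero] at h7
        exact h7
      have h6 := hcop _ _ h5
      exact (hpr _).not_isUnit (h6.isUnit_of_dvd' dvd_rfl h4)
  exact Set.infinite_of_injective_forall_mem hzi hz

end Pool.Agent.Lib.MP_1a91b9_ntC
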