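import Mathlib

/-!
# MP_1a91b9_nt (Diophantine stability): the abscissae in `F` of torsion points over extensions of `F`

`tors_x`: for `y² = x³ + a x² + b x` over the number field `F` there are only finitely many `x` in `F` which are
the abscissa of a torsion point over some extension `F'` of `F`.
-/

set_option autoImplicit false

namespace Pool.Agent.Lib.MP_1a91b9_ntC

open WeierstrassCurve Height

section
variable {F : Type} [Field F]

/-- the duplication map on abscissae -/
noncomputable def dupX (a b x : F) : F := (x ^ 2 - b) ^ 2 / (4 * (x ^ 3 + a * x ^ 2 + b * x))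

theorem dup_point [CharZero F] [DecidableEq F] {a b x y : F}
    (h : (⟨0, a, 0, b, 0⟩ : WeierstrassCurve F).toAffine.Nonsingular x y)
    (h0 : x ^ 3 + a * x ^ 2 + b * x ≠ 0) :
    ∃ (y' : F) (h' : (⟨0, a, 0, b, 0⟩ : WeierstrassCurve F).toAffine.Nonsingular (dupX a b x) y'),
      (2 : ℕ) • Affine.Point.some x y h = Affine.Point.some (dupX a b x) y' h' := by
  have heq : y ^ 2 = x ^ 3 + a * x ^ 2 + b * x := by
    have h1 := h.1
    rw [Affine.equation_iff] at h1
    simp only [zero_mul, add_zero] at h1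
    exact h1
  have hy : y ≠ 0 := by
    rintro rfl
    apply h0
    rw [← heq]
    ring
  have hneg : (⟨0, a, 0, b, 0⟩ : WeierstrassCurve F).toAffine.negY x y = -y := by
    simp [Affine.negY]
  have hne : y ≠ (⟨0, a, 0, b, 0⟩ : WeierstrassCurve F).toAffine.negY x y := by
    rw [hneg]
    intro h2
    apply hy
    have h3 : (2 : F) * y = 0 := by linear_combination h2
    exact (mul_eq_zero.1 h3).resolve_left two_ne_zero
  have hs := Affine.Point.add_self_of_Y_ne (h₁ := h) hne
  have hx : (⟨0, a, 0, b, 0⟩ : WeierstrassCurve F).toAffine.addX x x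
      ((⟨0, a, 0, b, 0⟩ : WeierstrassCurve F).toAffine.slope x x y y) = dupX a b x := by
    rw [Affine.slope_of_Y_ne rfl hne, hneg]
    simp only [Affine.addX, dupX]
    rw [← heq]
    have key : (3 * x ^ 2 + 2 * a * x + b) ^ 2 - 4 * (a + 2 * x) * y ^ 2 = (x ^ 2 - b) ^ 2 := by
      rw [heq]
      ring
    have h5 : y - -y = 2 * y := by ring
    rw [h5, ← key]
    field_simp
    ring
  have hn := Affine.nonsingular_add h h (fun hxy => hne hxy.2)
  rw [hx] at hn
  refine ⟨_, hn, ?_⟩
  rw [two_nsmul, hs]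
  congr 1

end

section
variable {F : Type} [Field F] [NumberField F]

theorem height_dup {a b : F} (hE : b * (a ^ 2 - 4 * b) ≠ 0) : ∃ C : ℝ, ∀ x : F,
    x ^ 3 + a * x ^ 2 + b * x ≠ 0 → 4 * logHeight₁ x - C ≤ logHeight₁ (dupX a b x) := by
  have hell : (⟨0, a, 0, b, 0⟩ : WeierstrassCurve F).IsElliptic := by
    refine ⟨isUnit_iff_ne_zero.2 ?_⟩
    have e : (⟨0, a, 0, b, 0⟩ : WeierstrassCurve F).Δ = 16 * (b * (b * (a ^ 2 - 4 * b))) := by
      simp only [WeierstrassCurve.Δ, WeierstrassCurve.b₂, WeierstrassCurve.b₄,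
        WeierstrassCurve.b₆, WeierstrassCurve.b₈]
      ring
    rw [e]
    exact mul_ne_zero (by norm_num) (mul_ne_zero (left_ne_zero_of_mul hE) hE)
  obtain ⟨C, hC⟩ := abs_logHeight_addSubMap_sub_two_mul_logHeight_le
    (⟨0, a, 0, b, 0⟩ : WeierstrassCurve F)
  refine ⟨C, fun x hx => ?_⟩
  have h1 := (abs_le.1 (hC ![x ^ 2, 2 * x, 1])).1
  have e1 : (fun i => (addSubMap (⟨0, a, 0, b, 0⟩ : WeierstrassCurve F) i).eval
      ![x ^ 2, 2 * x, 1]) = ![(x ^ 2 - b) ^ 2, 4 * (x ^ 3 + a * x ^ 2 + b * x), 0] := by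
    funext i
    fin_cases i
    · simp [addSubMap, WeierstrassCurve.b₂, WeierstrassCurve.b₄,
        WeierstrassCurve.b₆, WeierstrassCurve.b₈]
      ring
    · simp [addSubMap, WeierstrassCurve.b₂, WeierstrassCurve.b₄,
        WeierstrassCurve.b₆, WeierstrassCurve.b₈]
      ring
    · simp [addSubMap, WeierstrassCurve.b₂, WeierstrassCurve.b₄,
        WeierstrassCurve.b₆, WeierstrassCurve.b₈]
      ring
  rw [e1] at h1
  have e2 : logHeight ![(x ^ 2 - b) ^ 2, 4 * (x ^ 3 + a * x ^ 2 + b * x), 0] =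
      logHeight₁ (dupX a b x) := by
    rw [dupX, logHeight₁_div_eq_logHeight]
    exact logHeight_cons_cons_cons_zero _ _ _
  rw [e2] at h1
  have e3 : 2 * logHeight₁ x ≤ logHeight ![x ^ 2, 2 * x, 1] := by
    have h2 := logHeight₁_pow x 2
    have h3 := logHeight_comp_le (![0, 2] : Fin 2 → Fin 3) ![x ^ 2, 2 * x, 1]
    have e4 : (![x ^ 2, 2 * x, 1] ∘ (![0, 2] : Fin 2 → Fin 3) : Fin 2 → F) = ![x ^ 2, 1] := by
      funext i
      fin_cases i <;> rfl
    rw [e4, ← logHeight₁_eq_logHeight, h2] at h3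
    exact_mod_cast h3
  linarith

theorem tors_x {F : Type} [Field F] [NumberField F] {a b : F} (hE : b * (a ^ 2 - 4 * b) ≠ 0) :
    ∃ X : Finset F, ∀ (F' : Type) [Field F'] [NumberField F'] [DecidableEq F'] [Algebra F F']
      (x : F) (y : F')
      (h : (⟨0, algebraMap F F' a, 0, algebraMap F F' b, 0⟩ :
        WeierstrassCurve F').toAffine.Nonsingular (algebraMap F F' x) y),
      IsOfFinAddOrder (Affine.Point.some _ _ h) → x ∈ X := by
  classical
  obtain ⟨C, hC⟩ := height_dup hE
  have hroots : {x : F | x ^ 3 + a * x ^ 2 + b * x = 0}.Finite := by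
    obtain ⟨p, hp⟩ : ∃ p : Polynomial F, p = Polynomial.X ^ 3 + Polynomial.C a * Polynomial.X ^ 2 +
        Polynomial.C b * Polynomial.X := ⟨_, rfl⟩
    have hp0 : p ≠ 0 := by
      intro h
      have h1 : p.coeff 3 = 1 := by
        rw [hp]
        simp
      rw [h] at h1
      simp at h1
    refine (p.roots.toFinset.finite_toSet).subset fun x hx => ?_
    have hx' : x ^ 3 + a * x ^ 2 + b * x = 0 := hx
    simp only [Multiset.mem_toFinset, Finset.mem_coe]
    rw [Polynomial.mem_roots hp0, Polynomial.IsRoot.def, hp]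
    simp only [Polynomial.eval_add, Polynomial.eval_mul, Polynomial.eval_pow, Polynomial.eval_X,
      Polynomial.eval_C]
    exact hx'
  obtain ⟨B, hB⟩ : ∃ B : ℝ, ∀ x ∈ hroots.toFinset, logHeight₁ x ≤ B := by
    obtain ⟨B, hB⟩ := (hroots.toFinset.image (fun x => logHeight₁ x)).bddAbove
    exact ⟨B, fun x hx => hB (Finset.mem_coe.2 (Finset.mem_image_of_mem _ hx))⟩
  obtain ⟨M, hM⟩ : ∃ M : ℝ, M = max (max C 0) B := ⟨_, rfl⟩
  have hMC : C ≤ M := by
    rw [hM]
    exact (le_max_left _ _).trans (le_max_left _ _)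
  have hM0 : 0 ≤ M := by
    rw [hM]
    exact (le_max_right _ _).trans (le_max_left _ _)
  have hMB : B ≤ M := by
    rw [hM]
    exact le_max_right _ _
  have hfin : {x : F | logHeight₁ x ≤ M}.Finite := NumberField.finite_setOfPred_logHeight₁_le F M
  refine ⟨hfin.toFinset, ?_⟩
  intro F' _ _ _ _ x y h htor
  rw [Set.Finite.mem_toFinset]
  show logHeight₁ x ≤ M
  by_contra hlt
  rw [not_le] at hlt
  -- one step
  have hstep : ∀ z : F, M < logHeight₁ z → z ^ 3 + a * z ^ 2 + b * z ≠ 0 ∧
      logHeight₁ z < logHeight₁ (dupX a b z) := by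
    intro z hz
    have h1 : z ^ 3 + a * z ^ 2 + b * z ≠ 0 := by
      intro h1
      have h2 := hB z (by
        rw [Set.Finite.mem_toFinset]
        exact h1)
      linarith
    refine ⟨h1, ?_⟩
    have h2 := hC z h1
    linarith
  obtain ⟨u, hu⟩ : ∃ u : ℕ → F, u = fun k => (dupX a b)^[k] x := ⟨_, rfl⟩
  have hu0 : u 0 = x := by
    rw [hu]
    rfl
  have hus : ∀ k, u (k + 1) = dupX a b (u k) := by
    intro k
    rw [hu]
    exact Function.iterate_succ_apply' _ _ _
  have hgt : ∀ k, M < logHeight₁ (u k) := by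
    intro k
    induction k with
    | zero =>
      rw [hu0]
      exact hlt
    | succ k ih =>
      rw [hus]
      exact ih.trans (hstep _ ih).2
  have hmono : StrictMono fun k => logHeight₁ (u k) := by
    refine strictMono_nat_of_lt_succ fun k => ?_
    rw [hus]
    exact (hstep _ (hgt k)).2
  have hpt : ∀ k, ∃ (y' : F') (h' : (⟨0, algebraMap F F' a, 0, algebraMap F F' b, 0⟩ :
      WeierstrassCurve F').toAffine.Nonsingular (algebraMap F F' (u k)) y'),
      (2 ^ k : ℕ) • Affine.Point.some _ _ h = Affine.Point.some _ _ h' := by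
    intro k
    induction k with
    | zero =>
      rw [hu0]
      exact ⟨y, h, by rw [pow_zero, one_nsmul]⟩
    | succ k ih =>
      obtain ⟨y', h', e⟩ := ih
      have h0 : (algebraMap F F' (u k)) ^ 3 + algebraMap F F' a * (algebraMap F F' (u k)) ^ 2 +
          algebraMap F F' b * algebraMap F F' (u k) ≠ 0 := by
        have h1 := (hstep _ (hgt k)).1
        intro h2
        apply h1
        apply (algebraMap F F').injective
        rw [map_zero, map_add, map_add, map_mul, map_mul, map_pow, map_pow]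
        exact h2
      obtain ⟨y'', h'', e''⟩ := dup_point h' h0
      have e3 : dupX (algebraMap F F' a) (algebraMap F F' b) (algebraMap F F' (u k)) =
          algebraMap F F' (u (k + 1)) := by
        rw [hus, dupX, dupX]
        simp only [map_div₀, map_pow, map_sub, map_mul, map_add, map_ofNat]
      rw [pow_succ, mul_comm, mul_smul, e, e'']
      refine ⟨y'', e3 ▸ h'', ?_⟩
      congr 1
  have hfinm := finite_multiples.2 htor
  have hinj : Function.Injective fun k : ℕ => (2 ^ k : ℕ) • Affine.Point.some _ _ h := by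
    intro k l hkl
    obtain ⟨y1, h1, e1⟩ := hpt k
    obtain ⟨y2, h2, e2⟩ := hpt l
    have h3 : Affine.Point.some _ _ h1 = Affine.Point.some _ _ h2 := by
      rw [← e1, ← e2]
      exact hkl
    have h4 := (Affine.Point.some.inj h3).1
    have h5 := (algebraMap F F').injective h4
    exact hmono.injective (congrArg logHeight₁ h5)
  have hmem : ∀ k : ℕ, (2 ^ k : ℕ) • Affine.Point.some _ _ h ∈
      (AddSubmonoid.multiples (Affine.Point.some _ _ h) : Set _) := fun k =>
    (AddSubmonoid.mem_multiples_iff _ _).2 ⟨2 ^ k, rfl⟩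
  exact Set.infinite_of_injective_forall_mem hinj hmem hfinm

end

end Pool.Agent.Lib.MP_1a91b9_ntC
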