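import Pool.Agent.Lib.MP_17a322_nt.VJ.MW4
import Pool.Agent.Lib.MP_1a91b9_ntC.Tx

/-!
# MP_1a91b9_nt (Diophantine stability): no new points over a quadratic extension

`F' = F(√α)`, the twist of `E : y² = x³ + a x² + b x` by `α` has finitely many points over `F`, and `α` is not in
finitely many classes of `F* / F*²`: then `E(F') = E(F)`.
-/

set_option autoImplicit false

namespace Pool.Agent.Lib.MP_1a91b9_ntC

open WeierstrassCurve

section two

variable {L : Type} [Field L] [DecidableEq L]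

/-- `y = 0` at the points of order two of a curve with `a₁ = a₃ = 0` -/
theorem nn_two_y [CharZero L] {V : WeierstrassCurve L} (h1 : V.a₁ = 0) (h3 : V.a₃ = 0) {x y : L}
    (h : V.toAffine.Nonsingular x y) (h2 : 2 • (Affine.Point.some x y h) = 0) : y = 0 := by
  rw [two_nsmul, add_eq_zero_iff_eq_neg, Affine.Point.neg_some, Affine.Point.some.injEq] at h2
  have h4 := h2.2
  rw [Affine.negY] at h4
  have h5 : V.toAffine.a₁ = 0 := h1
  have h6 : V.toAffine.a₃ = 0 := h3
  rw [h5, h6] at h4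
  have h7 : (2 : L) * y = 0 := by linear_combination h4
  exact (mul_eq_zero.1 h7).resolve_left two_ne_zero

/-- the points of order two are finitely many -/
theorem nn_two_fin [CharZero L] (V : WeierstrassCurve L) (h1 : V.a₁ = 0) (h3 : V.a₃ = 0) :
    {P : V.toAffine.Point | 2 • P = 0}.Finite := by
  classical
  let p : Polynomial L := Polynomial.X ^ 3 + Polynomial.C V.a₂ * Polynomial.X ^ 2 +
    Polynomial.C V.a₄ * Polynomial.X + Polynomial.C V.a₆
  have hp : p ≠ 0 := by
    intro h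
    have h2 : p.coeff 3 = 0 := by rw [h, Polynomial.coeff_zero]
    simp [p] at h2
  let g : V.toAffine.Point → Option L := fun P => match P with
    | .zero => none
    | .some x _ _ => some x
  refine Set.Finite.of_finite_image (f := g) ?_ ?_
  · refine Set.Finite.subset ((Set.finite_singleton none).union
      ((p.rootSet_finite L).image some)) ?_
    rintro _ ⟨P, hP, rfl⟩
    rcases P with _ | ⟨x, y, h⟩
    · exact Or.inl rfl
    · right
      refine ⟨x, ?_, rfl⟩
      have hy := nn_two_y h1 h3 h hP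
      rw [Polynomial.mem_rootSet]
      refine ⟨hp, ?_⟩
      have h4 := h.1
      rw [Affine.equation_iff] at h4
      have h5 : V.toAffine.a₁ = 0 := h1
      have h6 : V.toAffine.a₃ = 0 := h3
      rw [h5, h6, hy] at h4
      simp only [p, map_add, map_mul, map_pow, Polynomial.aeval_X, Polynomial.aeval_C,
        Algebra.algebraMap_self, RingHom.id_apply]
      have h7 : V.toAffine.a₂ = V.a₂ := rfl
      have h8 : V.toAffine.a₄ = V.a₄ := rfl
      have h9 : V.toAffine.a₆ = V.a₆ := rfl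
      rw [h7, h8, h9] at h4
      linear_combination -h4
  · rintro (_ | ⟨x, y, h⟩) hP (_ | ⟨x', y', h'⟩) hP' hh
    · rfl
    · exact absurd hh (by simp [g])
    · exact absurd hh (by simp [g])
    · have h4 : x = x' := by simpa [g] using hh
      have h5 := nn_two_y h1 h3 h hP
      have h6 := nn_two_y h1 h3 h' hP'
      rw [Affine.Point.some.injEq]
      exact ⟨h4, by rw [h5, h6]⟩

/-- the halves of a point are finitely many -/
theorem nn_half_fin [CharZero L] (V : WeierstrassCurve L) (h1 : V.a₁ = 0) (h3 : V.a₃ = 0)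
    (R : V.toAffine.Point) : {P : V.toAffine.Point | 2 • P = R}.Finite := by
  rcases Set.eq_empty_or_nonempty {P : V.toAffine.Point | 2 • P = R} with h | ⟨P₀, h0⟩
  · rw [h]
    exact Set.finite_empty
  · refine Set.Finite.of_finite_image (f := fun P => P - P₀) ?_ ?_
    · refine (nn_two_fin V h1 h3).subset ?_
      rintro _ ⟨P, hP, rfl⟩
      have h0' : 2 • P₀ = R := h0
      have hP' : 2 • P = R := hP
      show 2 • (P - P₀) = 0
      rw [smul_sub, hP', h0', sub_self]
    · intro P _ Q _ h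
      exact sub_left_injective h

/-- finitely many classes modulo `2` -/
theorem nn_reps {A : Type} [AddCommGroup A] (hA : AddGroup.FG A) :
    ∃ s : Set A, s.Finite ∧ ∀ x : A, ∃ r ∈ s, ∃ y : A, x = r + 2 • y := by
  have h1 : Module.Finite ℤ A := Module.Finite.iff_addGroup_fg.2 hA
  let N : Submodule ℤ A := LinearMap.range (LinearMap.lsmul ℤ A 2)
  have h2 : Finite (A ⧸ N) := by
    refine Module.finite_of_fg_torsion _ ?_
    intro x
    refine ⟨⟨2, mem_nonZeroDivisors_of_ne_zero two_ne_zero⟩, ?_⟩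
    induction x using Submodule.Quotient.induction_on with
    | H x =>
      show (2 : ℤ) • (Submodule.Quotient.mk x : A ⧸ N) = 0
      rw [← Submodule.Quotient.mk_smul, Submodule.Quotient.mk_eq_zero]
      exact ⟨x, rfl⟩
  refine ⟨Set.range fun q : A ⧸ N => q.out, Set.finite_range _, fun x => ?_⟩
  refine ⟨_, ⟨Submodule.Quotient.mk x, rfl⟩, ?_⟩
  have h3 : (Submodule.Quotient.mk x : A ⧸ N) =
      Submodule.Quotient.mk (Submodule.Quotient.mk x : A ⧸ N).out := by
    exact (Quotient.out_eq _).symm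
  rw [Submodule.Quotient.eq] at h3
  obtain ⟨y, hy⟩ := h3
  refine ⟨y, ?_⟩
  have hy' : (2 : ℤ) • y = x - (Submodule.Quotient.mk x : A ⧸ N).out := hy
  have h4 : 2 • y = x - (Submodule.Quotient.mk x : A ⧸ N).out := by
    rw [← hy', two_nsmul, two_zsmul]
  rw [h4]
  abel

end two

/-- the automorphism of a quadratic extension -/
theorem nn_auto {F F' : Type} [Field F] [NumberField F] [Field F'] [NumberField F'] [Algebra F F']
    {α : F} {x : F'} (hx : x ^ 2 = algebraMap F F' α)
    (hxF : ¬ ∃ y : F, algebraMap F F' y = x)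
    (hgen : ∀ z : F', ∃ b c : F, z = algebraMap F F' b + algebraMap F F' c * x) :
    ∃ σ : F' →ₐ[F] F', σ x = -x := by
  have h2 : Module.finrank F F' = 2 := by
    have hspan : Submodule.span F (Set.range ![(1 : F'), x]) = ⊤ := by
      rw [eq_top_iff]
      intro z _
      obtain ⟨b, c, rfl⟩ := hgen z
      rw [← Algebra.smul_def, Algebra.algebraMap_eq_smul_one]
      refine Submodule.add_mem _ (Submodule.smul_mem _ _ (Submodule.subset_span ⟨0, rfl⟩))
        (Submodule.smul_mem _ _ (Submodule.subset_span ⟨1, rfl⟩))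
    have hli : LinearIndependent F ![(1 : F'), x] := by
      rw [LinearIndependent.pair_iff]
      intro s t hst
      have ht : t = 0 := by
        by_contra ht
        apply hxF
        refine ⟨-(t⁻¹ * s), ?_⟩
        rw [Algebra.smul_def, Algebra.smul_def, mul_one] at hst
        have ht' : algebraMap F F' t ≠ 0 := (_root_.map_ne_zero _).2 ht
        rw [map_neg, map_mul, map_inv₀]
        field_simp
        linear_combination -hst
      refine ⟨?_, ht⟩
      rw [ht, zero_smul, add_zero, Algebra.smul_def, mul_one] at hst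
      exact (map_eq_zero _).1 hst
    have h3 := Module.finrank_eq_card_basis (Module.Basis.mk hli (by rw [hspan]))
    rw [h3, Fintype.card_fin]
  have : Algebra.IsQuadraticExtension F F' := ⟨h2⟩
  have hgal : IsGalois F F' := inferInstance
  have h := (IsGalois.mem_range_algebraMap_iff_fixed (F := F) (E := F') x).not.mp (by
    rintro ⟨y, hy⟩
    exact hxF ⟨y, hy⟩)
  push Not at h
  obtain ⟨σ, hσ⟩ := h
  refine ⟨(σ : F' →ₐ[F] F'), ?_⟩
  have h4 : (σ x) ^ 2 = x ^ 2 := by
    rw [← map_pow, hx, AlgEquiv.commutes]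
  rcases sq_eq_sq_iff_eq_or_eq_neg.mp h4 with h5 | h5
  · exact absurd h5 hσ
  · exact h5

section main

variable {F : Type} [Field F] [NumberField F]

/-- the first coordinate -/
def nnX {L : Type} [Field L] {V : WeierstrassCurve L} (P : V.toAffine.Point) : L := match P with
  | .zero => 0
  | .some x _ _ => x

/-- the second coordinate -/
def nnY {L : Type} [Field L] {V : WeierstrassCurve L} (P : V.toAffine.Point) : L := match P with
  | .zero => 0
  | .some _ y _ => y

open Classical in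
/-- **No new points.** `X` contains the coordinates `x` in `F` of the torsion points over the extensions of `F`. -/
theorem nn_main (W : WeierstrassCurve F) (h1 : W.a₁ = 0) (h3 : W.a₃ = 0) (h6 : W.a₆ = 0)
    (hΔ : W.Δ ≠ 0) (X : Finset F)
    (hX : ∀ (F' : Type) [Field F'] [NumberField F'] [Algebra F F'] (x : F) (y : F')
      (h : (W.baseChange F').toAffine.Nonsingular (algebraMap F F' x) y),
      IsOfFinAddOrder (Affine.Point.some _ _ h) → x ∈ X) :
    ∃ B : Finset F, (∀ β ∈ B, β ≠ 0) ∧ ∀ (F' : Type) [Field F'] [NumberField F'] [Algebra F F']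
      (α : F) (ρ : F'), α ≠ 0 → ρ ^ 2 = algebraMap F F' α → (¬ ∃ y : F, algebraMap F F' y = ρ) →
      (∀ z : F', ∃ b c : F, z = algebraMap F F' b + algebraMap F F' c * ρ) →
      Finite (⟨0, α * W.a₂, 0, α ^ 2 * W.a₄, 0⟩ : WeierstrassCurve F).toAffine.Point →
      (∀ β ∈ B, ¬ IsSquare (α * β)) →
      ∀ P : (W.baseChange F').toAffine.Point, ∃ Q : (W.baseChange F).toAffine.Point,
        P = Affine.Point.map (W' := W) (Algebra.ofId F F') Q := by
  have hell : W.IsElliptic := ⟨isUnit_iff_ne_zero.2 hΔ⟩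
  have hellF : (W.baseChange F).IsElliptic :=
    inferInstanceAs (W.map (algebraMap F F)).IsElliptic
  -- representatives
  obtain ⟨s, hs, hrep⟩ := nn_reps (Pool.Agent.Lib.MP_17a322_nt.VJ.mordell_weil (W.baseChange F))
  -- the halves over the algebraic closure
  let Fb := AlgebraicClosure F
  have hb1 : (W.baseChange Fb).a₁ = 0 := by
    change algebraMap F Fb W.a₁ = 0
    rw [h1, map_zero]
  have hb3 : (W.baseChange Fb).a₃ = 0 := by
    change algebraMap F Fb W.a₃ = 0
    rw [h3, map_zero]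
  let Qs : Set (W.baseChange Fb).toAffine.Point :=
    ⋃ r ∈ s, {P | 2 • P = Affine.Point.map (W' := W) (Algebra.ofId F Fb) r}
  have hQs : Qs.Finite := hs.biUnion fun r _ => nn_half_fin _ hb1 hb3 _
  let C : Set Fb := (nnX '' Qs) ∪ (nnY '' Qs)
  have hC : C.Finite := (hQs.image _).union (hQs.image _)
  let D : Set Fb := (fun z : Fb × Fb => ((z.1 - z.2) / 2) ^ 2) '' (C ×ˢ C)
  have hD : D.Finite := (hC.prod hC).image _
  let B2 : Set F := {β : F | β ≠ 0 ∧ algebraMap F Fb β ∈ D}
  have hB2 : B2.Finite := by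
    refine Set.Finite.subset (hD.preimage ((algebraMap F Fb).injective.injOn)) ?_
    intro β hβ
    exact hβ.2
  let B1 : Set F := {β : F | β ≠ 0 ∧ ∃ x ∈ X, β = x ^ 3 + W.a₂ * x ^ 2 + W.a₄ * x}
  have hB1 : B1.Finite := by
    refine Set.Finite.subset (X.finite_toSet.image fun x => x ^ 3 + W.a₂ * x ^ 2 + W.a₄ * x) ?_
    rintro β ⟨_, x, hx, rfl⟩
    exact ⟨x, hx, rfl⟩
  refine ⟨(hB1.union hB2).toFinset, ?_, ?_⟩
  · intro β hβ
    rw [Set.Finite.mem_toFinset] at hβ
    rcases hβ with hβ | hβ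
    · exact hβ.1
    · exact hβ.1
  intro F' _ _ _ α ρ hα hρ hρF hgen hfin hB P
  have hB1' : ∀ β ∈ B1, ¬ IsSquare (α * β) := fun β hβ =>
    hB β (by rw [Set.Finite.mem_toFinset]; exact Or.inl hβ)
  have hB2' : ∀ β ∈ B2, ¬ IsSquare (α * β) := fun β hβ =>
    hB β (by rw [Set.Finite.mem_toFinset]; exact Or.inr hβ)
  have hρ0 : ρ ≠ 0 := by
    rintro rfl
    exact hρF ⟨0, map_zero _⟩
  obtain ⟨σ, hσ⟩ := nn_auto hρ hρF hgen
  have hσσ : ∀ z, σ (σ z) = z := by
    intro z
    obtain ⟨b, c, rfl⟩ := hgen z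
    simp only [map_add, map_mul, AlgHom.commutes, hσ, map_neg]
    ring
  have hfix : ∀ z : F', σ z = z → ∃ a : F, algebraMap F F' a = z := by
    intro z hz
    obtain ⟨b, c, rfl⟩ := hgen z
    rw [map_add, map_mul, AlgHom.commutes, AlgHom.commutes, hσ] at hz
    have h4 : (2 : F') * algebraMap F F' c * ρ = 0 := by linear_combination -hz
    refine ⟨b, ?_⟩
    rcases mul_eq_zero.1 h4 with h5 | h5
    · rw [(mul_eq_zero.1 h5).resolve_left two_ne_zero, zero_mul, add_zero]
    · exact absurd h5 hρ0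
  have hanti : ∀ z : F', σ z = -z → ∃ c : F, z = algebraMap F F' c * ρ := by
    intro z hz
    obtain ⟨b, c, rfl⟩ := hgen z
    rw [map_add, map_mul, AlgHom.commutes, AlgHom.commutes, hσ] at hz
    have h4 : (2 : F') * algebraMap F F' b = 0 := by linear_combination hz
    refine ⟨c, ?_⟩
    rw [(mul_eq_zero.1 h4).resolve_left two_ne_zero, zero_add]
  have ha1 : (W.baseChange F').toAffine.a₁ = 0 := by
    change algebraMap F F' W.a₁ = 0
    rw [h1, map_zero]
  have ha3 : (W.baseChange F').toAffine.a₃ = 0 := by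
    change algebraMap F F' W.a₃ = 0
    rw [h3, map_zero]
  have ha6 : (W.baseChange F').toAffine.a₆ = 0 := by
    change algebraMap F F' W.a₆ = 0
    rw [h6, map_zero]
  have ha2 : (W.baseChange F').toAffine.a₂ = algebraMap F F' W.a₂ := rfl
  have ha4 : (W.baseChange F').toAffine.a₄ = algebraMap F F' W.a₄ := rfl
  have hnegY : ∀ x y : F', (W.baseChange F').toAffine.negY x y = -y := by
    intro x y
    rw [Affine.negY, ha1, ha3, zero_mul, sub_zero, sub_zero]
  have heq : ∀ x y : F', (W.baseChange F').toAffine.Nonsingular x y →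
      y ^ 2 = x ^ 3 + algebraMap F F' W.a₂ * x ^ 2 + algebraMap F F' W.a₄ * x := by
    intro x y h
    have h4 := h.1
    rw [Affine.equation_iff, ha1, ha3, ha6, ha2, ha4] at h4
    linear_combination h4
  -- the involution on the points
  let S : (W.baseChange F').toAffine.Point →+ (W.baseChange F').toAffine.Point :=
    Affine.Point.map (W' := W) σ
  have hS : ∀ x y h, ∃ h', S (Affine.Point.some x y h) = Affine.Point.some (σ x) (σ y) h' :=
    fun x y h => ⟨_, rfl⟩
  have hSS : ∀ Q, S (S Q) = Q := by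
    rintro (_ | ⟨x, y, h⟩)
    · rfl
    · obtain ⟨h', e⟩ := hS x y h
      obtain ⟨h'', e'⟩ := hS _ _ h'
      rw [e, e', Affine.Point.some.injEq]
      exact ⟨hσσ x, hσσ y⟩
  have hSF : ∀ Q : (W.baseChange F).toAffine.Point,
      S (Affine.Point.map (W' := W) (Algebra.ofId F F') Q) =
        Affine.Point.map (W' := W) (Algebra.ofId F F') Q := by
    rintro (_ | ⟨x, y, h⟩)
    · rfl
    · change Affine.Point.some _ _ _ = Affine.Point.some _ _ _
      rw [Affine.Point.some.injEq]
      exact ⟨σ.commutes x, σ.commutes y⟩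
  have hSfix : ∀ Q, S Q = Q → ∃ R : (W.baseChange F).toAffine.Point,
      Q = Affine.Point.map (W' := W) (Algebra.ofId F F') R := by
    rintro (_ | ⟨x, y, h⟩) hQ
    · exact ⟨0, rfl⟩
    · obtain ⟨h', e⟩ := hS x y h
      rw [e, Affine.Point.some.injEq] at hQ
      obtain ⟨a, rfl⟩ := hfix x hQ.1
      obtain ⟨b, rfl⟩ := hfix y hQ.2
      exact ⟨Affine.Point.some a b ((Affine.baseChange_nonsingular W.toAffine
        (Algebra.ofId F F').injective _ _).mp h), rfl⟩
  -- the anti-invariants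
  let Am : AddSubgroup (W.baseChange F').toAffine.Point := (S + AddMonoidHom.id _).ker
  have hAm : ∀ Q, Q ∈ Am ↔ S Q = -Q := by
    intro Q
    rw [AddMonoidHom.mem_ker]
    show S Q + Q = 0 ↔ _
    exact add_eq_zero_iff_eq_neg
  have hAmc : ∀ x y h, Affine.Point.some x y h ∈ Am →
      ∃ x₀ c : F, x = algebraMap F F' x₀ ∧ y = algebraMap F F' c * ρ ∧
        c ^ 2 * α = x₀ ^ 3 + W.a₂ * x₀ ^ 2 + W.a₄ * x₀ := by
    intro x y h hQ
    rw [hAm] at hQ
    obtain ⟨h', e⟩ := hS x y h
    rw [e, Affine.Point.neg_some, Affine.Point.some.injEq, hnegY] at hQ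
    obtain ⟨x₀, rfl⟩ := hfix x hQ.1
    obtain ⟨c, rfl⟩ := hanti y hQ.2
    refine ⟨x₀, c, rfl, rfl, ?_⟩
    apply (algebraMap F F').injective
    have h4 := heq _ _ h
    rw [map_mul, map_pow, ← hρ, map_add, map_add, map_mul, map_mul, map_pow, map_pow]
    linear_combination h4
  have hAmf : Finite Am := by
    let V : WeierstrassCurve F := ⟨0, α * W.a₂, 0, α ^ 2 * W.a₄, 0⟩
    have hVΔ : V.Δ ≠ 0 := by
      have h4 : V.Δ = α ^ 6 * W.Δ := by
        have h5 : W = ⟨0, W.a₂, 0, W.a₄, 0⟩ := WeierstrassCurve.ext h1 rfl h3 rfl h6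
        rw [h5]
        simp only [V, WeierstrassCurve.Δ, WeierstrassCurve.b₂, WeierstrassCurve.b₄,
          WeierstrassCurve.b₆, WeierstrassCurve.b₈]
        ring
      rw [h4]
      exact mul_ne_zero (pow_ne_zero _ hα) hΔ
    have hfV : Finite V.toAffine.Point := hfin
    have key : ∀ Q : Am, ∃ R : V.toAffine.Point,
        (Q.1 = 0 ∧ R = 0) ∨ ∃ (x₀ c : F) (h : _) (h' : _),
          Q.1 = Affine.Point.some (algebraMap F F' x₀) (algebraMap F F' c * ρ) h ∧
            R = Affine.Point.some (α * x₀) (α ^ 2 * c) h' := by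
      rintro ⟨Q, hQ⟩
      rcases Q with _ | ⟨x, y, h⟩
      · exact ⟨0, Or.inl ⟨rfl, rfl⟩⟩
      · obtain ⟨x₀, c, rfl, rfl, h4⟩ := hAmc x y h hQ
        have h5 : V.toAffine.Nonsingular (α * x₀) (α ^ 2 * c) := by
          rw [← Affine.equation_iff_nonsingular_of_Δ_ne_zero hVΔ, Affine.equation_iff]
          show (α ^ 2 * c) ^ 2 + 0 * (α * x₀) * (α ^ 2 * c) + 0 * (α ^ 2 * c) =
            (α * x₀) ^ 3 + α * W.a₂ * (α * x₀) ^ 2 + α ^ 2 * W.a₄ * (α * x₀) + 0
          linear_combination α ^ 3 * h4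
        exact ⟨Affine.Point.some _ _ h5, Or.inr ⟨x₀, c, h, h5, rfl, rfl⟩⟩
    choose f hf using key
    refine Finite.of_injective f ?_
    intro Q Q' hQQ
    apply Subtype.ext
    rcases hf Q with ⟨h4, h5⟩ | ⟨x, c, h, h', h4, h5⟩
    · rcases hf Q' with ⟨h4', h5'⟩ | ⟨x', c', g, g', h4', h5'⟩
      · rw [h4, h4']
      · rw [h5, h5'] at hQQ
        cases hQQ
    · rcases hf Q' with ⟨h4', h5'⟩ | ⟨x', c', g, g', h4', h5'⟩
      · rw [h5, h5'] at hQQ
        cases hQQ
      · rw [h5, h5', Affine.Point.some.injEq] at hQQ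
        have h6 : x = x' := mul_left_cancel₀ hα hQQ.1
        have h7 : c = c' := mul_left_cancel₀ (pow_ne_zero 2 hα) hQQ.2
        rw [h4, h4', Affine.Point.some.injEq, h6, h7]
        exact ⟨rfl, rfl⟩
  -- `P - S P` is `0` or a point of order two
  have hDm : P - S P ∈ Am := by
    rw [hAm, map_sub, hSS, neg_sub]
  have hDfin : IsOfFinAddOrder (P - S P) := by
    have h4 : IsOfFinAddOrder (⟨P - S P, hDm⟩ : Am) := isOfFinAddOrder_of_finite _
    exact AddMonoidHom.isOfFinAddOrder Am.subtype h4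
  have hD2 : 2 • (P - S P) = 0 := by
    obtain ⟨T, hT⟩ : ∃ T, T = P - S P := ⟨_, rfl⟩
    rw [← hT] at hDm hDfin ⊢
    rcases T with _ | ⟨x, y, h⟩
    · rfl
    · obtain ⟨x₀, c, rfl, rfl, h4⟩ := hAmc x y h hDm
      have h5 : x₀ ∈ X := hX F' x₀ _ h hDfin
      have h6 : c = 0 := by
        by_contra hc
        refine hB1' (c ^ 2 * α) ⟨mul_ne_zero (pow_ne_zero 2 hc) hα, x₀, h5, h4⟩ ?_
        exact ⟨c * α, by ring⟩
      subst h6
      rw [two_nsmul, add_eq_zero_iff_eq_neg, Affine.Point.neg_some, Affine.Point.some.injEq, hnegY]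
      refine ⟨rfl, ?_⟩
      rw [map_zero, zero_mul, neg_zero]
  by_cases hD0 : P - S P = 0
  · exact hSfix P (sub_eq_zero.1 hD0).symm
  exfalso
  -- `2 P` is over `F`
  have h2P : S (2 • P) = 2 • P := by
    rw [smul_sub, sub_eq_zero] at hD2
    rw [map_nsmul]
    exact hD2.symm
  obtain ⟨R, hR⟩ := hSfix _ h2P
  obtain ⟨r, hr, T, hT⟩ := hrep R
  obtain ⟨P', hP'⟩ : ∃ P', P' = P - Affine.Point.map (W' := W) (Algebra.ofId F F') T := ⟨_, rfl⟩
  have h2P' : 2 • P' = Affine.Point.map (W' := W) (Algebra.ofId F F') r := by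
    rw [hP', smul_sub, hR, hT, map_add, map_nsmul]
    abel
  have hSP' : S P' ≠ P' := by
    intro h4
    apply hD0
    rw [hP', map_sub, hSF] at h4
    rw [sub_left_inj] at h4
    rw [h4, sub_self]
  have h2SP' : 2 • S P' = Affine.Point.map (W' := W) (Algebra.ofId F F') r := by
    rw [← map_nsmul, h2P', hSF]
  -- into the algebraic closure
  let φ : F' →ₐ[F] Fb := IsAlgClosed.lift
  have hmap : ∀ Q : (W.baseChange F').toAffine.Point,
      2 • Q = Affine.Point.map (W' := W) (Algebra.ofId F F') r →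
        Affine.Point.map (W' := W) φ Q ∈ Qs := by
    intro Q hQ
    refine Set.mem_biUnion hr ?_
    show 2 • Affine.Point.map (W' := W) φ Q = _
    rw [← map_nsmul, hQ]
    rcases r with _ | ⟨x, y, h⟩
    · rfl
    · change Affine.Point.some _ _ _ = Affine.Point.some _ _ _
      rw [Affine.Point.some.injEq]
      exact ⟨φ.commutes x, φ.commutes y⟩
  have m1 := hmap P' h2P'
  have m2 := hmap (S P') h2SP'
  rcases P' with _ | ⟨x, y, h⟩
  · exact hSP' rfl
  · have key : ∀ z : F', φ z ∈ C → φ (σ z) ∈ C → σ z = z := by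
      intro z z1 z2
      obtain ⟨u, w, rfl⟩ := hgen z
      by_contra hne
      have hw : w ≠ 0 := by
        rintro rfl
        apply hne
        rw [map_zero, zero_mul, add_zero, AlgHom.commutes]
      refine hB2' (w ^ 2 * α) ⟨mul_ne_zero (pow_ne_zero 2 hw) hα, ?_⟩ ⟨w * α, by ring⟩
      refine ⟨(φ (algebraMap F F' u + algebraMap F F' w * ρ),
        φ (σ (algebraMap F F' u + algebraMap F F' w * ρ))), ⟨z1, z2⟩, ?_⟩
      show ((φ (algebraMap F F' u + algebraMap F F' w * ρ) -
        φ (σ (algebraMap F F' u + algebraMap F F' w * ρ))) / 2) ^ 2 = algebraMap F Fb (w ^ 2 * α)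
      have h4 : algebraMap F Fb α = φ ρ ^ 2 := by
        rw [← map_pow, hρ, AlgHom.commutes]
      rw [map_mul (algebraMap F Fb), h4, map_pow (algebraMap F Fb)]
      simp only [map_add, map_mul, AlgHom.commutes, hσ, map_neg]
      ring
    apply hSP'
    obtain ⟨h', e⟩ := hS x y h
    rw [e] at m2 ⊢
    rw [Affine.Point.some.injEq]
    constructor
    · refine key x (Or.inl ⟨_, m1, rfl⟩) (Or.inl ⟨_, m2, rfl⟩)
    · refine key y (Or.inr ⟨_, m1, rfl⟩) (Or.inr ⟨_, m2, rfl⟩)

/-- **No new points**, for `y² = x³ + a x² + b x`; `X` is the set of `tors_x`. -/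
theorem no_new_of {a b : F} (hE : b * (a ^ 2 - 4 * b) ≠ 0) (X : Finset F)
    (hX : ∀ (F' : Type) [Field F'] [NumberField F'] [DecidableEq F'] [Algebra F F'] (x : F) (y : F')
      (h : (⟨0, algebraMap F F' a, 0, algebraMap F F' b, 0⟩ : WeierstrassCurve F').toAffine.Nonsingular
        (algebraMap F F' x) y), IsOfFinAddOrder (Affine.Point.some _ _ h) → x ∈ X) :
    ∃ B : Finset F, (∀ β ∈ B, β ≠ 0) ∧ ∀ (F' : Type) [Field F'] [NumberField F'] [Algebra F F']
      (α : F) (x : F'), α ≠ 0 → x ^ 2 = algebraMap F F' α → (¬ ∃ y : F, algebraMap F F' y = x) →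
      (∀ z : F', ∃ b c : F, z = algebraMap F F' b + algebraMap F F' c * x) →
      Finite (⟨0, α * a, 0, α ^ 2 * b, 0⟩ : WeierstrassCurve F).toAffine.Point →
      (∀ β ∈ B, ¬ IsSquare (α * β)) →
      ∀ x' y' : F', y' ^ 2 = x' ^ 3 + algebraMap F F' a * x' ^ 2 + algebraMap F F' b * x' →
        ∃ x₀ y₀ : F, algebraMap F F' x₀ = x' ∧ algebraMap F F' y₀ = y' := by
  classical
  let W : WeierstrassCurve F := ⟨0, a, 0, b, 0⟩
  have hΔ : W.Δ ≠ 0 := by
    have h4 : W.Δ = 16 * b * (b * (a ^ 2 - 4 * b)) := by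
      simp only [W, WeierstrassCurve.Δ, WeierstrassCurve.b₂, WeierstrassCurve.b₄,
        WeierstrassCurve.b₆, WeierstrassCurve.b₈]
      ring
    rw [h4]
    exact mul_ne_zero (mul_ne_zero (by norm_num) (left_ne_zero_of_mul hE)) hE
  obtain ⟨B, hB0, hB⟩ := nn_main W rfl rfl rfl hΔ X (by
    intro F' _ _ _ x y h hfin
    have key : ∀ V : WeierstrassCurve F', V = ⟨0, algebraMap F F' a, 0, algebraMap F F' b, 0⟩ →
        ∀ h : V.toAffine.Nonsingular (algebraMap F F' x) y,
          IsOfFinAddOrder (Affine.Point.some _ _ h) → x ∈ X := by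
      rintro _ rfl h hfin
      exact hX F' x y h hfin
    refine key (W.baseChange F') ?_ h hfin
    refine WeierstrassCurve.ext ?_ rfl ?_ rfl ?_
    · exact map_zero _
    · exact map_zero _
    · exact map_zero _)
  refine ⟨B, hB0, ?_⟩
  intro F' _ _ _ α x hα hx hxF hgen hfin hsq x' y' heq
  have hΔ' : (W.baseChange F').Δ ≠ 0 := by
    change (W.map (algebraMap F F')).Δ ≠ 0
    rw [WeierstrassCurve.map_Δ]
    exact (_root_.map_ne_zero _).2 hΔ
  have hns : (W.baseChange F').toAffine.Nonsingular x' y' := by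
    rw [← Affine.equation_iff_nonsingular_of_Δ_ne_zero hΔ', Affine.equation_iff]
    show y' ^ 2 + algebraMap F F' 0 * x' * y' + algebraMap F F' 0 * y' =
      x' ^ 3 + algebraMap F F' a * x' ^ 2 + algebraMap F F' b * x' + algebraMap F F' 0
    rw [map_zero]
    linear_combination heq
  obtain ⟨Q, hQ⟩ := hB F' α x hα hx hxF hgen hfin hsq (Affine.Point.some x' y' hns)
  rcases Q with _ | ⟨x₀, y₀, h₀⟩
  · cases hQ
  · change Affine.Point.some _ _ _ = Affine.Point.some _ _ _ at hQ
    rw [Affine.Point.some.injEq] at hQ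
    exact ⟨x₀, y₀, hQ.1.symm, hQ.2.symm⟩

end main

/-- **No new points.** -/
theorem no_new {F : Type} [Field F] [NumberField F] {a b : F} (hE : b * (a ^ 2 - 4 * b) ≠ 0) :
    ∃ B : Finset F, (∀ β ∈ B, β ≠ 0) ∧ ∀ (F' : Type) [Field F'] [NumberField F'] [Algebra F F']
      (α : F) (x : F'), α ≠ 0 → x ^ 2 = algebraMap F F' α → (¬ ∃ y : F, algebraMap F F' y = x) →
      (∀ z : F', ∃ b c : F, z = algebraMap F F' b + algebraMap F F' c * x) →
      Finite (⟨0, α * a, 0, α ^ 2 * b, 0⟩ : WeierstrassCurve F).toAffine.Point →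
      (∀ β ∈ B, ¬ IsSquare (α * β)) →
      ∀ x' y' : F', y' ^ 2 = x' ^ 3 + algebraMap F F' a * x' ^ 2 + algebraMap F F' b * x' →
        ∃ x₀ y₀ : F, algebraMap F F' x₀ = x' ∧ algebraMap F F' y₀ = y' := by
  obtain ⟨X, hX⟩ := tors_x hE
  exact no_new_of hE X hX

end Pool.Agent.Lib.MP_1a91b9_ntC
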