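import Pool.Agent.Lib.MP_1a91b9_ntW.J.StarG
import Pool.Agent.Lib.MP_1a91b9_ntW.J.Mono
import Pool.Agent.Lib.MP_1a91b9_ntI.KEq3

/-!
# Monotonicity of the proportion up to finitely many exceptions, and principality
-/

set_option autoImplicit false

namespace Pool.Agent.Lib.MP_1a91b9_ntC

open NumberField WeierstrassCurve Filter Topology
open Pool.Agent.Lib.MP_1a91b9_ntW.J (PropGE finite_norm_le Inv2)

section
variable {K : Type} [Field K] [NumberField K]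

omit [NumberField K] in
/-- An element of the ring of integers. -/
theorem exists_int {x : K} {p : Polynomial ℤ} (hp : p.Monic) (h : Polynomial.aeval x p = 0) :
    ∃ y : 𝓞 K, (y : K) = x := ⟨⟨x, ⟨p, hp, h⟩⟩, rfl⟩

/-- **Principality.** -/
theorem pid_of (hK : Module.finrank ℚ K = 2) {W : WeierstrassCurve K}
    (hW : Pool.Agent.Lib.MP_1a91b9_ntY.CMK W) (hP : Pool.Agent.Lib.MP_1a91b9_ntY.Pt2 W) :
    IsPrincipalIdealRing (𝓞 K) := by
  have hI : Inv2 (fun _ : WeierstrassCurve K => IsPrincipalIdealRing (𝓞 K)) :=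
    ⟨fun _ _ h => h, fun _ _ _ _ h => h⟩
  refine hI.star hK (fun ⟨s, hs⟩ _ _ => ?_) (fun ⟨s, hs⟩ _ _ => ?_) (fun ⟨s, hs⟩ _ _ => ?_)
    (fun ⟨s, hs⟩ _ _ => ?_) hW hP
  · obtain ⟨y, hy⟩ := exists_int (x := s) (p := Polynomial.X ^ 2 + Polynomial.C 1)
      (by monicity!) (by simp [hs, map_ofNat])
    have h1 : (y : K) ^ 2 = -1 := by rw [hy, hs]
    exact Pool.Agent.Lib.MP_1a91b9_ntI.pir_i hK (i := y) (by exact_mod_cast h1)
  · obtain ⟨y, hy⟩ := exists_int (x := s) (p := Polynomial.X ^ 2 + Polynomial.C 2)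
      (by monicity!) (by simp [hs, map_ofNat])
    have h1 : (y : K) ^ 2 = -2 := by rw [hy, hs]
    refine Pool.Agent.Lib.MP_1a91b9_ntI.pir_s hK (s := y)
      (FaithfulSMul.algebraMap_injective (𝓞 K) K ?_)
    rw [map_pow, map_neg, map_ofNat]
    exact h1
  · have hθ : ((1 + s) / 2 : K) ^ 2 = (1 + s) / 2 - 1 := by
      field_simp
      linear_combination hs
    obtain ⟨y, hy⟩ := exists_int (x := (1 + s) / 2)
      (p := Polynomial.X ^ 2 - Polynomial.X + Polynomial.C 1)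
      (by monicity!) (by simp [hθ, map_ofNat])
    have h1 : (y : K) ^ 2 = y - 1 := by rw [hy, hθ]
    exact Pool.Agent.Lib.MP_1a91b9_ntI.pir_w hK (θ := y) (by exact_mod_cast h1)
  · have hθ : ((1 + s) / 2 : K) ^ 2 = (1 + s) / 2 - 2 := by
      field_simp
      linear_combination hs
    obtain ⟨y, hy⟩ := exists_int (x := (1 + s) / 2)
      (p := Polynomial.X ^ 2 - Polynomial.X + Polynomial.C 2)
      (by monicity!) (by simp [hθ, map_ofNat])
    have h1 : (y : K) ^ 2 = y - 2 := by rw [hy, hθ]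
    refine Pool.Agent.Lib.MP_1a91b9_ntI.pir_t hK (θ := y)
      (FaithfulSMul.algebraMap_injective (𝓞 K) K ?_)
    rw [map_pow, map_sub, map_ofNat]
    exact h1

/-- **Monotonicity up to finitely many exceptions.** -/
theorem prop_mono_fin [Finite (𝓞 K)ˣ] {m u : 𝓞 K} {P Q : 𝓞 K → Prop} {c : ℝ}
    (h : PropGE K m u P c)
    (hinf : {d : 𝓞 K | Squarefree d ∧ m ∣ d - u} = ∅ ∨
      {d : 𝓞 K | Squarefree d ∧ m ∣ d - u}.Infinite)
    (hex : {d : 𝓞 K | Squarefree d ∧ m ∣ d - u ∧ P d ∧ ¬ Q d}.Finite) :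
    PropGE K m u Q c := by
  rcases hinf with hinf | hinf
  · refine h.mono fun d hd hm _ => ?_
    have h1 : d ∈ ({d : 𝓞 K | Squarefree d ∧ m ∣ d - u} : Set (𝓞 K)) := ⟨hd, hm⟩
    rw [hinf] at h1
    exact h1.elim
  · intro ε hε
    obtain ⟨e, he⟩ : ∃ e : ℕ, e = hex.toFinset.card := ⟨_, rfl⟩
    obtain ⟨n, hn⟩ := exists_nat_ge (2 * (e : ℝ) / ε)
    obtain ⟨S, hS, hSn⟩ := hinf.exists_subset_card_eq (n + 1)
    obtain ⟨B, hB⟩ : ∃ B : ℝ, ∀ d ∈ S, ((|Algebra.norm ℤ d| : ℤ) : ℝ) ≤ B := by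
      refine ⟨∑ d ∈ S, ((|Algebra.norm ℤ d| : ℤ) : ℝ), fun d hd => ?_⟩
      exact Finset.single_le_sum (f := fun d : 𝓞 K => ((|Algebra.norm ℤ d| : ℤ) : ℝ))
        (fun i _ => by positivity) hd
    filter_upwards [h (ε / 2) (half_pos hε), eventually_ge_atTop B] with X hX hXB
    have hfin : ∀ R : 𝓞 K → Prop, {d : 𝓞 K | Squarefree d ∧ m ∣ d - u ∧
        ((|Algebra.norm ℤ d| : ℤ) : ℝ) ≤ X ∧ R d}.Finite := by
      intro R
      refine (finite_norm_le (K := K) X).subset ?_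
      rintro d ⟨h1, -, h3, -⟩
      exact ⟨h1.ne_zero, h3⟩
    have hfin0 : {d : 𝓞 K | Squarefree d ∧ m ∣ d - u ∧
        ((|Algebra.norm ℤ d| : ℤ) : ℝ) ≤ X}.Finite := by
      refine (finite_norm_le (K := K) X).subset ?_
      rintro d ⟨h1, -, h3⟩
      exact ⟨h1.ne_zero, h3⟩
    have hN : (n + 1 : ℕ) ≤ Nat.card {d : 𝓞 K // Squarefree d ∧ m ∣ d - u ∧
        ((|Algebra.norm ℤ d| : ℤ) : ℝ) ≤ X} := by
      have h1 : (S : Set (𝓞 K)) ⊆ {d : 𝓞 K | Squarefree d ∧ m ∣ d - u ∧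
          ((|Algebra.norm ℤ d| : ℤ) : ℝ) ≤ X} := by
        intro d hd
        obtain ⟨h2, h3⟩ := hS hd
        exact ⟨h2, h3, (hB d hd).trans hXB⟩
      have h2 := Set.ncard_le_ncard h1 hfin0
      rw [Set.ncard_coe_finset, hSn] at h2
      exact h2
    have hPQ : Nat.card {d : 𝓞 K // Squarefree d ∧ m ∣ d - u ∧
        ((|Algebra.norm ℤ d| : ℤ) : ℝ) ≤ X ∧ P d} ≤
        Nat.card {d : 𝓞 K // Squarefree d ∧ m ∣ d - u ∧
        ((|Algebra.norm ℤ d| : ℤ) : ℝ) ≤ X ∧ Q d} + e := by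
      have h1 : {d : 𝓞 K | Squarefree d ∧ m ∣ d - u ∧
          ((|Algebra.norm ℤ d| : ℤ) : ℝ) ≤ X ∧ P d} ⊆ {d : 𝓞 K | Squarefree d ∧ m ∣ d - u ∧
          ((|Algebra.norm ℤ d| : ℤ) : ℝ) ≤ X ∧ Q d} ∪ (hex.toFinset : Set (𝓞 K)) := by
        rintro d ⟨h1, h2, h3, h4⟩
        by_cases hQ : Q d
        · exact Or.inl ⟨h1, h2, h3, hQ⟩
        · refine Or.inr ?_
          rw [Set.Finite.coe_toFinset]
          exact ⟨h1, h2, h4, hQ⟩
      have h2 := (Set.ncard_le_ncard h1 ((hfin Q).union (Finset.finite_toSet _))).trans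
        (Set.ncard_union_le _ _)
      rw [Set.ncard_coe_finset, ← he] at h2
      exact h2
    obtain ⟨N, hN'⟩ : ∃ N, N = Nat.card {d : 𝓞 K // Squarefree d ∧ m ∣ d - u ∧
        ((|Algebra.norm ℤ d| : ℤ) : ℝ) ≤ X} := ⟨_, rfl⟩
    obtain ⟨p, hp⟩ : ∃ p, p = Nat.card {d : 𝓞 K // Squarefree d ∧ m ∣ d - u ∧
        ((|Algebra.norm ℤ d| : ℤ) : ℝ) ≤ X ∧ P d} := ⟨_, rfl⟩
    obtain ⟨q, hq⟩ : ∃ q, q = Nat.card {d : 𝓞 K // Squarefree d ∧ m ∣ d - u ∧
        ((|Algebra.norm ℤ d| : ℤ) : ℝ) ≤ X ∧ Q d} := ⟨_, rfl⟩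
    rw [← hN'] at hN
    rw [← hp, ← hq] at hPQ
    have hX' : c - ε / 2 ≤ (p : ℝ) / N := by
      rw [hp, hN']
      exact hX
    have goal' : c - ε ≤ (q : ℝ) / N := by
      have hN0 : (0 : ℝ) < N := by
        have : (1 : ℝ) ≤ (n : ℝ) + 1 := by linarith [(Nat.cast_nonneg n : (0 : ℝ) ≤ n)]
        have h3 : ((n + 1 : ℕ) : ℝ) ≤ N := by exact_mod_cast hN
        push_cast at h3
        linarith
      have h3 : (p : ℝ) ≤ q + e := by exact_mod_cast hPQ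
      have h4 : (p : ℝ) / N ≤ q / N + e / N := by
        rw [← add_div]
        exact div_le_div_of_nonneg_right h3 hN0.le
      have h5 : (e : ℝ) / N ≤ ε / 2 := by
        rw [div_le_iff₀ hN0]
        have h6 : ((n + 1 : ℕ) : ℝ) ≤ N := by exact_mod_cast hN
        push_cast at h6
        have h7 : 2 * (e : ℝ) / ε ≤ N := by linarith
        rw [div_le_iff₀ hε] at h7
        linarith
      linarith
    rw [hq, hN'] at goal'
    exact goal'

end

end Pool.Agent.Lib.MP_1a91b9_ntC
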