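import Pool.Agent.Lib.MP_1a91b9_ntC.Stab
import Pool.Agent.Lib.MP_1a91b9_ntC.NoNew
import Pool.Agent.Lib.MP_1a91b9_ntC.ExF
import Pool.Agent.Lib.MP_1a91b9_ntC.Inf
import Pool.Agent.Lib.MP_1a91b9_ntC.Pdd
import Pool.Agent.Lib.MP_1a91b9_ntZ.KFinB
import Pool.Agent.Lib.MP_1a91b9_ntZ.Hund
import Pool.Agent.Lib.MP_1a91b9_ntZ.SetB
import Pool.Agent.Lib.MP_1a91b9_ntZ.CBd

/-!
# Diophantine stability over the fields `F(√(δ d))`: the binomial law
-/

set_option autoImplicit false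

namespace Pool.Agent.Lib.MP_1a91b9_ntC

open NumberField WeierstrassCurve Filter Topology
open Pool.Agent.Lib.MP_1a91b9_nuI (HasJ)
open Pool.Agent.Lib.MP_1a91b9_ntL (crv)
open Pool.Agent.Lib.MP_1a91b9_ntW.J (RkZ)
open Pool.Agent.Lib.MP_1a91b9_ntZ (bn binK set_law bn_tendsto cb_two CB)

noncomputable section

/-- no new points -/
def NoNew (F : Type) {F' : Type} [Field F] [Field F'] [Algebra F F'] (W' : WeierstrassCurve F') :
    Prop :=
  ∀ x' y' : F', W'.toAffine.Equation x' y' →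
    ∃ x y : F, algebraMap F F' x = x' ∧ algebraMap F F' y = y'

/-- the property of `d`, with no new points -/
def StbN {K : Type} [Field K] (a b : K) (F : Type) [Field F] [NumberField F] [Algebra K F] (d : K) :
    Prop :=
  ∀ (F' : Type) [Field F'] [NumberField F'] [Algebra F F'] (x : F'),
    x ^ 2 = algebraMap F F' (algebraMap K F d) → IntermediateField.adjoin F {x} = ⊤ →
    Stb ((crv a b).map (algebraMap K F)) (((crv a b).map (algebraMap K F)).map (algebraMap F F')) ∧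
      NoNew F (((crv a b).map (algebraMap K F)).map (algebraMap F F'))

/-- the step -/
theorem stbN_step {K : Type} [Field K] {a b : K} (hQ : QL (crv a b)) {j : ℤ}
    (hj : HasJ (crv a b) j) {F : Type} [Field F] [NumberField F] [Algebra K F] {B : Finset F}
    (hB : ∀ (F' : Type) [Field F'] [NumberField F'] [Algebra F F']
      (α : F) (x : F'), α ≠ 0 → x ^ 2 = algebraMap F F' α → (¬ ∃ y : F, algebraMap F F' y = x) →
      (∀ z : F', ∃ b c : F, z = algebraMap F F' b + algebraMap F F' c * x) →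
      Finite (⟨0, α * algebraMap K F a, 0, α ^ 2 * algebraMap K F b, 0⟩ :
        WeierstrassCurve F).toAffine.Point →
      (∀ β ∈ B, ¬ IsSquare (α * β)) → ∀ x' y' : F',
      y' ^ 2 = x' ^ 3 + algebraMap F F' (algebraMap K F a) * x' ^ 2 +
        algebraMap F F' (algebraMap K F b) * x' →
      ∃ x₀ y₀ : F, algebraMap F F' x₀ = x' ∧ algebraMap F F' y₀ = y') {d : K} (hd : d ≠ 0)
    (hV : RkZ (⟨0, algebraMap K F (d * a), 0, algebraMap K F (d ^ 2 * b), 0⟩ :
      WeierstrassCurve F)) (hdB : ∀ β ∈ B, ¬ IsSquare (algebraMap K F d * β)) : StbN a b F d := by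
  intro F' _ _ _ x hx hgen
  refine ⟨stb_step hQ hj hd hx hgen hV, fun x' y' hxy => ?_⟩
  by_cases hn : ∃ y : F, algebraMap F F' y = x
  · have hb : Function.Surjective (algebraMap F F') := by
      intro z
      have hz : z ∈ IntermediateField.adjoin F {x} := by
        rw [hgen]
        exact IntermediateField.mem_top
      obtain ⟨y, rfl⟩ := hn
      have h1 : IntermediateField.adjoin F {algebraMap F F' y} = ⊥ := by
        rw [IntermediateField.adjoin_eq_bot_iff, Set.singleton_subset_iff]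
        exact IntermediateField.mem_bot.2 ⟨y, rfl⟩
      rw [h1] at hz
      exact IntermediateField.mem_bot.1 hz
    obtain ⟨u, hu⟩ := hb x'
    obtain ⟨v, hv⟩ := hb y'
    exact ⟨u, v, hu, hv⟩
  · have hα : algebraMap K F d ≠ 0 := by
      rw [Ne, map_eq_zero]
      exact hd
    have hfin := hV.2
    rw [map_mul, map_mul, map_pow] at hfin
    refine hB F' _ x hα hx hn (quad_gen hx hgen) hfin hdB x' y' ?_
    rw [crv_map, crv_map] at hxy
    have h1 := (WeierstrassCurve.Affine.equation_iff _ _).1 hxy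
    simp only [crv] at h1
    linear_combination h1

open Classical in
/-- **Diophantine stability, the binomial law.** -/
theorem stab_new (K : Type) [Field K] [NumberField K] (hK : Module.finrank ℚ K = 2)
    (a b : K) (hE : b * (a ^ 2 - 4 * b) ≠ 0) (j D : ℤ)
    (hjD : (j, D) ∈ [((0 : ℤ), (-3 : ℤ)), (54000, -3), (-12288000, -3), (1728, -4), (287496, -4),
      (-3375, -7), (16581375, -7), (8000, -8), (-32768, -11), (-884736, -19), (-884736000, -43),
      (-147197952000, -67), (-262537412640768000, -163)])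
    (hj : 256 * (a ^ 2 - 3 * b) ^ 3 = j * (b ^ 2 * (a ^ 2 - 4 * b))) (hD : ∃ s : K, s ^ 2 = D)
    (l : ℕ) (hl : l = 2 ∨ l = 4 ∧ ∃ i : K, i ^ 2 = -1)
    (F : Type) [Field F] [NumberField F] [Algebra K F]
    (hF : IntermediateField.adjoin K {x : F | ∃ c : K, x ^ l = algebraMap K F c} = ⊤)
    (T : Set (𝓞 K)) (h0 : 0 ∉ T)
    (hT : ∀ δ ∈ T, ∀ δ' ∈ T, δ ≠ δ' → ∀ e ∈ ({1, -1, b, -b} : Set K), ∀ x : F, x ≠ 0 →
      x ^ 2 * algebraMap K F δ' ≠ algebraMap K F (e * δ))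
    (n : ℕ) (m u : 𝓞 K) (hm : m ∣ 2 ^ n) (hu : ∀ p, Prime p → ¬ (p ^ 2 ∣ m ∧ p ^ 2 ∣ u))
    (c : ℝ)
    (hc : c = if Prime (2 : 𝓞 K) then (if ∃ x : F, x ^ 2 = -1 then
        √((∏' i : ℕ, (1 + 1 / (2 : ℝ) ^ (2 * i + 1))⁻¹) / 2) else
        ∏' i : ℕ, (1 + 1 / (2 : ℝ) ^ (2 * i + 1))⁻¹) else
      if Squarefree (2 : 𝓞 K) then ∏' i : ℕ, (1 - 1 / (2 : ℝ) ^ (i + 1)) else
      ∏' i : ℕ, (1 + 1 / (2 : ℝ) ^ (i + 1))⁻¹) (t : ℕ) (v : ℝ)
    (hv : v = if T.Infinite then 1 else ∑ j ∈ Finset.Icc t T.ncard, (T.ncard.choose j : ℝ) *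
      (c ^ Module.finrank K F) ^ j * (1 - c ^ Module.finrank K F) ^ (T.ncard - j))
    (ε : ℝ) (hε : 0 < ε) :
    ∀ᶠ X : ℝ in Filter.atTop, v - ε ≤
      (Nat.card {d : 𝓞 K // Squarefree d ∧ m ∣ d - u ∧ |Algebra.norm ℤ d| ≤ X ∧
        t ≤ {δ ∈ T | StbN a b F (δ * d)}.encard} : ℝ) /
        (Nat.card {d : 𝓞 K // Squarefree d ∧ m ∣ d - u ∧ |Algebra.norm ℤ d| ≤ X} : ℝ) := by
  have hneg : D < 0 := by
    simp only [List.mem_cons, Prod.mk.injEq, List.not_mem_nil, or_false] at hjD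
    rcases hjD with ⟨-, rfl⟩ | ⟨-, rfl⟩ | ⟨-, rfl⟩ | ⟨-, rfl⟩ | ⟨-, rfl⟩ | ⟨-, rfl⟩ | ⟨-, rfl⟩ |
      ⟨-, rfl⟩ | ⟨-, rfl⟩ | ⟨-, rfl⟩ | ⟨-, rfl⟩ | ⟨-, rfl⟩ | ⟨-, rfl⟩ <;> norm_num
  obtain ⟨s, hs⟩ := hD
  have _ : Finite (𝓞 K)ˣ := Pool.Agent.Lib.MP_1a91b9_ntW.J.finite_units hK
    (Pool.Agent.Lib.MP_1a91b9_ntW.J.no_real hs hneg)
  have hb : b ≠ 0 := left_ne_zero_of_mul hE
  have hb' : a ^ 2 - 4 * b ≠ 0 := right_ne_zero_of_mul hE
  have hJ : HasJ (crv a b) j := by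
    refine Pool.Agent.Lib.MP_1a91b9_ntY.hasJ_crv ?_
    linear_combination 16 * hj
  have hW : Pool.Agent.Lib.MP_1a91b9_ntY.CMK (crv a b) := by
    refine ⟨?_, j, D, s, hjD, hs, hJ⟩
    rw [Pool.Agent.Lib.MP_1a91b9_ntY.crv_Δ]
    exact mul_ne_zero (mul_ne_zero (by norm_num) (pow_ne_zero 2 hb)) hb'
  have hP : Pool.Agent.Lib.MP_1a91b9_ntY.Pt2 (crv a b) := by
    refine ⟨0, ?_⟩
    unfold crv WeierstrassCurve.b₂ WeierstrassCurve.b₄ WeierstrassCurve.b₆
    ring
  have hQ := ql_all hK hW hP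
  have _ : IsPrincipalIdealRing (𝓞 K) := pid_of hK hW hP
  have hm0 : m ≠ 0 := by
    rintro rfl
    exact pow_ne_zero n two_ne_zero (zero_dvd_iff.1 hm)
  have hEF : algebraMap K F b * (algebraMap K F a ^ 2 - 4 * algebraMap K F b) ≠ 0 := by
    have h1 := (map_ne_zero (algebraMap K F)).2 hE
    rwa [map_mul, map_sub, map_mul, map_pow, map_ofNat] at h1
  obtain ⟨B, hB0, hB⟩ := no_new hEF
  obtain ⟨g, hg⟩ : ∃ g, g = c ^ Module.finrank K F := ⟨_, rfl⟩
  have hcb : CB g := hg ▸ (cb_two hc).pow _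
  -- the law for the finite subsets
  have key : ∀ S : Finset (𝓞 K), (S : Set (𝓞 K)) ⊆ T → ∀ ε : ℝ, 0 < ε →
      ∀ᶠ X : ℝ in atTop, bn S.card t g - ε ≤
      (Nat.card {d : 𝓞 K // Squarefree d ∧ m ∣ d - u ∧ ((|Algebra.norm ℤ d| : ℤ) : ℝ) ≤ X ∧
        t ≤ (S.filter fun δ : 𝓞 K => StbN a b F ((δ : K) * (d : K))).card} : ℝ) /
        (Nat.card {d : 𝓞 K // Squarefree d ∧ m ∣ d - u ∧
          ((|Algebra.norm ℤ d| : ℤ) : ℝ) ≤ X} : ℝ) := by
    intro S hS ε hε
    have h := binK hK a b hE j D hjD hj ⟨s, hs⟩ l hl F hF S (fun δ hδ h => h0 (h ▸ hS hδ))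
      (fun δ hδ δ' hδ' hne e he ⟨x, hx⟩ => by
        have he0 : e ≠ 0 := by
          simp only [Set.mem_insert_iff, Set.mem_singleton_iff] at he
          rcases he with rfl | rfl | rfl | rfl
          · exact one_ne_zero
          · exact neg_ne_zero.2 one_ne_zero
          · exact hb
          · exact neg_ne_zero.2 hb
        have hδ0 : (δ : K) ≠ 0 := by
          intro h
          exact h0 ((by exact_mod_cast h : δ = 0) ▸ hS hδ)
        have hδ0' : (δ' : K) ≠ 0 := by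
          intro h
          exact h0 ((by exact_mod_cast h : δ' = 0) ▸ hS hδ')
        have hx0 : x ≠ 0 := by
          rintro rfl
          rw [zero_pow two_ne_zero, eq_comm, map_eq_zero] at hx
          exact mul_ne_zero he0 (mul_ne_zero hδ0 hδ0') hx
        have hδF : algebraMap K F (δ' : K) ≠ 0 := by rwa [map_ne_zero]
        refine hT δ (hS hδ) δ' (hS hδ') hne e he (x * (algebraMap K F (δ' : K))⁻¹)
          (mul_ne_zero hx0 (inv_ne_zero hδF)) ?_
        rw [map_mul, map_mul] at hx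
        rw [map_mul, mul_pow, hx]
        field_simp) t n m u hm hu c hc
    rw [← hg] at h
    have h1 : Pool.Agent.Lib.MP_1a91b9_ntW.J.PropGE K m u (fun d => t ≤ (S.filter fun δ : 𝓞 K =>
        ∀ W : WeierstrassCurve F, W = ⟨0, algebraMap K F ((δ : K) * (d : K) * a), 0,
          algebraMap K F (((δ : K) * (d : K)) ^ 2 * b), 0⟩ → RkZ W).card) (bn S.card t g) := h
    refine prop_mono_fin h1 ?_ ?_ ε hε
    · rcases Set.eq_empty_or_nonempty {d : 𝓞 K | Squarefree d ∧ m ∣ d - u} with h2 | ⟨d₀, h2, h3⟩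
      · exact Or.inl h2
      · exact Or.inr (inf_sf hm0 h2 h3)
    · have hex : (⋃ δ ∈ (S : Set (𝓞 K)), ⋃ β ∈ (B : Set F), {d : 𝓞 K | Squarefree d ∧
          IsSquare (algebraMap K F ((δ : K) * (d : K)) * β)}).Finite := by
        refine Set.Finite.biUnion S.finite_toSet fun δ hδ => ?_
        refine Set.Finite.biUnion B.finite_toSet fun β hβ => ?_
        exact fin_ex (fun h => h0 (h ▸ hS hδ)) (hB0 β hβ)
      refine hex.subset ?_
      rintro d ⟨hd, -, h2, h3⟩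
      by_contra hcon
      refine h3 (h2.trans (Finset.card_le_card fun δ hδ => ?_))
      rw [Finset.mem_filter] at hδ ⊢
      refine ⟨hδ.1, ?_⟩
      have hδ0 : (δ : K) ≠ 0 := by
        intro h
        exact h0 ((by exact_mod_cast h : δ = 0) ▸ hS hδ.1)
      have hd0 : (d : K) ≠ 0 := by exact_mod_cast hd.ne_zero
      refine stbN_step hQ hJ hB (mul_ne_zero hδ0 hd0) (hδ.2 _ rfl) fun β hβ hsq => hcon ?_
      exact Set.mem_biUnion (Finset.mem_coe.2 hδ.1) (Set.mem_biUnion (Finset.mem_coe.2 hβ) ⟨hd, hsq⟩)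
  rcases T.finite_or_infinite with hT | hT
  · have h1 := set_law (α := 𝓞 K) (A := fun d : 𝓞 K => Squarefree d) (B := fun d => m ∣ d - u)
      (C := fun X d => ((|Algebra.norm ℤ d| : ℤ) : ℝ) ≤ X)
      (Q := fun (δ d : 𝓞 K) => StbN a b F ((δ : K) * (d : K))) (g := g) (T := T) (n := T.ncard)
      (t := t) (by rw [hT.cast_ncard_eq]) key hε
    have h2 : v = bn T.ncard t g := by
      rw [hv, if_neg (Set.not_infinite.2 hT), hg]
      rfl
    rw [h2]
    exact h1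
  · have h2 : v = 1 := by rw [hv, if_pos hT]
    obtain ⟨k, hk⟩ := ((bn_tendsto hcb.1 hcb.2 t).eventually
      (lt_mem_nhds (show 1 - ε / 2 < 1 by linarith))).exists
    have h1 := set_law (α := 𝓞 K) (A := fun d : 𝓞 K => Squarefree d) (B := fun d => m ∣ d - u)
      (C := fun X d => ((|Algebra.norm ℤ d| : ℤ) : ℝ) ≤ X)
      (Q := fun (δ d : 𝓞 K) => StbN a b F ((δ : K) * (d : K))) (g := g) (T := T) (n := k)
      (t := t) (by rw [hT.encard_eq]; exact le_top) key (half_pos hε)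
    rw [h2]
    filter_upwards [h1] with X hX
    refine le_trans ?_ hX
    linarith

end

end Pool.Agent.Lib.MP_1a91b9_ntC
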