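import Pool.Agent.Lib.MP_1a91b9_ntC.Bas
import Pool.Agent.Lib.MP_1a91b9_ntC.StabD

/-!
# MP_1a91b9_nt (Diophantine stability): the result
-/

set_option autoImplicit false

namespace Pool.Agent.Lib.MP_1a91b9_ntC

open NumberField WeierstrassCurve
open Pool.Agent.Lib.MP_1a91b9_ntW (K8 WW)
open Pool.Agent.Lib.MP_1a91b9_ntL (crv)

noncomputable section

open Classical in
/-- **The result.** -/
theorem fin_new (K : Type) [Field K] [NumberField K] (hK : Module.finrank ℚ K = 2)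
    (E : WeierstrassCurve K) (hE : E.a₁ = 0 ∧ E.a₃ = 0 ∧ E.a₆ = 0) (hΔ : E.Δ ≠ 0) (j D : ℤ)
    (hjD : (j, D) ∈ [(0, -3), (54000, -3), (-12288000, -3), (1728, -4), (287496, -4), (-3375, -7),
      (16581375, -7), (8000, -8), (-32768, -11), (-884736, -19), (-884736000, -43),
      (-147197952000, -67), (-262537412640768000, -163)])
    (hj : E.c₄ ^ 3 = j * E.Δ) (hD : ∃ s : K, s ^ 2 = D)
    (l : ℕ) (hl : l = 2 ∨ l = 4 ∧ ∃ i : K, i ^ 2 = -1)
    (F : Type) [Field F] [NumberField F] [Algebra K F]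
    (hF : IntermediateField.adjoin K {x : F | ∃ c : K, x ^ l = algebraMap K F c} = ⊤)
    (T : Set (𝓞 K)) (h0 : 0 ∉ T)
    (hT : ∀ δ ∈ T, ∀ δ' ∈ T, δ ≠ δ' → ∀ e ∈ ({1, -1, E.a₄, -E.a₄} : Set K), ∀ x : F, x ≠ 0 →
      x ^ 2 * algebraMap K F δ' ≠ algebraMap K F (e * δ))
    (n : ℕ) (m u : 𝓞 K) (hm : m ∣ 2 ^ n) (hu : ∀ q, Prime q → ¬ (q ^ 2 ∣ m ∧ q ^ 2 ∣ u)) (c : ℝ)
    (hc : c = if Prime (2 : 𝓞 K) then (if ∃ x : F, x ^ 2 = -1 then
        √((∏' i : ℕ, (1 + 1 / (2 : ℝ) ^ (2 * i + 1))⁻¹) / 2) else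
        ∏' i : ℕ, (1 + 1 / (2 : ℝ) ^ (2 * i + 1))⁻¹) else
      if Squarefree (2 : 𝓞 K) then ∏' i : ℕ, (1 - 1 / (2 : ℝ) ^ (i + 1)) else
      ∏' i : ℕ, (1 + 1 / (2 : ℝ) ^ (i + 1))⁻¹) (t : ℕ) (v : ℝ)
    (hv : v = if T.Infinite then 1 else ∑ j ∈ Finset.Icc t T.ncard, (T.ncard.choose j : ℝ) *
      (c ^ Module.finrank K F) ^ j * (1 - c ^ Module.finrank K F) ^ (T.ncard - j))
    (ε : ℝ) (hε : 0 < ε) :
    ∀ᶠ X : ℝ in Filter.atTop, v - ε ≤
      (Nat.card {d : 𝓞 K // Squarefree d ∧ m ∣ d - u ∧ |Algebra.norm ℤ d| ≤ X ∧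
        t ≤ {δ ∈ T | ∀ (F' : Type) [Field F'] [NumberField F'] [Algebra F F'] (x : F'),
          x ^ 2 = algebraMap F F' (algebraMap K F (δ * d)) →
          IntermediateField.adjoin F {x} = ⊤ →
          (∃ g : ℂ → ℂ, Differentiable ℂ g ∧ g 1 ≠ 0 ∧ ∀ s : ℂ, 3 / 2 < s.re →
            ((E.baseChange F).baseChange F').LSeries s = (E.baseChange F).LSeries s * g s) ∧
          (∀ x' y' : F', ((E.baseChange F).baseChange F').toAffine.Equation x' y' →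
            ∃ x y : F, algebraMap F F' x = x' ∧ algebraMap F F' y = y') ∧
          (E = ⟨0, 4, 0, 2, 0⟩ → Module.finrank K F = 1 →
            (∃ h : ℂ → ℂ, Differentiable ℂ h ∧
              (∀ s : ℂ, 3 / 2 < s.re → h s = ((E.baseChange F).baseChange F').LSeries s) ∧
              analyticOrderAt h 1 = 2) ∧
            Module.finrank ℤ ((E.baseChange F).baseChange F').toAffine.Point = 2)}.encard} : ℝ) /
        (Nat.card {d : 𝓞 K // Squarefree d ∧ m ∣ d - u ∧ |Algebra.norm ℤ d| ≤ X} : ℝ) := by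
  obtain ⟨h1, h3, h6⟩ := hE
  obtain ⟨a, ha⟩ : ∃ a, a = E.a₂ := ⟨_, rfl⟩
  obtain ⟨b, hb⟩ : ∃ b, b = E.a₄ := ⟨_, rfl⟩
  have hE : E = crv a b := WeierstrassCurve.ext h1 ha.symm h3 hb.symm h6
  rw [← hb] at hT
  have hΔ' := hΔ
  have hj' := hj
  rw [hE] at hΔ' hj'
  rw [Pool.Agent.Lib.MP_1a91b9_ntY.crv_Δ] at hΔ' hj'
  rw [Pool.Agent.Lib.MP_1a91b9_ntY.crv_c₄] at hj'
  have key := stab_new K hK a b (by
      intro h
      refine hΔ' ?_
      linear_combination 16 * b * h) j D hjD (by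
      have h16 : (16 : K) ≠ 0 := by norm_num
      refine mul_left_cancel₀ h16 ?_
      linear_combination hj') hD l hl F hF T h0 hT n m u hm hu c hc t v hv
  have hneg : D < 0 := by
    simp only [List.mem_cons, Prod.mk.injEq, List.not_mem_nil, or_false] at hjD
    omega
  have _ : Finite (𝓞 K)ˣ := by
    obtain ⟨s, hs⟩ := hD
    exact Pool.Agent.Lib.MP_1a91b9_ntW.J.finite_units hK
      (Pool.Agent.Lib.MP_1a91b9_ntW.J.no_real hs hneg)
  have key' : Pool.Agent.Lib.MP_1a91b9_ntW.J.PropGE K m u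
      (fun d => (t : ℕ∞) ≤ {δ ∈ T | StbN a b F ((δ : K) * (d : K))}.encard) v := key
  refine (key'.mono fun d _ _ h => h.trans (Set.encard_le_encard ?_)) ε hε
  rintro δ ⟨hδ, h⟩
  refine ⟨hδ, fun F' _ _ _ x hx hgen => ?_⟩
  have h2 : Stb (E.baseChange F) ((E.baseChange F).baseChange F') ∧
      NoNew F ((E.baseChange F).baseChange F') := by
    rw [hE]
    exact h F' x hx hgen
  obtain ⟨h2, h2'⟩ := h2
  refine ⟨h2.1, h2', fun hE0 hF1 => ?_⟩
  obtain ⟨s, hs⟩ := s2_of hjD (by rw [← hE0]; exact hj) hD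
  have h4 : E.baseChange F = E0 F := by
    rw [hE0]
    exact E0_map (algebraMap K F)
  exact ((R2_K r2_K8 hK hs).of_one hF1).up h4 h2

end

end Pool.Agent.Lib.MP_1a91b9_ntC
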