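import Pool.Agent.Lib.MP_1a91b9_ntC.LProd
import Pool.Agent.Lib.MP_1a91b9_ntW.J.StarG
import Pool.Agent.Lib.MP_1a91b9_ntW.J.Main4
import Pool.Agent.Lib.MP_1a91b9_ntV.J.Main7
import Pool.Agent.Lib.MP_1a91b9_ntY.Q3
import Pool.Agent.Lib.MP_1a91b9_ntY.Q4x

/-!
# The L-series over a quadratic extension, for every elliptic curve with complex multiplication over the
quadratic field `K` and a `K`-rational point of order two
-/

set_option autoImplicit false

namespace Pool.Agent.Lib.MP_1a91b9_ntC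

open NumberField WeierstrassCurve
open Pool.Agent.Lib.MP_1a91b9_nuI (HasJ E2 LFunction_two)
open Pool.Agent.Lib.MP_1a91b9_ntL (crv)
open Pool.Agent.Lib.MP_1a91b9_ntW.J (twd twd_crv twd_vc twd_hasJ twd_map hasJ_map Inv2)
open Pool.Agent.Lib.MP_1a91b9_nuX.GL (EllK)
open Pool.Agent.Lib.MP_1a91b9_nuX.PH (Fm fm_up)

noncomputable section

/-- The product formula for the L-series of `W` over the quadratic extensions of the extensions of
`K`. -/
def QL {K : Type} [Field K] (W : WeierstrassCurve K) : Prop :=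
  ∀ (F F' : Type) [Field F] [NumberField F] [Algebra K F] [Field F'] [NumberField F'] [Algebra F F']
    (α : F) (x : F'), α ≠ 0 → x ^ 2 = algebraMap F F' α → (¬ ∃ y : F, algebraMap F F' y = x) →
    (∀ z : F', ∃ b c : F, z = algebraMap F F' b + algebraMap F F' c * x) →
    ∀ s : ℂ, 3 / 2 < s.re → ((W.map (algebraMap K F)).map (algebraMap F F')).LSeries s =
      (W.map (algebraMap K F)).LSeries s * (twd (W.map (algebraMap K F)) α).LSeries s

section
variable {K : Type} [Field K]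

theorem crv_map {F : Type} [Field F] (f : K →+* F) (a b : K) :
    (crv a b).map f = crv (f a) (f b) :=
  WeierstrassCurve.ext (map_zero _) rfl (map_zero _) rfl (map_zero _)

theorem ls_two {F : Type} [Field F] [NumberField F] {a b : F} {j j' : ℤ} (hj : HasJ (crv a b) j)
    (hj' : HasJ (crv (-2 * a) (a ^ 2 - 4 * b)) j') (s : ℂ) :
    (crv (-2 * a) (a ^ 2 - 4 * b)).LSeries s = (crv a b).LSeries s := by
  have h : (crv (-2 * a) (a ^ 2 - 4 * b)).LFunction = (crv a b).LFunction :=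
    LFunction_two a b j j' hj hj'
  unfold WeierstrassCurve.LSeries
  rw [h]

/-- The product formula is invariant under the changes of variables and the isogenies of degree two. -/
theorem inv2_ql : Inv2 (QL : WeierstrassCurve K → Prop) where
  vc := by
    intro W j hj C h F F' _ _ _ _ _ _ α x hα hx hn hgen s hs
    have h1 := h F F' α x hα hx hn hgen s hs
    have hjF : HasJ (W.map (algebraMap K F)) j := hasJ_map _ hj
    rw [← WeierstrassCurve.map_variableChange, ← WeierstrassCurve.map_variableChange,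
      Pool.Agent.Lib.MP_1a91b9_ntI.ls_vc _ _ j hjF, ← twd_vc,
      Pool.Agent.Lib.MP_1a91b9_ntI.ls_vc _ _ j (twd_hasJ hjF α),
      Pool.Agent.Lib.MP_1a91b9_ntI.ls_vc _ _ j (hasJ_map _ hjF)] at h1
    exact h1
  isg := by
    intro a b j j' hb hb' hj hj' h F F' _ _ _ _ _ _ α x hα hx hn hgen s hs
    have h1 := h F F' α x hα hx hn hgen s hs
    rw [crv_map, crv_map, twd_crv] at h1 ⊢
    obtain ⟨f, hf⟩ : ∃ f, f = algebraMap K F := ⟨_, rfl⟩
    obtain ⟨g, hg⟩ : ∃ g, g = algebraMap F F' := ⟨_, rfl⟩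
    rw [← hf, ← hg] at h1 ⊢
    have j1 : HasJ (crv (f a) (f b)) j := by
      rw [← crv_map]
      exact hasJ_map _ hj
    have j2 : HasJ (crv (f (-2 * a)) (f (a ^ 2 - 4 * b))) j' := by
      rw [← crv_map]
      exact hasJ_map _ hj'
    have j3 : HasJ (crv (g (f a)) (g (f b))) j := by
      rw [← crv_map]
      exact hasJ_map _ j1
    have j4 : HasJ (crv (g (f (-2 * a))) (g (f (a ^ 2 - 4 * b)))) j' := by
      rw [← crv_map]
      exact hasJ_map _ j2
    have j5 : HasJ (crv (α * f a) (α ^ 2 * f b)) j := by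
      have := twd_hasJ j1 α
      rwa [twd_crv] at this
    have j6 : HasJ (crv (α * f (-2 * a)) (α ^ 2 * f (a ^ 2 - 4 * b))) j' := by
      have := twd_hasJ j2 α
      rwa [twd_crv] at this
    have e1 : f (-2 * a) = -2 * f a := by rw [map_mul, map_neg, map_ofNat]
    have e2 : f (a ^ 2 - 4 * b) = f a ^ 2 - 4 * f b := by
      rw [map_sub, map_pow, map_mul, map_ofNat]
    have e3 : g (f (-2 * a)) = -2 * g (f a) := by rw [e1, map_mul, map_neg, map_ofNat]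
    have e4 : g (f (a ^ 2 - 4 * b)) = g (f a) ^ 2 - 4 * g (f b) := by
      rw [e2, map_sub, map_pow, map_mul, map_ofNat]
    have e5 : α * f (-2 * a) = -2 * (α * f a) := by
      rw [e1]
      ring
    have e6 : α ^ 2 * f (a ^ 2 - 4 * b) = (α * f a) ^ 2 - 4 * (α ^ 2 * f b) := by
      rw [e2]
      ring
    show (crv (g (f (-2 * a))) (g (f (a ^ 2 - 4 * b)))).LSeries s =
      (crv (f (-2 * a)) (f (a ^ 2 - 4 * b))).LSeries s *
        (crv (α * f (-2 * a)) (α ^ 2 * f (a ^ 2 - 4 * b))).LSeries s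
    have h2 : (crv (g (f a)) (g (f b))).LSeries s = (crv (f a) (f b)).LSeries s *
      (crv (α * f a) (α ^ 2 * f b)).LSeries s := h1
    rw [e5, e6] at j6 ⊢
    rw [e3, e4] at j4 ⊢
    rw [e1, e2] at j2 ⊢
    rw [ls_two j3 j4, ls_two j1 j2, ls_two j5 j6]
    exact h2

/-- **Transport along an isomorphism.** -/
theorem QL.tr {K' : Type} [Field K'] (e : K' ≃+* K) {W : WeierstrassCurve K'} (h : QL W) :
    QL (W.map (e : K' →+* K)) := by
  intro F F' _ _ _ _ _ _ α x hα hx hn hgen s hs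
  let _ : Algebra K' F := ((algebraMap K F).comp (e : K' →+* K)).toAlgebra
  have h1 := h F F' α x hα hx hn hgen s hs
  have e1 : (W.map (e : K' →+* K)).map (algebraMap K F) = W.map (algebraMap K' F) := by
    rw [WeierstrassCurve.map_map]
    rfl
  rw [e1]
  exact h1

end

/-- **The product formula over the fields of the class.** -/
theorem ql_cd [Pool.Agent.Lib.MP_1a91b9_nuT.CD] (hE : EllK) {p a : Pool.Agent.Lib.MP_1a91b9_nuT.K}
    (hW : Fm (crv p a)) : QL (crv p a) := by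
  intro F F' _ _ _ _ _ _ α x hα hx hn hgen s hs
  let _ : Algebra Pool.Agent.Lib.MP_1a91b9_nuT.K F' :=
    ((algebraMap F F').comp (algebraMap Pool.Agent.Lib.MP_1a91b9_nuT.K F)).toAlgebra
  have _ : IsScalarTower Pool.Agent.Lib.MP_1a91b9_nuT.K F F' :=
    IsScalarTower.of_algebraMap_eq fun _ => rfl
  have hF : Module.finrank F F' = 2 := Pool.Agent.Lib.MP_1a91b9_ntN.G.finrank_two' hn hgen
  have h1 : Fm (crv (algebraMap Pool.Agent.Lib.MP_1a91b9_nuT.K F p)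
      (algebraMap Pool.Agent.Lib.MP_1a91b9_nuT.K F a)) := by
    rw [← crv_map]
    exact fm_up hW
  have h2 := lser_quadQ hgen hα hx hE hF h1 hs
  rw [crv_map, crv_map, twd_crv]
  rw [map_zero, mul_zero] at h2
  exact h2

/-! ### The four families -/

section
variable {K : Type} [Field K] [NumberField K] (hK : Module.finrank ℚ K = 2)
include hK

section
attribute [local instance 5000] Pool.Agent.Lib.MP_1a91b9_ntQ.cd4

theorem ql_4 (hs : ∃ s : K, s ^ 2 = -1) (b : K) (hb : b ≠ 0) : QL (crv 0 b) := by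
  obtain ⟨s, hs⟩ := hs
  obtain ⟨e⟩ := Pool.Agent.Lib.MP_1a91b9_ntW.J.iso_K4 hK hs
  have h1 : QL (crv 0 (e.symm b)) := by
    refine ql_cd Pool.Agent.Lib.MP_1a91b9_ntY.ellK4' ?_
    refine Pool.Agent.Lib.MP_1a91b9_ntY.fm_K4 ?_
    rw [Ne, map_eq_zero_iff _ e.symm.injective]
    exact hb
  have h2 := h1.tr e
  rw [crv_map, map_zero] at h2
  have h3 : (e : Pool.Agent.Lib.MP_1a91b9_ntQ.K4 →+* K) (e.symm b) = b := e.apply_symm_apply b
  rwa [h3] at h2

end

section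
attribute [local instance 5000] Pool.Agent.Lib.MP_1a91b9_ntW.cd8

theorem ql_8 (hs : ∃ s : K, s ^ 2 = -2) (d : K) (hd : d ≠ 0) : QL (crv (4 * d) (2 * d ^ 2)) := by
  obtain ⟨s, hs⟩ := hs
  have hl : (Pool.Agent.Lib.MP_1a91b9_ntW.lam8 : Pool.Agent.Lib.MP_1a91b9_ntW.K8) ^ 2 = -2 := by
    have h1 := congrArg (fun x : 𝓞 Pool.Agent.Lib.MP_1a91b9_ntW.K8 =>
      (x : Pool.Agent.Lib.MP_1a91b9_ntW.K8)) Pool.Agent.Lib.MP_1a91b9_ntW.lam8_sq
    push_cast at h1
    exact h1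
  obtain ⟨e⟩ := Pool.Agent.Lib.MP_1a91b9_ntI.exists_iso_pq
    Pool.Agent.Lib.MP_1a91b9_ntW.T.finrank_K8 hK (t := 0) (n := 2) (by norm_num)
    (s := (Pool.Agent.Lib.MP_1a91b9_ntW.lam8 : Pool.Agent.Lib.MP_1a91b9_ntW.K8))
    (by rw [hl]; push_cast; ring) (s' := s) (by rw [hs]; push_cast; ring)
  have h1 : QL (crv (4 * e.symm d) (2 * e.symm d ^ 2)) := by
    refine ql_cd Pool.Agent.Lib.MP_1a91b9_ntW.J.ellK8 ?_
    refine Pool.Agent.Lib.MP_1a91b9_ntW.J.fm8 ?_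
    rw [Ne, map_eq_zero_iff _ e.symm.injective]
    exact hd
  have h2 := h1.tr e
  rw [crv_map] at h2
  have h3 : (e : Pool.Agent.Lib.MP_1a91b9_ntW.K8 →+* K) (e.symm d) = d := e.apply_symm_apply d
  rwa [map_mul, map_mul, map_pow, map_ofNat, map_ofNat, h3] at h2

end

section
attribute [local instance 5000] Pool.Agent.Lib.MP_1a91b9_ntN.cd3

theorem ql_3 (hs : ∃ s : K, s ^ 2 = -3) (d : K) (hd : d ≠ 0) :
    QL (crv (-3 * d) (3 * d ^ 2)) := by
  obtain ⟨s, hs⟩ := hs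
  have hθ : ((1 + s) / 2 : K) ^ 2 = (1 + s) / 2 - 1 := by
    field_simp
    linear_combination hs
  have hl : ((Pool.Agent.Lib.MP_1a91b9_nuT.CD.ta : 𝓞 Pool.Agent.Lib.MP_1a91b9_ntN.K3) :
      Pool.Agent.Lib.MP_1a91b9_ntN.K3) ^ 2 =
      (Pool.Agent.Lib.MP_1a91b9_nuT.CD.ta : 𝓞 Pool.Agent.Lib.MP_1a91b9_ntN.K3) - 1 := by
    have h1 := congrArg (fun x : 𝓞 Pool.Agent.Lib.MP_1a91b9_ntN.K3 =>
      (x : Pool.Agent.Lib.MP_1a91b9_ntN.K3)) Pool.Agent.Lib.MP_1a91b9_nuT.CD.quad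
    rw [Pool.Agent.Lib.MP_1a91b9_ntN.cdtr_eq3, Pool.Agent.Lib.MP_1a91b9_ntN.cdnm_eq3] at h1
    push_cast at h1
    rw [one_mul] at h1
    exact h1
  obtain ⟨e⟩ := Pool.Agent.Lib.MP_1a91b9_ntI.exists_iso_pq (K := Pool.Agent.Lib.MP_1a91b9_ntN.K3)
    (Pool.Agent.Lib.MP_1a91b9_nuT.finrank_K :
      Module.finrank ℚ Pool.Agent.Lib.MP_1a91b9_ntN.K3 = 2) hK (t := 1) (n := 1) (by norm_num)
    (s := ((Pool.Agent.Lib.MP_1a91b9_nuT.CD.ta : 𝓞 Pool.Agent.Lib.MP_1a91b9_ntN.K3) :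
      Pool.Agent.Lib.MP_1a91b9_ntN.K3))
    (by rw [hl]; push_cast; ring) (s' := (1 + s) / 2) (by rw [hθ]; push_cast; ring)
  have hd' : e.symm d ≠ 0 := by
    rw [Ne, map_eq_zero_iff _ e.symm.injective]
    exact hd
  have h1 : QL (crv (-3 * e.symm d) (3 * e.symm d ^ 2)) := by
    refine ql_cd Pool.Agent.Lib.MP_1a91b9_ntY.ellK3 ?_
    have h4 := Pool.Agent.Lib.MP_1a91b9_ntY.fm_K3 (pow_ne_zero 3 hd')
    have h5 := Pool.Agent.Lib.MP_1a91b9_ntY.shift_smul (-3 * e.symm d) (3 * e.symm d ^ 2) 0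
    have e1 : 3 * e.symm d ^ 2 - (-3 * e.symm d) ^ 2 / 3 = 0 := by ring
    have e2 : 0 - (-3 * e.symm d) * (3 * e.symm d ^ 2) / 3 + 2 * (-3 * e.symm d) ^ 3 / 27 =
        e.symm d ^ 3 := by ring
    rw [e1, e2] at h5
    refine Pool.Agent.Lib.MP_1a91b9_ntY.fm_iso
      (⟨1, -(-3 * e.symm d) / 3, 0, 0⟩ :
        VariableChange Pool.Agent.Lib.MP_1a91b9_ntN.K3)⁻¹ ?_ h4
    rw [← h5, inv_smul_smul]
    rfl
  have h2 := h1.tr e
  rw [crv_map] at h2
  have h3 : (e : Pool.Agent.Lib.MP_1a91b9_ntN.K3 →+* K) (e.symm d) = d := e.apply_symm_apply d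
  rwa [map_mul, map_mul, map_pow, map_neg, map_ofNat, h3] at h2

end

section
attribute [local instance 5000] Pool.Agent.Lib.MP_1a91b9_ntV.cd7

theorem ql_7 (hs : ∃ s : K, s ^ 2 = -7) (d : K) (hd : d ≠ 0) :
    QL (crv (21 * d) (112 * d ^ 2)) := by
  obtain ⟨s, hs⟩ := hs
  have hθ : ((1 + s) / 2 : K) ^ 2 = (1 + s) / 2 - 2 := by
    field_simp
    linear_combination hs
  obtain ⟨e, -⟩ := Pool.Agent.Lib.MP_1a91b9_ntI.iso_th
    (K := Pool.Agent.Lib.MP_1a91b9_ntV.K7) (Pool.Agent.Lib.MP_1a91b9_nuT.finrank_K :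
      Module.finrank ℚ Pool.Agent.Lib.MP_1a91b9_ntV.K7 = 2) hK
    Pool.Agent.Lib.MP_1a91b9_ntV.J.t7_sq' hθ
  have hd' : e.symm d ≠ 0 := by
    rw [Ne, map_eq_zero_iff _ e.symm.injective]
    exact hd
  have h1 : QL (crv (21 * e.symm d) (112 * e.symm d ^ 2)) := by
    refine ql_cd Pool.Agent.Lib.MP_1a91b9_ntV.J.ellK7 ?_
    refine Pool.Agent.Lib.MP_1a91b9_ntY.fm_q (δ := e.symm d / 4) ?_ ?_ ?_
    · exact div_ne_zero hd' (by norm_num)
    · show 112 * e.symm d ^ 2 - (21 * e.symm d) ^ 2 / 3 =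
        (e.symm d / 4) ^ 2 * (((-560 : ℤ) : ℤ) : Pool.Agent.Lib.MP_1a91b9_ntV.K7)
      push_cast
      ring
    · show 0 - 21 * e.symm d * (112 * e.symm d ^ 2) / 3 + 2 * (21 * e.symm d) ^ 3 / 27 =
        (e.symm d / 4) ^ 3 * (((-6272 : ℤ) : ℤ) : Pool.Agent.Lib.MP_1a91b9_ntV.K7)
      push_cast
      ring
  have h2 := h1.tr e
  rw [crv_map] at h2
  have h3 : (e : Pool.Agent.Lib.MP_1a91b9_ntV.K7 →+* K) (e.symm d) = d := e.apply_symm_apply d
  rwa [map_mul, map_mul, map_pow, map_ofNat, map_ofNat, h3] at h2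

end

/-- **The product formula for every curve of the class.** -/
theorem ql_all {W : WeierstrassCurve K} (hW : Pool.Agent.Lib.MP_1a91b9_ntY.CMK W)
    (hP : Pool.Agent.Lib.MP_1a91b9_ntY.Pt2 W) : QL W :=
  inv2_ql.star hK (ql_4 hK) (ql_8 hK) (ql_3 hK) (ql_7 hK) hW hP

end

end

end Pool.Agent.Lib.MP_1a91b9_ntC
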