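import Pool.Agent.Lib.MP_1a91b9_nt.TwistRank

/-!
# The rank over a quadratic extension if the twist has finitely many points

`F' = F(√α)` is quadratic over `F`, `W'` is the twist of `W` by `α`, and `W'(F)` is finite. Then `W` has the same
rank over `F'` as over `F`.
-/

set_option autoImplicit false

namespace Pool.Agent.Lib.MP_1a91b9_ntC

open WeierstrassCurve Pool.Agent.Lib.MP_1a91b9_nt

universe u

/-- the rank does not depend on the decision of equality -/
theorem rank_eq_mwRank {F : Type u} [Field F] [inst : DecidableEq F] (W : WeierstrassCurve F) :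
    Module.rank ℤ W.toAffine.Point = mwRank W := by
  obtain rfl : inst = Classical.decEq F := Subsingleton.elim _ _
  rfl

theorem mwRank_of_finite {F : Type u} [Field F] (W : WeierstrassCurve F)
    (h : Finite W.toAffine.Point) : mwRank W = 0 := by
  let _ : DecidableEq F := Classical.decEq F
  rw [← rank_eq_mwRank, rank_eq_zero_iff]
  intro P
  obtain ⟨n, hn, h2⟩ := isOfFinAddOrder_iff_nsmul_eq_zero.1 (isOfFinAddOrder_of_finite P)
  exact ⟨n, by exact_mod_cast hn.ne', by rw [natCast_zsmul]; exact h2⟩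

/-- **The rank over a quadratic extension.** -/
theorem rank_quad {F F' : Type u} [Field F] [NumberField F] [Field F'] [NumberField F']
    [Algebra F F'] (W W' : WeierstrassCurve F) (α : F) (h4 : W'.c₄ = α ^ 2 * W.c₄)
    (h6 : W'.c₆ = α ^ 3 * W.c₆) (hα : ¬ IsSquare α) (hF : Module.finrank F F' = 2) (δ : F')
    (hδ : δ ^ 2 = algebraMap F F' α) (hfin : Finite W'.toAffine.Point) :
    mwRank (W.baseChange F') = mwRank W := by
  have hα0 : α ≠ 0 := by
    rintro rfl
    exact hα ⟨0, by rw [mul_zero]⟩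
  rw [mwRank_twist W W' α hα0 h4 h6 hα hF δ hδ, mwRank_of_finite W' hfin, add_zero]

/-- **The rank over a quadratic extension, for the curves `y² = x³ + a x² + b x`.** -/
theorem finrank_quad {F F' : Type u} [Field F] [NumberField F] [DecidableEq F] [Field F']
    [NumberField F'] [DecidableEq F'] [Algebra F F'] (a b α : F) (hα : ¬ IsSquare α)
    (hF : Module.finrank F F' = 2) (δ : F') (hδ : δ ^ 2 = algebraMap F F' α)
    (hfin : Finite (⟨0, α * a, 0, α ^ 2 * b, 0⟩ : WeierstrassCurve F).toAffine.Point) :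
    Module.finrank ℤ
        (⟨0, algebraMap F F' a, 0, algebraMap F F' b, 0⟩ : WeierstrassCurve F').toAffine.Point =
      Module.finrank ℤ (⟨0, a, 0, b, 0⟩ : WeierstrassCurve F).toAffine.Point := by
  have h := rank_quad (F' := F') (⟨0, a, 0, b, 0⟩ : WeierstrassCurve F) ⟨0, α * a, 0, α ^ 2 * b, 0⟩ α
    (by
      unfold WeierstrassCurve.c₄ WeierstrassCurve.b₂ WeierstrassCurve.b₄
      ring)
    (by
      unfold WeierstrassCurve.c₆ WeierstrassCurve.b₂ WeierstrassCurve.b₄ WeierstrassCurve.b₆
      ring) hα hF δ hδ hfin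
  have e : (⟨0, a, 0, b, 0⟩ : WeierstrassCurve F).baseChange F' =
      ⟨0, algebraMap F F' a, 0, algebraMap F F' b, 0⟩ := by
    refine WeierstrassCurve.ext ?_ rfl ?_ rfl ?_
    · exact map_zero _
    · exact map_zero _
    · exact map_zero _
  rw [e] at h
  unfold Module.finrank
  rw [rank_eq_mwRank, rank_eq_mwRank, h]

/-- If `α = δ²` is a square in `F` then `δ` is in `F`. -/
theorem isSquare_of_mem {F F' : Type u} [Field F] [Field F'] [Algebra F F'] {α : F} {δ : F'}
    (hδ : δ ^ 2 = algebraMap F F' α) (h : IsSquare α) : ∃ y : F, algebraMap F F' y = δ := by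
  obtain ⟨c, rfl⟩ := h
  rw [map_mul, ← sq] at hδ
  rcases sq_eq_sq_iff_eq_or_eq_neg.1 hδ with h | h
  · exact ⟨c, h.symm⟩
  · exact ⟨-c, by rw [map_neg, h]⟩

end Pool.Agent.Lib.MP_1a91b9_ntC
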