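import Pool.Agent.Lib.MP_1a91b9_ntC.LAll
import Pool.Agent.Lib.MP_1a91b9_ntC.RkQ
import Pool.Agent.Lib.MP_1a91b9_ntW.J.Mono
import Pool.Agent.Lib.MP_1a91b9_ntW.J.KFin
import Pool.Agent.Lib.MP_1a91b9_ntI.TrLs

/-!
# Stability of the rank and of the order of vanishing over the quadratic extensions `F(√d)` of a finite
extension `F` of `K` generated by square roots (or fourth roots), for a positive proportion of the `d`
-/

set_option autoImplicit false

namespace Pool.Agent.Lib.MP_1a91b9_ntC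

open NumberField WeierstrassCurve
open Pool.Agent.Lib.MP_1a91b9_nuI (HasJ)
open Pool.Agent.Lib.MP_1a91b9_ntL (crv)
open Pool.Agent.Lib.MP_1a91b9_ntW.J (RkZ PropGE twd twd_crv)

noncomputable section

open Classical in
/-- the rank of the group of points -/
def rk {F : Type} [Field F] (W : WeierstrassCurve F) : ℕ := Module.finrank ℤ W.toAffine.Point

/-- The L-series of `W'` over `F'` is the product of the L-series of `W` over `F` and an entire function
which is not zero at `1`, and the ranks are equal. -/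
def Stb {F F' : Type} [Field F] [NumberField F] [Field F'] [NumberField F']
    (W : WeierstrassCurve F) (W' : WeierstrassCurve F') : Prop :=
  (∃ g : ℂ → ℂ, Differentiable ℂ g ∧ g 1 ≠ 0 ∧ ∀ s : ℂ, 3 / 2 < s.re →
    W'.LSeries s = W.LSeries s * g s) ∧ rk W' = rk W

/-- The ranks over isomorphic fields. -/
theorem rk_bij {F F' : Type} [Field F] [NumberField F] [Field F'] [NumberField F'] [Algebra F F']
    (hb : Function.Bijective (algebraMap F F')) (W : WeierstrassCurve F) :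
    rk (W.map (algebraMap F F')) = rk W := by
  classical
  have e : F ≃ₐ[F] F' := AlgEquiv.ofBijective (Algebra.ofId F F') hb
  have hi : Function.Injective (Affine.Point.map (W' := W.toAffine) (e : F →ₐ[F] F')) :=
    Affine.Point.map_injective _
  have hs : Function.Surjective (Affine.Point.map (W' := W.toAffine) (e : F →ₐ[F] F')) := by
    intro P
    refine ⟨Affine.Point.map (W' := W.toAffine) (e.symm : F' →ₐ[F] F) P, ?_⟩
    rw [Affine.Point.map_map]
    have h1 : (e : F →ₐ[F] F').comp (e.symm : F' →ₐ[F] F) = AlgHom.id F F' := by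
      ext x
      simp
    rw [h1]
    exact Affine.Point.map_id P
  have h1 := (AddEquiv.ofBijective _ ⟨hi, hs⟩).toIntLinearEquiv.finrank_eq
  have h2 : W.baseChange F = W := WeierstrassCurve.map_id W
  have h3 : rk (W.baseChange F) = rk (W.baseChange F') := h1
  rw [h2] at h3
  exact h3.symm

/-- the step -/
theorem stb_step {K : Type} [Field K] {a b : K} (hQ : QL (crv a b)) {j : ℤ}
    (hj : HasJ (crv a b) j) {F F' : Type} [Field F] [NumberField F] [Algebra K F] [Field F']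
    [NumberField F'] [Algebra F F'] {d : K} {x : F'} (hd : d ≠ 0)
    (hx : x ^ 2 = algebraMap F F' (algebraMap K F d))
    (hgen : IntermediateField.adjoin F {x} = ⊤)
    (hV : RkZ (⟨0, algebraMap K F (d * a), 0, algebraMap K F (d ^ 2 * b), 0⟩ :
      WeierstrassCurve F)) :
    Stb ((crv a b).map (algebraMap K F)) (((crv a b).map (algebraMap K F)).map (algebraMap F F')) := by
  by_cases hn : ∃ y : F, algebraMap F F' y = x
  · -- the extension is trivial
    have hb : Function.Bijective (algebraMap F F') := by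
      refine ⟨(algebraMap F F').injective, fun z => ?_⟩
      have hz : z ∈ IntermediateField.adjoin F {x} := by
        rw [hgen]
        exact IntermediateField.mem_top
      obtain ⟨y, rfl⟩ := hn
      have h1 : IntermediateField.adjoin F {algebraMap F F' y} = ⊥ := by
        rw [IntermediateField.adjoin_eq_bot_iff, Set.singleton_subset_iff]
        exact IntermediateField.mem_bot.2 ⟨y, rfl⟩
      rw [h1] at hz
      exact IntermediateField.mem_bot.1 hz
    refine ⟨⟨fun _ => 1, differentiable_const 1, one_ne_zero, fun s hs => ?_⟩, rk_bij hb _⟩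
    rw [mul_one]
    exact Pool.Agent.Lib.MP_1a91b9_ntI.ls_e_hasJ (RingEquiv.ofBijective (algebraMap F F') hb)
      (Pool.Agent.Lib.MP_1a91b9_ntW.J.hasJ_map _ hj) s
  · have hgen' := quad_gen hx hgen
    obtain ⟨⟨g, k1, k2, k3⟩, k4⟩ := hV
    have hα : algebraMap K F d ≠ 0 := by
      rw [Ne, map_eq_zero]
      exact hd
    have e1 : twd ((crv a b).map (algebraMap K F)) (algebraMap K F d) =
        (⟨0, algebraMap K F (d * a), 0, algebraMap K F (d ^ 2 * b), 0⟩ : WeierstrassCurve F) := by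
      rw [crv_map, twd_crv, map_mul, map_mul, map_pow]
    refine ⟨⟨g, k1, k3, fun s hs => ?_⟩, ?_⟩
    · rw [k2 s hs, hQ F F' _ x hα hx hn hgen' s hs, e1]
    · classical
      have hsq : ¬ IsSquare (algebraMap K F d) := fun h => hn (isSquare_of_mem hx h)
      have h1 := finrank_quad (F' := F') (algebraMap K F a) (algebraMap K F b) (algebraMap K F d)
        hsq (Pool.Agent.Lib.MP_1a91b9_ntN.G.finrank_two' hn hgen') x hx (by
          rw [map_mul, map_mul, map_pow] at k4
          exact k4)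
      rw [crv_map, crv_map]
      exact h1

/-- the property of `d` -/
def StbX {K : Type} [Field K] (a b : K) (F : Type) [Field F] [NumberField F] [Algebra K F] (d : K) :
    Prop :=
  ∀ (F' : Type) [Field F'] [NumberField F'] [Algebra F F'] (x : F'),
    x ^ 2 = algebraMap F F' (algebraMap K F d) → IntermediateField.adjoin F {x} = ⊤ →
    Stb ((crv a b).map (algebraMap K F)) (((crv a b).map (algebraMap K F)).map (algebraMap F F'))

open Classical in
/-- **Stability.** -/
theorem stab_final (K : Type) [Field K] [NumberField K] (hK : Module.finrank ℚ K = 2)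
    (a b : K) (hE : b * (a ^ 2 - 4 * b) ≠ 0) (j D : ℤ)
    (hjD : (j, D) ∈ [((0 : ℤ), (-3 : ℤ)), (54000, -3), (-12288000, -3), (1728, -4), (287496, -4),
      (-3375, -7), (16581375, -7), (8000, -8), (-32768, -11), (-884736, -19), (-884736000, -43),
      (-147197952000, -67), (-262537412640768000, -163)])
    (hj : 256 * (a ^ 2 - 3 * b) ^ 3 = j * (b ^ 2 * (a ^ 2 - 4 * b))) (hD : ∃ s : K, s ^ 2 = D)
    (l : ℕ) (hl : l = 2 ∨ l = 4 ∧ ∃ i : K, i ^ 2 = -1)
    (F : Type) [Field F] [NumberField F] [Algebra K F]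
    (hF : IntermediateField.adjoin K {x : F | ∃ c : K, x ^ l = algebraMap K F c} = ⊤)
    (n : ℕ) (m u : 𝓞 K) (hm : m ∣ 2 ^ n) (hu : ∀ p, Prime p → ¬ (p ^ 2 ∣ m ∧ p ^ 2 ∣ u))
    (c : ℝ)
    (hc : c = if Prime (2 : 𝓞 K) then (if ∃ x : F, x ^ 2 = -1 then
        √((∏' i : ℕ, (1 + 1 / (2 : ℝ) ^ (2 * i + 1))⁻¹) / 2) else
        ∏' i : ℕ, (1 + 1 / (2 : ℝ) ^ (2 * i + 1))⁻¹) else
      if Squarefree (2 : 𝓞 K) then ∏' i : ℕ, (1 - 1 / (2 : ℝ) ^ (i + 1)) else
      ∏' i : ℕ, (1 + 1 / (2 : ℝ) ^ (i + 1))⁻¹) (ε : ℝ) (hε : 0 < ε) :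
    ∀ᶠ X : ℝ in Filter.atTop, c ^ Module.finrank K F - ε ≤
      (Nat.card {d : 𝓞 K // Squarefree d ∧ m ∣ d - u ∧ |Algebra.norm ℤ d| ≤ X ∧
        StbX a b F (d : K)} : ℝ) /
        (Nat.card {d : 𝓞 K // Squarefree d ∧ m ∣ d - u ∧ |Algebra.norm ℤ d| ≤ X} : ℝ) := by
  have hneg : D < 0 := by
    simp only [List.mem_cons, Prod.mk.injEq, List.not_mem_nil, or_false] at hjD
    rcases hjD with ⟨-, rfl⟩ | ⟨-, rfl⟩ | ⟨-, rfl⟩ | ⟨-, rfl⟩ | ⟨-, rfl⟩ | ⟨-, rfl⟩ | ⟨-, rfl⟩ |
      ⟨-, rfl⟩ | ⟨-, rfl⟩ | ⟨-, rfl⟩ | ⟨-, rfl⟩ | ⟨-, rfl⟩ | ⟨-, rfl⟩ <;> norm_num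
  obtain ⟨s, hs⟩ := hD
  have _ : Finite (𝓞 K)ˣ := Pool.Agent.Lib.MP_1a91b9_ntW.J.finite_units hK
    (Pool.Agent.Lib.MP_1a91b9_ntW.J.no_real hs hneg)
  have hb : b ≠ 0 := left_ne_zero_of_mul hE
  have hb' : a ^ 2 - 4 * b ≠ 0 := right_ne_zero_of_mul hE
  have hJ : HasJ (crv a b) j := by
    refine Pool.Agent.Lib.MP_1a91b9_ntY.hasJ_crv ?_
    linear_combination 16 * hj
  have hW : Pool.Agent.Lib.MP_1a91b9_ntY.CMK (crv a b) := by
    refine ⟨?_, j, D, s, hjD, hs, hJ⟩
    rw [Pool.Agent.Lib.MP_1a91b9_ntY.crv_Δ]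
    exact mul_ne_zero (mul_ne_zero (by norm_num) (pow_ne_zero 2 hb)) hb'
  have hP : Pool.Agent.Lib.MP_1a91b9_ntY.Pt2 (crv a b) := by
    refine ⟨0, ?_⟩
    unfold crv WeierstrassCurve.b₂ WeierstrassCurve.b₄ WeierstrassCurve.b₆
    ring
  have hQ := ql_all hK hW hP
  have h1 : PropGE K m u (fun d => ∀ W : WeierstrassCurve F,
      W = ⟨0, algebraMap K F (d * a), 0, algebraMap K F ((d : K) ^ 2 * b), 0⟩ → RkZ W)
      (c ^ Module.finrank K F) := fun ε hε =>
    Pool.Agent.Lib.MP_1a91b9_ntW.J.kstar_final K hK a b hE j D hjD hj ⟨s, hs⟩ l hl F hF n m u hm hu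
      c hc ε hε
  refine (h1.mono fun d hd _ hV => ?_) ε hε
  intro F' _ _ _ x hx hgen
  exact stb_step hQ hJ (by exact_mod_cast hd.ne_zero) hx hgen (hV _ rfl)

end

end Pool.Agent.Lib.MP_1a91b9_ntC
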