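import Pool.Agent.Lib.MP_1a91b9_ntC.Bas
import Pool.Agent.Lib.MP_1a91b9_ntC.StabT

/-!
# MP_1a91b9_nt (the relative conjecture): the result
-/

set_option autoImplicit false

namespace Pool.Agent.Lib.MP_1a91b9_ntC

open NumberField WeierstrassCurve IsDedekindDomain
open Pool.Agent.Lib.MP_1a91b9_ntW (K8 WW)
open Pool.Agent.Lib.MP_1a91b9_ntL (crv)

noncomputable section

open Classical in
/-- **The result.** -/
theorem fin_rel (K : Type) [Field K] [NumberField K] (hK : Module.finrank ℚ K = 2)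
    (E : WeierstrassCurve K) (hE : E.a₁ = 0 ∧ E.a₃ = 0 ∧ E.a₆ = 0) (hΔ : E.Δ ≠ 0) (j D : ℤ)
    (hjD : (j, D) ∈ [(0, -3), (54000, -3), (-12288000, -3), (1728, -4), (287496, -4), (-3375, -7),
      (16581375, -7), (8000, -8), (-32768, -11), (-884736, -19), (-884736000, -43),
      (-147197952000, -67), (-262537412640768000, -163)])
    (hj : E.c₄ ^ 3 = j * E.Δ) (hD : ∃ s : K, s ^ 2 = D)
    (l : ℕ) (hl : l = 2 ∨ l = 4 ∧ ∃ i : K, i ^ 2 = -1)
    (F : Type) [Field F] [NumberField F] [Algebra K F]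
    (hF : IntermediateField.adjoin K {x : F | ∃ c : K, x ^ l = algebraMap K F c} = ⊤)
    (T : Set (𝓞 K)) (h0 : 0 ∉ T)
    (hT : ∀ δ ∈ T, ∀ δ' ∈ T, δ ≠ δ' → ∀ e ∈ ({1, -1, E.a₄, -E.a₄} : Set K), ∀ x : F, x ≠ 0 →
      x ^ 2 * algebraMap K F δ' ≠ algebraMap K F (e * δ))
    (n : ℕ) (m u : 𝓞 K) (hm : m ∣ 2 ^ n) (hu : ∀ q, Prime q → ¬ (q ^ 2 ∣ m ∧ q ^ 2 ∣ u)) (c : ℝ)
    (hc : c = if Prime (2 : 𝓞 K) then (if ∃ x : F, x ^ 2 = -1 then
        √((∏' i : ℕ, (1 + 1 / (2 : ℝ) ^ (2 * i + 1))⁻¹) / 2) else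
        ∏' i : ℕ, (1 + 1 / (2 : ℝ) ^ (2 * i + 1))⁻¹) else
      if Squarefree (2 : 𝓞 K) then ∏' i : ℕ, (1 - 1 / (2 : ℝ) ^ (i + 1)) else
      ∏' i : ℕ, (1 + 1 / (2 : ℝ) ^ (i + 1))⁻¹) (t : ℕ) (v : ℝ)
    (hv : v = if T.Infinite then 1 else ∑ j ∈ Finset.Icc t T.ncard, (T.ncard.choose j : ℝ) *
      (c ^ Module.finrank K F) ^ j * (1 - c ^ Module.finrank K F) ^ (T.ncard - j))
    (ε : ℝ) (hε : 0 < ε) :
    ∀ᶠ X : ℝ in Filter.atTop, v - ε ≤
      (Nat.card {d : 𝓞 K // Squarefree d ∧ m ∣ d - u ∧ |Algebra.norm ℤ d| ≤ X ∧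
        t ≤ {δ ∈ T |
          (∀ (F' : Type) [Field F'] [NumberField F'] [Algebra F F'] (x : F'),
            x ^ 2 = algebraMap F F' (algebraMap K F (δ * d)) →
            IntermediateField.adjoin F {x} = ⊤ →
            (∀ x' y' : F', ((E.baseChange F).baseChange F').toAffine.Equation x' y' →
              ∃ x y : F, algebraMap F F' x = x' ∧ algebraMap F F' y = y') ∧
            (E = ⟨0, 4, 0, 2, 0⟩ → Module.finrank K F = 1 →
              (∃ h : ℂ → ℂ, Differentiable ℂ h ∧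
                (∀ s : ℂ, 3 / 2 < s.re → h s = ((E.baseChange F).baseChange F').LSeries s) ∧
                analyticOrderAt h 1 = 2) ∧
              Module.finrank ℤ ((E.baseChange F).baseChange F').toAffine.Point = 2)) ∧
          ∀ V : WeierstrassCurve F,
            V = ⟨0, algebraMap K F (E.a₂ * (δ * d)), 0, algebraMap K F (E.a₄ * (δ * d) ^ 2), 0⟩ →
            ∃ S : Finset ℕ, ∀ (q : ℕ) [Fact q.Prime], q ∉ S →
            ∀ (k : ℕ) (L M : Type) [Field L] [NumberField L] [Field M] [NumberField M]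
              [Algebra F L] [Algebra L M] [Algebra F M] [IsScalarTower F L M] [IsGalois F M],
              Module.finrank F M = q ^ k →
            (∀ (v : HeightOneSpectrum (𝓞 F)) (w : HeightOneSpectrum (𝓞 L)),
              v.asIdeal.map (algebraMap (𝓞 F) (𝓞 L)) ≤ w.asIdeal ^ 2 →
                ((q : 𝓞 F) ∈ v.asIdeal →
                  Ideal.absNorm (v.asIdeal.comap (algebraMap (𝓞 K) (𝓞 F))) = q) ∧
                ((q : 𝓞 F) ∉ v.asIdeal → ∀ (V₀ : WeierstrassCurve (𝓞 F))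
                  (C₀ : WeierstrassCurve.VariableChange F),
                  C₀ • V = V₀.map (algebraMap (𝓞 F) F) → V₀.Δ ∉ v.asIdeal →
                    ¬ q ∣ Nat.card (V₀.map (Ideal.Quotient.mk v.asIdeal)).toAffine.Point)) →
            ∀ (L' : Type) [Field L'] [NumberField L'] [Algebra L L'] (y : L'),
              y ^ 2 = algebraMap L L' (algebraMap F L (algebraMap K F (δ * d))) →
              IntermediateField.adjoin L {y} = ⊤ →
            ∀ (W : WeierstrassCurve L) (W' : WeierstrassCurve L'),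
              W = (E.baseChange F).baseChange L → W' = W.baseChange L' →
              (∃ g : ℂ → ℂ, Differentiable ℂ g ∧ g 1 ≠ 0 ∧
                (∀ s : ℂ, 3 / 2 < s.re → W'.LSeries s = W.LSeries s * g s) ∧
                ∃ r : ℚ, (IsCoprime r.num (q : ℤ) ∧ r.den.Coprime q) ∧
                  g 1 * ((√|(discr L' : ℝ)| /
                      Pool.Agent.Lib.MP_1a91b9_nuT.S9.period W' : ℝ) : ℂ) =
                    (r : ℂ) * ((√|(discr L : ℝ)| /
                      Pool.Agent.Lib.MP_1a91b9_nuT.S9.period W : ℝ) : ℂ)) ∧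
              Module.finrank ℤ W'.toAffine.Point = Module.finrank ℤ W.toAffine.Point ∧
              ((AddSubgroup.closure {P : W'.toAffine.Point | ∃ (x y : L)
                (h : W'.toAffine.Nonsingular (algebraMap L L' x) (algebraMap L L' y)),
                P = WeierstrassCurve.Affine.Point.some _ _ h}).index).Coprime q ∧
              (∀ v : HeightOneSpectrum (𝓞 L),
                (Pool.Agent.Lib.MP_1a91b9_nuT.S9.tam W v).Coprime q) ∧
              (∀ v : HeightOneSpectrum (𝓞 L'),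
                (Pool.Agent.Lib.MP_1a91b9_nuT.S9.tam W' v).Coprime q) ∧
              Nonempty (Pool.Agent.Lib.MP_1a91b9_nuT3.S9.ShaP q W' ≃+
                Pool.Agent.Lib.MP_1a91b9_nuT3.S9.ShaP q W)}.encard} : ℝ) /
        (Nat.card {d : 𝓞 K // Squarefree d ∧ m ∣ d - u ∧ |Algebra.norm ℤ d| ≤ X} : ℝ) := by
  obtain ⟨h1, h3, h6⟩ := hE
  obtain ⟨a, ha⟩ : ∃ a, a = E.a₂ := ⟨_, rfl⟩
  obtain ⟨b, hb⟩ : ∃ b, b = E.a₄ := ⟨_, rfl⟩
  have hE : E = crv a b := WeierstrassCurve.ext h1 ha.symm h3 hb.symm h6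
  rw [← hb] at hT
  have hΔ' := hΔ
  have hj' := hj
  rw [hE] at hΔ' hj'
  rw [Pool.Agent.Lib.MP_1a91b9_ntY.crv_Δ] at hΔ' hj'
  rw [Pool.Agent.Lib.MP_1a91b9_ntY.crv_c₄] at hj'
  have key := stab_tow K hK a b (by
      intro h
      refine hΔ' ?_
      linear_combination 16 * b * h) j D hjD (by
      have h16 : (16 : K) ≠ 0 := by norm_num
      refine mul_left_cancel₀ h16 ?_
      linear_combination hj') hD l hl F hF T h0 hT n m u hm hu c hc t v hv
  have hneg : D < 0 := by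
    simp only [List.mem_cons, Prod.mk.injEq, List.not_mem_nil, or_false] at hjD
    omega
  have _ : Finite (𝓞 K)ˣ := by
    obtain ⟨s, hs⟩ := hD
    exact Pool.Agent.Lib.MP_1a91b9_ntW.J.finite_units hK
      (Pool.Agent.Lib.MP_1a91b9_ntW.J.no_real hs hneg)
  have key' : Pool.Agent.Lib.MP_1a91b9_ntW.J.PropGE K m u
      (fun d => (t : ℕ∞) ≤ {δ ∈ T | StbTw a b F ((δ : K) * (d : K))}.encard) v := key
  refine (key'.mono fun d _ _ h => h.trans (Set.encard_le_encard ?_)) ε hε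
  rintro δ ⟨hδ, h⟩
  refine ⟨hδ, fun F' _ _ _ x hx hgen => ?_, ?_⟩
  · have h2 : Stb (E.baseChange F) ((E.baseChange F).baseChange F') ∧
        NoNew F ((E.baseChange F).baseChange F') := by
      rw [hE]
      exact h.1 F' x hx hgen
    obtain ⟨h2, h2'⟩ := h2
    refine ⟨h2', fun hE0 hF1 => ?_⟩
    obtain ⟨s, hs⟩ := s2_of hjD (by rw [← hE0]; exact hj) hD
    have h4 : E.baseChange F = E0 F := by
      rw [hE0]
      exact E0_map (algebraMap K F)
    exact ((R2_K r2_K8 hK hs).of_one hF1).up h4 h2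
  · intro V hV
    have hV' : V = (⟨0, algebraMap K F (((δ : K) * (d : K)) * a), 0,
        algebraMap K F (((δ : K) * (d : K)) ^ 2 * b), 0⟩ : WeierstrassCurve F) := by
      rw [hV, ha, hb, mul_comm E.a₂, mul_comm E.a₄]
    obtain ⟨S, hS⟩ := h.2
    refine ⟨S, fun q _ hq k L M _ _ _ _ _ _ _ _ _ hM hram L' _ _ _ y hy hgen W W' hW hW' => ?_⟩
    rw [hV'] at hram
    have h3 := hS q hq k L M hM hram L' y hy hgen
    have e1 : ((crv a b).map (algebraMap K F)).map (algebraMap F L) = W := by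
      rw [hW, hE]
      rfl
    rw [e1] at h3
    rw [hW']
    exact h3

end

end Pool.Agent.Lib.MP_1a91b9_ntC
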