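import Pool.Agent.Lib.MP_1a91b9_ntC.Defs
import Pool.Agent.Lib.MP_1a91b9_ntW.L.Top8

/-!
# MP_1a91b9_nt (positive rank): the Hecke L-series of `y² = x³ + 4 x² + 2 x` over `ℚ(√-2)` as a
double series over the integers
-/

set_option autoImplicit false

namespace Pool.Agent.Lib.MP_1a91b9_ntC

open NumberField IsDedekindDomain Finset Pool.Agent.Lib.MP_1a91b9_ntW Pool.Agent.Lib.MP_1a91b9_nuT
open Pool.Agent.Lib.MP_1a91b9_nuT.S4 (Lf)
open Pool.Agent.Lib.MP_1a91b9_ntQ (em em_add em_mul em_neg em_zero em_one em_ne em_intCast SumT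
  SumT_pos SumT_summable Sum_norm Sum_absNorm Sum_gen)

noncomputable section

/-- the sign of `ψ` at `x` -/
def sg (x : 𝓞 K8) : ℤ := ch (cp x).1 * et (cp x).2

theorem sn_snz (z : ZMod 2) : sn z = ((if z = 0 then 1 else -1 : ℤ) : ℂ) := by
  have h : z = 0 ∨ z = 1 := by
    revert z
    decide
  rcases h with rfl | rfl
  · rw [sn_zero, if_pos rfl, Int.cast_one]
  · rw [sn_one, if_neg one_ne_zero, Int.cast_neg, Int.cast_one]

theorem ch_m8 (x : ℤ) : ch x = ch (x % 8) := by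
  simp only [ch, Int.emod_emod_of_dvd x (dvd_refl 8)]

theorem et_m8 (y : ℤ) : et y = et (y % 8) := by
  have h : y % 8 % 4 = y % 4 := by omega
  simp only [et, h]

/-- the residues -/
theorem key_m8 (m n : ℤ) (h0 : 0 ≤ m) (h1 : m < 8) (h2 : 0 ≤ n) (h3 : n < 8)
    (h : prz ((m : ℤ) : ZMod 8) ((n : ℤ) : ZMod 8) = true) :
    (if lz ((m : ℤ) : ZMod 8) ((n : ℤ) : ZMod 8) = 0 then 1 else -1 : ℤ) = ch m * et n := by
  interval_cases m <;> interval_cases n <;> revert h <;> decide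

theorem X8_sg {x : 𝓞 K8} (h : Pr x) : X8 0 1 ∅ x = ((sg x : ℤ) : ℂ) := by
  have e : X8 0 1 ∅ x = sn (ll x) := by
    rw [X8, prod_empty, mul_one, th8]
    have : (0 + AS ∅ : ZMod 2) = 0 := by rw [AS, sum_empty, add_zero]
    rw [this, zero_mul, zero_add, one_mul]
  rw [e, sn_snz, sg, ch_m8, et_m8]
  rw [Pr, cz_fst_congr, cz_snd_congr] at h
  rw [ll, cz_fst_congr, cz_snd_congr]
  rw [key_m8 _ _ (Int.emod_nonneg _ (by norm_num)) (Int.emod_lt_of_pos _ (by norm_num))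
    (Int.emod_nonneg _ (by norm_num)) (Int.emod_lt_of_pos _ (by norm_num)) h]

theorem ch_ng (x : ℤ) : ch (-x) = -ch x := by
  simp only [ch]
  split_ifs <;> omega

theorem et_ng (y : ℤ) : et (-y) = et y := by
  simp only [et]
  split_ifs <;> omega

theorem sg_neg (x : 𝓞 K8) : sg (-x) = -sg x := by
  rw [sg, sg, cp_neg, Prod.fst_neg, Prod.snd_neg, ch_ng, et_ng, neg_mul]

theorem sg_even {x : 𝓞 K8} (h : lam ∣ x) : sg x = 0 := by
  have h1 := lam_dvd_iff.1 h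
  have h2 : ch (cp x).1 = 0 := by
    simp only [ch]
    split_ifs <;> omega
  rw [sg, h2, zero_mul]

/-- the summand without the sign -/
def Bt (s : ℂ) (a : 𝓞 K8) : ℂ := (starRingEnd ℂ) (em a) * ((‖em a‖ : ℝ) : ℂ) ^ (-2 * s)

theorem Bt_neg (s : ℂ) (a : 𝓞 K8) : Bt s (-a) = -Bt s a := by
  rw [Bt, Bt, em_neg, map_neg, norm_neg, neg_mul]

theorem Bt_summable {s : ℂ} (hs : 2 < s.re) : Summable (Bt s) := by
  have h := SumT_summable (1 : 𝓞 K8) 0 hs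
  refine h.congr fun a => ?_
  exact SumT_pos s (one_dvd _)

open Classical in
/-- the summand over the normalised elements -/
def Ft (s : ℂ) (a : 𝓞 K8) : ℂ := if Pr a then X8 0 1 ∅ a * Bt s a else 0

theorem Ft_add (s : ℂ) (a : 𝓞 K8) : Ft s a + Ft s (-a) = (sg a : ℂ) * Bt s a := by
  by_cases h : lam ∣ a
  · have h1 : ¬ Pr a := fun h1 => h1.odd h
    have h2 : ¬ Pr (-a) := fun h2 => h2.odd ((dvd_neg).2 h)
    rw [Ft, Ft, if_neg h1, if_neg h2, sg_even h]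
    simp
  · rcases Pr_or_neg h with h1 | h1
    · have h2 : ¬ Pr (-a) := not_Pr_neg h1
      rw [Ft, Ft, if_pos h1, if_neg h2, X8_sg h1, add_zero]
    · have h2 : ¬ Pr a := fun h3 => not_Pr_neg h3 h1
      rw [Ft, Ft, if_neg h2, if_pos h1, X8_sg h1, sg_neg, Bt_neg]
      push_cast
      ring

theorem Ft_norm_le (s : ℂ) (a : 𝓞 K8) : ‖Ft s a‖ ≤ ‖Bt s a‖ := by
  by_cases h : Pr a
  · rw [Ft, if_pos h, norm_mul]
    have h1 := (X8_chr 0 1 ∅).le a h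
    calc ‖X8 0 1 ∅ a‖ * ‖Bt s a‖ ≤ 1 * ‖Bt s a‖ := mul_le_mul_of_nonneg_right h1 (norm_nonneg _)
      _ = _ := one_mul _
  · rw [Ft, if_neg h, norm_zero]
    exact norm_nonneg _

theorem Ft_summable {s : ℂ} (hs : 2 < s.re) : Summable (Ft s) :=
  Summable.of_norm_bounded (Bt_summable hs).norm (Ft_norm_le s)

/-- the series over the ideals as a series over the normalised elements -/
theorem LG_tsum {s : ℂ} (hs : 2 < s.re) : LG Pr (X8 0 1 ∅) s = ∑' a, Ft s a := by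
  rw [(X8_chr 0 1 ∅).LG_eq s hs]
  unfold S4.Lf
  refine Sum_gen (psK Pr) ?_ ?_ ?_
  · intro I hI
    by_cases hc : IsCoprime I (Ideal.span {(4 : 𝓞 K8)})
    · exact (psK_of_coprime (P := Pr) _ hc).2
    · exfalso
      apply hI
      rw [pG_neg hc, zero_mul]
  · intro a ha
    have h1 : Pr a := by
      by_contra h
      exact ha (by rw [Ft, if_neg h])
    exact psK_span a h1
  · intro a ha
    by_cases ha0 : a = 0
    · subst ha0
      have h1 : ¬ Pr 0 := fun h => IsNor.ne_zero (P := Pr) (f := 4) h rfl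
      rw [Ft, if_neg h1, pG, ha]
      simp [em_zero]
    · have h1 : Pr a := (Gen_iff (P := Pr) ha0).1 ha
      rw [Ft, if_pos h1, pG, ha, Sum_norm, Bt]
      ring

theorem two_LG_O {s : ℂ} (hs : 2 < s.re) :
    2 * LG Pr (X8 0 1 ∅) s = ∑' a : 𝓞 K8, (sg a : ℂ) * Bt s a := by
  rw [LG_tsum hs]
  have h1 := Ft_summable hs
  have h2 : Summable fun a => Ft s (-a) := (Equiv.neg (𝓞 K8)).summable_iff.2 h1
  have h3 : ∑' a, Ft s (-a) = ∑' a, Ft s a := (Equiv.neg (𝓞 K8)).tsum_eq (Ft s)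
  rw [two_mul]
  conv_lhs => rw [← h3]
  rw [h3]
  have h4 := h1.tsum_add h2
  rw [h3] at h4
  rw [← h4]
  exact tsum_congr fun a => Ft_add s a

/-! ### The coordinates -/

theorem coE_symm (p : ℤ × ℤ) : coE.symm p = (p.1 : 𝓞 K8) + p.2 * lam := by
  rw [AddEquiv.symm_apply_eq]
  change p = cp _
  rw [cp_coords]

theorem em_lam_sq' : em lam ^ 2 = -2 := em_lam_sq

theorem Nz_norm (x : 𝓞 K8) : (((cp x).1 ^ 2 + 2 * (cp x).2 ^ 2 : ℤ) : ℝ) = ‖em x‖ ^ 2 := by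
  have h := Nz_eq x
  have h1 := Nz_cp x
  have h2 : (((Nz x : ℕ) : ℤ) : ℝ) = (Nz x : ℝ) := by norm_num
  rw [← h1, h2, h]
  rfl

theorem Bt_eq (s : ℂ) (p : ℤ × ℤ) : Bt s (coE.symm p) =
    ((p.1 : ℂ) - p.2 * em lam) * (((p.1 ^ 2 + 2 * p.2 ^ 2 : ℤ)) : ℂ) ^ (-s) := by
  have h1 : cp (coE.symm p) = p := by
    rw [coE_symm, cp_coords]
  have h2 : (((p.1 ^ 2 + 2 * p.2 ^ 2 : ℤ)) : ℂ) =
      (Ideal.absNorm (Ideal.span {(coE.symm p : 𝓞 K8)}) : ℂ) := by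
    have h3 := Nz_norm (coE.symm p)
    rw [h1, ← Sum_absNorm] at h3
    have h4 := congrArg (fun x : ℝ => (x : ℂ)) h3
    have h5 : (((p.1 ^ 2 + 2 * p.2 ^ 2 : ℤ) : ℝ) : ℂ) = ((p.1 ^ 2 + 2 * p.2 ^ 2 : ℤ) : ℂ) := by
      push_cast
      rfl
    have h6 : (((Ideal.absNorm (Ideal.span {(coE.symm p : 𝓞 K8)}) : ℕ) : ℝ) : ℂ) =
      (Ideal.absNorm (Ideal.span {(coE.symm p : 𝓞 K8)}) : ℂ) := Complex.ofReal_natCast _
    rw [← h5, ← h6]
    exact h4
  rw [h2, Sum_norm, Bt]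
  congr 1
  rw [coE_symm, em_add, em_mul, em_intCast, em_intCast, map_add, map_mul, em_lam_conj]
  rw [map_intCast, map_intCast]
  ring

/-- **The Hecke L-series as a double series.** -/
theorem two_LG {s : ℂ} (hs : 2 < s.re) : 2 * LG Pr (X8 0 1 ∅) s = ∑' p : ℤ × ℤ, tm s p := by
  rw [two_LG_O hs]
  obtain ⟨f, hf⟩ : ∃ f : ℤ × ℤ → ℂ, f = fun p => (sg (coE.symm p) : ℂ) * Bt s (coE.symm p) :=
    ⟨_, rfl⟩
  have e1 : ∑' a : 𝓞 K8, (sg a : ℂ) * Bt s a = ∑' p, f p := by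
    rw [hf]
    exact (coE.symm.toEquiv.tsum_eq fun a : 𝓞 K8 => (sg a : ℂ) * Bt s a).symm
  have hsum0 : Summable fun a : 𝓞 K8 => (sg a : ℂ) * Bt s a := by
    have h1 := Ft_summable hs
    have h2 : Summable fun a => Ft s (-a) := (Equiv.neg (𝓞 K8)).summable_iff.2 h1
    refine (h1.add h2).congr fun a => ?_
    exact Ft_add s a
  have hsum : Summable f := by
    rw [hf]
    exact coE.symm.toEquiv.summable_iff.2 hsum0
  let σ : ℤ × ℤ ≃ ℤ × ℤ := Equiv.prodCongr (Equiv.refl ℤ) (Equiv.neg ℤ)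
  have h2 : Summable fun p => f (σ p) := σ.summable_iff.2 hsum
  have h3 : ∑' p, f (σ p) = ∑' p, f p := σ.tsum_eq f
  have h4 := hsum.tsum_add h2
  rw [h3] at h4
  have h5 : ∀ p, f p + f (σ p) = 2 * tm s p := by
    intro p
    have hc : ∀ p : ℤ × ℤ, sg (coE.symm p) = ch p.1 * et p.2 := by
      intro p
      rw [sg, coE_symm, cp_coords]
    have hσ : σ p = (p.1, -p.2) := rfl
    simp only [hf]
    rw [hσ, Bt_eq, Bt_eq, hc, hc]
    simp only [et_ng]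
    rw [tm]
    have e : ((p.1 ^ 2 + 2 * (-p.2) ^ 2 : ℤ)) = p.1 ^ 2 + 2 * p.2 ^ 2 := by ring
    rw [e]
    push_cast
    ring
  rw [e1]
  have h6 : ∑' p, (f p + f (σ p)) = 2 * ∑' p, tm s p := by
    rw [← tsum_mul_left]
    exact tsum_congr h5
  rw [h6] at h4
  have h7 : (2 : ℂ) * ∑' p, tm s p = 2 * ∑' p, f p := by rw [h4]; ring
  exact (mul_left_cancel₀ two_ne_zero h7).symm

end

end Pool.Agent.Lib.MP_1a91b9_ntC
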