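import Pool.Agent.Lib.MP_1a91b9_ntW.J.Main8

/-!
# The L-series over a quadratic extension is the product of the L-series of the curve and of its twist

`lser_step`, `lser_quad` (curves in short form), `lser_quadQ` (curves `y² = x³ + p x² + a x + b`), for forms of the curve with complex
multiplication given by the class `CD`; `lser_c8`, `lord_c8`: the curves `y² = x³ + 4 δ x² + 2 δ² x`.
-/

set_option autoImplicit false

namespace Pool.Agent.Lib.MP_1a91b9_ntC

open NumberField IsDedekindDomain WeierstrassCurve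
  Pool.Agent.Lib.MP_1a91b9_nt Pool.Agent.Lib.MP_1a91b9_nuT
open Pool.Agent.Lib.MP_1a91b9_nuX.DB Pool.Agent.Lib.MP_1a91b9_nuX.GL
  Pool.Agent.Lib.MP_1a91b9_nuX.PG Pool.Agent.Lib.MP_1a91b9_nuX.PH
open Pool.Agent.Lib.MP_1a91b9_nuX Pool.Agent.Lib.MP_1a91b9_nuX.LG
open Pool.Agent.Lib.MP_1a91b9_nuX.PA (pC)
open Pool.Agent.Lib.MP_1a91b9_ntM
open Pool.Agent.Lib.MP_1a91b9_ntY

universe u

section General

variable [CD]

/-- **The step.** -/
theorem lser_step {N F : Type u} [Field N] [NumberField N] [Field F] [NumberField F]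
    [Algebra N F] [Algebra K N] [Algebra K F] {W Wa : WeierstrassCurve N}
    {W' : WeierstrassCurve F} {ps pa : Ideal (𝓞 N) → 𝓞 K} {ps' : Ideal (𝓞 F) → 𝓞 K}
    (h : PDat N W ps) (ha : PDat N Wa pa) (h' : PDat F W' ps') (hL : LocStep ps pa ps')
    {s : ℂ} (hs : 3 / 2 < s.re) : W'.LSeries s = W.LSeries s * Wa.LSeries s := by
  have e1 := Lf_step (pC ps) (pC pa) (pC ps') h.pC_one h.pC_mul h.nrm ha.pC_one ha.pC_mul ha.nrm
    h'.pC_one h'.pC_mul h'.nrm hL.complex' s hs
  have e2 := Lf_step (bC ps) (bC pa) (bC ps') h.bC_one h.bC_mul h.norm_bC ha.bC_one ha.bC_mul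
    ha.norm_bC h'.bC_one h'.bC_mul h'.norm_bC hL.complex s hs
  rw [h.ser s hs, ha.ser s hs, h'.ser s hs, e1, e2]
  ring

/-- the L-series of isomorphic curves -/
theorem lser_iso (hE : EllK) {F : Type u} [Field F] [NumberField F] [Algebra K F]
    {W W' : WeierstrassCurve F} (hW : Fm W) (C : VariableChange F) (hC : C • W = W')
    {s : ℂ} (hs : 3 / 2 < s.re) : W'.LSeries s = W.LSeries s := by
  rw [(pdatP hE hW).ser s hs, (pdatP hE (fm_iso C hC hW)).ser s hs,
    MP_1a91b9_ntY.psP_iso C hC]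

section
variable {F F' : Type u} [Field F] [NumberField F] [Field F'] [NumberField F'] [Algebra F F']
  [Algebra K F] [Algebra K F'] [IsScalarTower K F F'] {x : F'}
  (hgen : ∀ z : F', ∃ b c : F, z = algebraMap F F' b + algebraMap F F' c * x)
  {α : F} (hα : α ≠ 0) (hx : x ^ 2 = algebraMap F F' α) (hE : EllK)
  (hL : Module.finrank F F' = 2)
include hgen hα hx hE hL

/-- **The L-series over a quadratic extension**, curves in short form. -/
theorem lser_quad {a b : F} (hW : Fm (Sh F a b)) {s : ℂ} (hs : 3 / 2 < s.re) :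
    (Sh F' (algebraMap F F' a) (algebraMap F F' b)).LSeries s =
      (Sh F a b).LSeries s * (Sh F (α ^ 2 * a) (α ^ 3 * b)).LSeries s := by
  rw [← Sh_map]
  exact lser_step (pdatP hE hW) (pdatP hE (fm_twist hα hW)) (pdatP hE (fm_up hW))
    (locStepS hgen hα hx hW hE hL) hs

/-- **The L-series over a quadratic extension**, curves with a quadratic term. -/
theorem lser_quadQ {p a b : F} (hW : Fm (⟨0, p, 0, a, b⟩ : WeierstrassCurve F)) {s : ℂ}
    (hs : 3 / 2 < s.re) :
    (⟨0, algebraMap F F' p, 0, algebraMap F F' a, algebraMap F F' b⟩ :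
      WeierstrassCurve F').LSeries s =
      (⟨0, p, 0, a, b⟩ : WeierstrassCurve F).LSeries s *
        (⟨0, α * p, 0, α ^ 2 * a, α ^ 3 * b⟩ : WeierstrassCurve F).LSeries s := by
  have h1 : Fm (Sh F (a - p ^ 2 / 3) (b - p * a / 3 + 2 * p ^ 3 / 27)) :=
    fm_iso _ (shift_smul p a b) hW
  have h2 := fm_twist hα h1
  have e2 : (⟨1, -(α * p) / 3, 0, 0⟩ : VariableChange F) •
      (⟨0, α * p, 0, α ^ 2 * a, α ^ 3 * b⟩ : WeierstrassCurve F) =
      Sh F (α ^ 2 * (a - p ^ 2 / 3)) (α ^ 3 * (b - p * a / 3 + 2 * p ^ 3 / 27)) := by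
    rw [shift_smul]
    congr 1
    · ring
    · ring
  have h3 : Fm (⟨0, α * p, 0, α ^ 2 * a, α ^ 3 * b⟩ : WeierstrassCurve F) := by
    refine fm_iso (⟨1, -(α * p) / 3, 0, 0⟩ : VariableChange F)⁻¹ ?_ h2
    rw [← e2, inv_smul_smul]
  have h4 : Fm (Sh F' (algebraMap F F' (a - p ^ 2 / 3))
      (algebraMap F F' (b - p * a / 3 + 2 * p ^ 3 / 27))) := by
    have h5 := fm_up (F' := F') h1
    rw [Sh_map] at h5
    exact h5
  have e4 : (⟨1, -(algebraMap F F' p) / 3, 0, 0⟩ : VariableChange F') •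
      (⟨0, algebraMap F F' p, 0, algebraMap F F' a, algebraMap F F' b⟩ : WeierstrassCurve F') =
      Sh F' (algebraMap F F' (a - p ^ 2 / 3))
        (algebraMap F F' (b - p * a / 3 + 2 * p ^ 3 / 27)) := by
    rw [shift_smul]
    congr 1
    · simp only [map_sub, map_div₀, map_pow, map_ofNat]
    · simp only [map_sub, map_add, map_mul, map_div₀, map_pow, map_ofNat]
  have e5 : (⟨1, -(algebraMap F F' p) / 3, 0, 0⟩ : VariableChange F')⁻¹ •
      Sh F' (algebraMap F F' (a - p ^ 2 / 3))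
        (algebraMap F F' (b - p * a / 3 + 2 * p ^ 3 / 27)) =
      (⟨0, algebraMap F F' p, 0, algebraMap F F' a, algebraMap F F' b⟩ : WeierstrassCurve F') := by
    rw [← e4, inv_smul_smul]
  rw [lser_iso hE h4 _ e5 hs, lser_quad hgen hα hx hE hL h1 hs,
    lser_iso hE hW _ (shift_smul p a b) hs, lser_iso hE h3 _ e2 hs]

end

end General

/-! ### Orders of vanishing -/

/-- the order of a product in which the second factor does not vanish -/
theorem ord_mul {g k : ℂ → ℂ} (hg : Differentiable ℂ g) (hk : Differentiable ℂ k) (h1 : k 1 ≠ 0) :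
    analyticOrderAt (fun s => g s * k s) 1 = analyticOrderAt g 1 := by
  have hga : AnalyticAt ℂ g 1 := hg.analyticAt 1
  have hka : AnalyticAt ℂ k 1 := hk.analyticAt 1
  have h2 := analyticOrderAt_mul hga hka
  rw [hka.analyticOrderAt_eq_zero.2 h1, add_zero] at h2
  exact h2

/-- The L-series has an entire continuation which vanishes to the order `r` at `1`. -/
def LOrd {N : Type u} [Field N] [NumberField N] (W : WeierstrassCurve N) (r : ℕ∞) : Prop :=
  ∃ g : ℂ → ℂ, Differentiable ℂ g ∧ (∀ s : ℂ, 3 / 2 < s.re → g s = W.LSeries s) ∧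
    analyticOrderAt g 1 = r

theorem lord_zero {N : Type u} [Field N] [NumberField N] {W : WeierstrassCurve N} :
    LOrd W 0 ↔ LConcl W := by
  constructor
  · rintro ⟨g, hg, h2, h3⟩
    exact ⟨g, hg, h2, (hg.analyticAt 1).analyticOrderAt_eq_zero.1 h3⟩
  · rintro ⟨g, hg, h2, h3⟩
    exact ⟨g, hg, h2, (hg.analyticAt 1).analyticOrderAt_eq_zero.2 h3⟩

/-- the order of a product of L-series, any two orders -/
theorem lord_mul {N F : Type u} [Field N] [NumberField N] [Field F] [NumberField F]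
    {W Wa : WeierstrassCurve N} {W' : WeierstrassCurve F} {r t : ℕ∞}
    (h : ∀ s : ℂ, 3 / 2 < s.re → W'.LSeries s = W.LSeries s * Wa.LSeries s)
    (h1 : LOrd W r) (h2 : LOrd Wa t) : LOrd W' (r + t) := by
  obtain ⟨g, hg, hg2, hg3⟩ := h1
  obtain ⟨k, hk, hk2, hk3⟩ := h2
  refine ⟨fun s => g s * k s, hg.mul hk, fun s hs => ?_, ?_⟩
  · show g s * k s = _
    rw [hg2 s hs, hk2 s hs, h s hs]
  · have h2 := analyticOrderAt_mul (hg.analyticAt 1) (hk.analyticAt 1)
    rw [hg3, hk3] at h2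
    exact h2

/-! ### The curves `y² = x³ + 4 δ x² + 2 δ² x` -/

section C8

open Pool.Agent.Lib.MP_1a91b9_ntW (K8)
open Pool.Agent.Lib.MP_1a91b9_ntW.J (c8 fm8 ellK8 c8_iso RkZ)

variable {F F' : Type} [Field F] [NumberField F] [Field F'] [NumberField F'] [Algebra F F']
  [Algebra K8 F] [Algebra K8 F'] [IsScalarTower K8 F F'] {x : F'}
  (hgen : ∀ z : F', ∃ b c : F, z = algebraMap F F' b + algebraMap F F' c * x)
  {α : F} (hα : α ≠ 0) (hx : x ^ 2 = algebraMap F F' α) (hL : Module.finrank F F' = 2)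
  {δ : F} (hδ : δ ≠ 0)
include hgen hα hx hL hδ

/-- **The L-series over a quadratic extension**, the curves `y² = x³ + 4 δ x² + 2 δ² x`. -/
theorem lser_c8 {s : ℂ} (hs : 3 / 2 < s.re) :
    (c8 (algebraMap F F' δ)).LSeries s = (c8 δ).LSeries s * (c8 (α * δ)).LSeries s := by
  have h1 := lser_quadQ hgen hα hx ellK8 hL (p := 4 * δ) (a := 2 * δ ^ 2) (b := 0)
    (fm8 hδ) hs
  have e1 : c8 (algebraMap F F' δ) = (⟨0, algebraMap F F' (4 * δ), 0, algebraMap F F' (2 * δ ^ 2),
      algebraMap F F' 0⟩ : WeierstrassCurve F') := by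
    rw [c8, map_mul, map_mul, map_pow, map_zero, map_ofNat, map_ofNat]
  have e2 : c8 (α * δ) = (⟨0, α * (4 * δ), 0, α ^ 2 * (2 * δ ^ 2), α ^ 3 * 0⟩ :
      WeierstrassCurve F) := by
    rw [c8]
    congr 1
    · ring
    · ring
    · ring
  rw [e1, e2]
  exact h1

/-- **The order over a quadratic extension.** -/
theorem lord_c8 {r : ℕ∞} (h1 : LOrd (c8 δ) r) (h2 : LConcl (c8 (α * δ))) :
    LOrd (c8 (algebraMap F F' δ)) r := by
  have h3 := lord_mul (fun s hs => lser_c8 hgen hα hx hL hδ hs) h1 (lord_zero.2 h2)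
  rw [add_zero] at h3
  exact h3

end C8

/-- the elements of `F(x)`, `x ^ 2 ∈ F` -/
theorem quad_gen {F F' : Type*} [Field F] [Field F'] [Algebra F F'] {x : F'} {α : F}
    (hx : x ^ 2 = algebraMap F F' α) (htop : IntermediateField.adjoin F {x} = ⊤) (z : F') :
    ∃ b c : F, z = algebraMap F F' b + algebraMap F F' c * x := by
  have hint : IsIntegral F x := by
    refine IsIntegral.of_pow two_pos ?_
    rw [hx]
    exact isIntegral_algebraMap
  have hz : z ∈ Algebra.adjoin F {x} := by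
    have h1 := IntermediateField.adjoin_simple_toSubalgebra_of_isAlgebraic hint.isAlgebraic
    rw [← h1, htop]
    exact IntermediateField.mem_top
  induction hz using Algebra.adjoin_induction with
  | mem y hy =>
    rw [Set.mem_singleton_iff] at hy
    exact ⟨0, 1, by rw [hy, map_zero, map_one]; ring⟩
  | algebraMap r => exact ⟨r, 0, by rw [map_zero]; ring⟩
  | add y z _ _ h1 h2 =>
    obtain ⟨b, c, h1⟩ := h1
    obtain ⟨b', c', h2⟩ := h2
    refine ⟨b + b', c + c', ?_⟩
    rw [h1, h2, map_add, map_add]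
    ring
  | mul y z _ _ h1 h2 =>
    obtain ⟨b, c, h1⟩ := h1
    obtain ⟨b', c', h2⟩ := h2
    refine ⟨b * b' + c * c' * α, b * c' + b' * c, ?_⟩
    rw [h1, h2, map_add, map_add, map_mul, map_mul, map_mul, map_mul, map_mul, ← hx]
    ring

section Adj

open Pool.Agent.Lib.MP_1a91b9_ntW (K8)
open Pool.Agent.Lib.MP_1a91b9_ntW.J (c8)

/-- **The order over a quadratic extension**, `F' = F(x)`, `x ^ 2 = α`, `x` not in `F`. -/
theorem lord_adjoin {F F' : Type} [Field F] [NumberField F] [Field F'] [NumberField F']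
    [Algebra F F'] [Algebra K8 F] [Algebra K8 F'] [IsScalarTower K8 F F'] {x : F'} {α δ : F}
    (hx : x ^ 2 = algebraMap F F' α) (htop : IntermediateField.adjoin F {x} = ⊤)
    (hn : ¬ ∃ y : F, algebraMap F F' y = x) (hδ : δ ≠ 0) {r : ℕ∞} (h1 : LOrd (c8 δ) r)
    (h2 : LConcl (c8 (α * δ))) : LOrd (c8 (algebraMap F F' δ)) r := by
  have hgen := quad_gen hx htop
  have hα : α ≠ 0 := by
    rintro rfl
    refine hn ⟨0, ?_⟩
    rw [map_zero, sq, mul_self_eq_zero] at hx
    rw [map_zero, hx]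
  exact lord_c8 hgen hα hx (Pool.Agent.Lib.MP_1a91b9_ntN.G.finrank_two' hn hgen) hδ h1 h2

end Adj

end Pool.Agent.Lib.MP_1a91b9_ntC
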