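import Pool.Agent.Lib.MP_1a91b9_ntC.ThG

/-!
# The theta functions `GG t = Σ ch x * x * exp (-π x² t / 8)` and `HH t = Σ et y * exp (-π y² t / 4)`
-/

set_option autoImplicit false

open Real HurwitzZeta Set Filter Asymptotics Topology

namespace Pool.Agent.Lib.MP_1a91b9_ntC

/-- The even theta function. -/
noncomputable def HH (t : ℝ) : ℝ := 2 * evenKernel 0 (4 * t) - evenKernel 0 (t / 4)

theorem hasSum_even {t : ℝ} (ht : 0 < t) : HasSum (fun y : ℤ => rexp (-π * (y : ℝ) ^ 2 * t)) (evenKernel 0 t) := by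
  have h := hasSum_int_evenKernel 0 ht
  simpa using h

theorem hasSum_HH {t : ℝ} (ht : 0 < t) :
    HasSum (fun y : ℤ => (et y : ℝ) * rexp (-π * (y : ℝ) ^ 2 * t / 4)) (HH t) := by
  have h1 := hasSum_even (by positivity : 0 < 4 * t)
  have h2 := hasSum_even (by positivity : 0 < t / 4)
  have hinj : Function.Injective (fun n : ℤ => 4 * n) := by
    intro a b hab
    simp only at hab
    omega
  have h3 : HasSum (fun y : ℤ => if y % 4 = 0 then rexp (-π * (y : ℝ) ^ 2 * t / 4) else 0) (evenKernel 0 (4 * t)) := by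
    have e : (fun y : ℤ => rexp (-π * (y : ℝ) ^ 2 * (4 * t))) =
        (fun y : ℤ => if y % 4 = 0 then rexp (-π * (y : ℝ) ^ 2 * t / 4) else 0) ∘ (fun n : ℤ => 4 * n) := by
      funext n
      simp only [Function.comp]
      have h4 : (4 * n) % 4 = 0 := by omega
      rw [if_pos h4]
      congr 1
      push_cast
      ring
    rw [e] at h1
    rw [← Function.Injective.hasSum_iff hinj]
    · exact h1
    · intro x hx
      rw [if_neg]
      intro h4
      apply hx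
      refine ⟨x / 4, ?_⟩
      simp only
      omega
  have h := (h3.mul_left 2).sub h2
  refine h.congr_fun fun y => ?_
  have e2 : -π * (y : ℝ) ^ 2 * (t / 4) = -π * (y : ℝ) ^ 2 * t / 4 := by ring
  rw [e2]
  unfold et
  by_cases hy : y % 4 = 0
  · rw [if_pos hy, if_pos hy]
    push_cast
    ring
  · rw [if_neg hy, if_neg hy]
    push_cast
    ring

theorem even_inv (x : ℝ) : evenKernel 0 x = 1 / √x * evenKernel 0 (1 / x) := by
  have h := evenKernel_functional_equation 0 x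
  rw [← evenKernel_eq_cosKernel_of_zero, ← Real.sqrt_eq_rpow] at h
  exact h

theorem HH_inv {t : ℝ} (ht : 0 < t) : HH (1 / t) = -(√t * HH t) := by
  unfold HH
  have h1 := even_inv (4 * (1 / t))
  have h2 := even_inv (1 / t / 4)
  have e1 : 1 / (4 * (1 / t)) = t / 4 := by field_simp
  have e2 : 1 / (1 / t / 4) = 4 * t := by field_simp
  rw [e1] at h1
  rw [e2] at h2
  rw [h1, h2]
  have h4 : √4 = 2 := by
    have : (4 : ℝ) = 2 ^ 2 := by norm_num
    rw [this, Real.sqrt_sq (by norm_num)]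
  have s1 : √(4 * (1 / t)) = 2 / √t := by
    rw [Real.sqrt_mul (by norm_num), h4, Real.sqrt_div (by norm_num), Real.sqrt_one]
    ring
  have s2 : √(1 / t / 4) = 1 / (2 * √t) := by
    rw [Real.sqrt_div (by positivity), h4, Real.sqrt_div (by norm_num), Real.sqrt_one]
    field_simp
  have hq : 0 < √t := Real.sqrt_pos.mpr ht
  rw [s1, s2]
  field_simp
  ring

theorem HH_one : HH 1 = 0 := by
  have h := HH_inv (t := 1) one_pos
  rw [Real.sqrt_one, one_div_one] at h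
  linarith

theorem continuousOn_GG : ContinuousOn GG (Ioi 0) := by
  have h (a : UnitAddCircle) : ContinuousOn (fun t : ℝ => oddKernel a (8 * t)) (Ioi 0) := by
    refine (continuousOn_oddKernel a).comp (by fun_prop) ?_
    intro t ht
    simp only [mem_Ioi] at ht ⊢
    positivity
  unfold GG
  exact continuousOn_const.mul ((((h _).add (h _)).sub (h _)).sub (h _))

theorem continuousOn_HH : ContinuousOn HH (Ioi 0) := by
  have h1 : ContinuousOn (fun t : ℝ => evenKernel 0 (4 * t)) (Ioi 0) := by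
    refine (continuousOn_evenKernel 0).comp (by fun_prop) ?_
    intro t ht
    simp only [mem_Ioi] at ht ⊢
    positivity
  have h2 : ContinuousOn (fun t : ℝ => evenKernel 0 (t / 4)) (Ioi 0) := by
    refine (continuousOn_evenKernel 0).comp (by fun_prop) ?_
    intro t ht
    simp only [mem_Ioi] at ht ⊢
    positivity
  unfold HH
  exact (continuousOn_const.mul h1).sub h2

theorem GG_bound : ∃ c C : ℝ, 0 < c ∧ 0 < C ∧ ∀ t : ℝ, 1 ≤ t → |GG t| ≤ C * rexp (-c * t) := by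
  have h1 := (hasSum_GG one_pos).summable.abs
  refine ⟨π / 8, (∑' x : ℤ, |(ch x : ℝ) * (x : ℝ) * rexp (-π * (x : ℝ) ^ 2 * 1 / 8)|) * rexp (π / 8) + 1, by positivity, ?_, ?_⟩
  · have : 0 ≤ ∑' x : ℤ, |(ch x : ℝ) * (x : ℝ) * rexp (-π * (x : ℝ) ^ 2 * 1 / 8)| := tsum_nonneg fun x => abs_nonneg _
    positivity
  · intro t ht
    have ht0 : 0 < t := by linarith
    have hs := (hasSum_GG ht0)
    have hsa := hs.summable.abs
    have hle (x : ℤ) : |(ch x : ℝ) * (x : ℝ) * rexp (-π * (x : ℝ) ^ 2 * t / 8)| ≤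
        |(ch x : ℝ) * (x : ℝ) * rexp (-π * (x : ℝ) ^ 2 * 1 / 8)| * rexp (π / 8 - π / 8 * t) := by
      rcases eq_or_ne x 0 with rfl | hx
      · simp [ch_zero]
      · have e3 : |(ch x : ℝ) * (x : ℝ) * rexp (-π * (x : ℝ) ^ 2 * 1 / 8)| * rexp (π / 8 - π / 8 * t) =
            |(ch x : ℝ) * (x : ℝ)| * rexp (-π * (x : ℝ) ^ 2 * 1 / 8 + (π / 8 - π / 8 * t)) := by
          rw [abs_mul, abs_of_pos (Real.exp_pos (-π * (x : ℝ) ^ 2 * 1 / 8)), Real.exp_add, mul_assoc]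
        rw [e3, abs_mul, abs_of_pos (Real.exp_pos (-π * (x : ℝ) ^ 2 * t / 8))]
        refine mul_le_mul_of_nonneg_left ?_ (abs_nonneg _)
        refine Real.exp_le_exp.mpr ?_
        have hx1 : (1 : ℝ) ≤ (x : ℝ) ^ 2 := by
          have : 1 ≤ x ^ 2 := by
            have h9 : (1 : ℤ) ≤ |x| := Int.one_le_abs hx
            rw [← sq_abs]
            nlinarith
          exact_mod_cast this
        have := mul_nonneg (mul_nonneg Real.pi_pos.le (by linarith : (0 : ℝ) ≤ t - 1)) (by linarith : (0 : ℝ) ≤ (x : ℝ) ^ 2 - 1)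
        linarith
    have h2 : |GG t| ≤ ∑' x : ℤ, |(ch x : ℝ) * (x : ℝ) * rexp (-π * (x : ℝ) ^ 2 * t / 8)| := by
      rw [← hs.tsum_eq]
      have := norm_tsum_le_tsum_norm (f := fun x : ℤ => (ch x : ℝ) * (x : ℝ) * rexp (-π * (x : ℝ) ^ 2 * t / 8)) hsa
      simpa only [Real.norm_eq_abs] using this
    have h3 : ∑' x : ℤ, |(ch x : ℝ) * (x : ℝ) * rexp (-π * (x : ℝ) ^ 2 * t / 8)| ≤
        ∑' x : ℤ, |(ch x : ℝ) * (x : ℝ) * rexp (-π * (x : ℝ) ^ 2 * 1 / 8)| * rexp (π / 8 - π / 8 * t) :=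
      hsa.tsum_le_tsum hle (h1.mul_right _)
    rw [tsum_mul_right] at h3
    have e : rexp (π / 8 - π / 8 * t) = rexp (π / 8) * rexp (-(π / 8) * t) := by
      rw [← Real.exp_add]
      congr 1
      ring
    rw [e] at h3
    have h4 := Real.exp_pos (-(π / 8) * t)
    linarith

/-- (no decay: `HH t → 1`) -/
theorem HH_bound : ∃ C : ℝ, 0 < C ∧ ∀ t : ℝ, 1 ≤ t → |HH t| ≤ C := by
  have h1 := (hasSum_HH one_pos).summable.abs
  refine ⟨(∑' y : ℤ, |(et y : ℝ) * rexp (-π * (y : ℝ) ^ 2 * 1 / 4)|) + 1, ?_, ?_⟩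
  · have : 0 ≤ ∑' y : ℤ, |(et y : ℝ) * rexp (-π * (y : ℝ) ^ 2 * 1 / 4)| := tsum_nonneg fun x => abs_nonneg _
    positivity
  · intro t ht
    have ht0 : 0 < t := by linarith
    have hs := (hasSum_HH ht0)
    have hsa := hs.summable.abs
    have hle (y : ℤ) : |(et y : ℝ) * rexp (-π * (y : ℝ) ^ 2 * t / 4)| ≤ |(et y : ℝ) * rexp (-π * (y : ℝ) ^ 2 * 1 / 4)| := by
      rw [abs_mul, abs_mul]
      refine mul_le_mul_of_nonneg_left ?_ (abs_nonneg _)
      rw [abs_of_pos (Real.exp_pos _), abs_of_pos (Real.exp_pos _)]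
      refine Real.exp_le_exp.mpr ?_
      have := mul_nonneg (mul_nonneg Real.pi_pos.le (by linarith : (0 : ℝ) ≤ t - 1)) (sq_nonneg (y : ℝ))
      linarith
    have h2 : |HH t| ≤ ∑' y : ℤ, |(et y : ℝ) * rexp (-π * (y : ℝ) ^ 2 * t / 4)| := by
      rw [← hs.tsum_eq]
      have := norm_tsum_le_tsum_norm (f := fun y : ℤ => (et y : ℝ) * rexp (-π * (y : ℝ) ^ 2 * t / 4)) hsa
      simpa only [Real.norm_eq_abs] using this
    have h3 := hsa.tsum_le_tsum hle h1
    linarith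

/-! ## Positivity -/

theorem ch_blk (k j : ℕ) : ch (((8 * k + j : ℕ)) : ℤ) = ch (j : ℤ) := by
  rw [← ch_mod, ← ch_mod (j : ℤ)]
  congr 1
  push_cast
  omega

/-- A limit of partial sums over blocks. -/
theorem pos_of_blocks (f : ℕ → ℝ) (a b0 : ℝ) (h : HasSum f a) (m c : ℕ) (hm : 0 < m) (hb : 0 < b0)
    (h0 : b0 ≤ ∑ i ∈ Finset.range (m + c), f i) (hk : ∀ k : ℕ, ∑ i ∈ Finset.range (m * k + c), f i ≤ ∑ i ∈ Finset.range (m * (k + 1) + c), f i) :
    0 < a := by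
  have hmono : ∀ k : ℕ, b0 ≤ ∑ i ∈ Finset.range (m * (k + 1) + c), f i := by
    intro k
    induction k with
    | zero => simpa using h0
    | succ k ih => exact ih.trans (hk _)
  have ht : Tendsto (fun k : ℕ => m * (k + 1) + c) atTop atTop := by
    refine tendsto_atTop_mono (fun k => ?_) tendsto_id
    simp only [id]
    nlinarith
  have := ge_of_tendsto' (h.tendsto_sum_nat.comp ht) (b := b0) fun k => hmono k
  linarith

theorem ex_dec {t : ℝ} (ht : 1 ≤ t) (x : ℝ) (hx : 1 ≤ x) :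
    (x + 2) * rexp (-π * (x + 2) ^ 2 * t / 8) < x * rexp (-π * x ^ 2 * t / 8) := by
  have e : rexp (-π * x ^ 2 * t / 8) = rexp (-π * (x + 2) ^ 2 * t / 8) * rexp (π * (x + 1) * t / 2) := by
    rw [← Real.exp_add]
    congr 1
    ring
  rw [e]
  have h1 := Real.add_one_le_exp (π * (x + 1) * t / 2)
  have h2 : 3 ≤ π * (x + 1) * t / 2 := by
    have hp := Real.pi_gt_three
    have h3 : 6 ≤ π * (x + 1) := by nlinarith
    nlinarith
  have h3 : x + 2 < x * rexp (π * (x + 1) * t / 2) := by nlinarith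
  have h4 := Real.exp_pos (-π * (x + 2) ^ 2 * t / 8)
  nlinarith

theorem GG_pos {t : ℝ} (ht : 1 ≤ t) : 0 < GG t := by
  have ht0 : 0 < t := by linarith
  have h := (hasSum_GG ht0).nat_add_neg
  have h0 : (ch 0 : ℝ) * ((0 : ℤ) : ℝ) * rexp (-π * ((0 : ℤ) : ℝ) ^ 2 * t / 8) = 0 := by
    simp
  rw [h0, add_zero] at h
  have hneg (n : ℕ) : (ch (-(n : ℤ)) : ℝ) * ((-(n : ℤ) : ℤ) : ℝ) * rexp (-π * ((-(n : ℤ) : ℤ) : ℝ) ^ 2 * t / 8) =
      (ch (n : ℤ) : ℝ) * (n : ℝ) * rexp (-π * (n : ℝ) ^ 2 * t / 8) := by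
    have h1 : ch (-(n : ℤ)) = -ch (n : ℤ) := by
      unfold ch
      have h8 : (n : ℤ) % 8 = 0 ∨ (n : ℤ) % 8 = 1 ∨ (n : ℤ) % 8 = 2 ∨ (n : ℤ) % 8 = 3 ∨ (n : ℤ) % 8 = 4 ∨ (n : ℤ) % 8 = 5 ∨ (n : ℤ) % 8 = 6 ∨ (n : ℤ) % 8 = 7 := by
        omega
      rcases h8 with h | h | h | h | h | h | h | h
      · have h2 : (-(n : ℤ)) % 8 = 0 := by omega
        simp [h, h2]
      · have h2 : (-(n : ℤ)) % 8 = 7 := by omega
        simp [h, h2]
      · have h2 : (-(n : ℤ)) % 8 = 6 := by omega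
        simp [h, h2]
      · have h2 : (-(n : ℤ)) % 8 = 5 := by omega
        simp [h, h2]
      · have h2 : (-(n : ℤ)) % 8 = 4 := by omega
        simp [h, h2]
      · have h2 : (-(n : ℤ)) % 8 = 3 := by omega
        simp [h, h2]
      · have h2 : (-(n : ℤ)) % 8 = 2 := by omega
        simp [h, h2]
      · have h2 : (-(n : ℤ)) % 8 = 1 := by omega
        simp [h, h2]
    rw [h1]
    push_cast
    rw [neg_sq]
    ring
  have h' : HasSum (fun n : ℕ => 2 * ((ch (n : ℤ) : ℝ) * (n : ℝ) * rexp (-π * (n : ℝ) ^ 2 * t / 8))) (GG t) := by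
    refine h.congr_fun fun n => ?_
    rw [hneg]
    push_cast
    ring
  clear h
  have hd (x : ℝ) (hx : 1 ≤ x) := ex_dec ht x hx
  have hblk (k : ℕ) : ∑ i ∈ Finset.range (8 * (k + 1) + 0), 2 * ((ch (i : ℤ) : ℝ) * (i : ℝ) * rexp (-π * (i : ℝ) ^ 2 * t / 8)) =
      ∑ i ∈ Finset.range (8 * k + 0), 2 * ((ch (i : ℤ) : ℝ) * (i : ℝ) * rexp (-π * (i : ℝ) ^ 2 * t / 8)) +
      2 * (((8 * k + 1 : ℝ)) * rexp (-π * (8 * k + 1 : ℝ) ^ 2 * t / 8) + ((8 * k + 3 : ℝ)) * rexp (-π * (8 * k + 3 : ℝ) ^ 2 * t / 8)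
        - ((8 * k + 5 : ℝ)) * rexp (-π * (8 * k + 5 : ℝ) ^ 2 * t / 8) - ((8 * k + 7 : ℝ)) * rexp (-π * (8 * k + 7 : ℝ) ^ 2 * t / 8)) := by
    have e : 8 * (k + 1) + 0 = 8 * k + 0 + 1 + 1 + 1 + 1 + 1 + 1 + 1 + 1 := by ring
    have e' : 8 * k + 0 = 8 * k := by ring
    rw [e, Finset.sum_range_succ, Finset.sum_range_succ, Finset.sum_range_succ, Finset.sum_range_succ, Finset.sum_range_succ,
      Finset.sum_range_succ, Finset.sum_range_succ, Finset.sum_range_succ, e']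
    have c0 : ch (((8 * k : ℕ)) : ℤ) = 0 := by
      have := ch_blk k 0
      rw [add_zero] at this
      rw [this]
      decide
    have c1 : ch (((8 * k + 1 : ℕ)) : ℤ) = 1 := by
      rw [ch_blk]
      decide
    have c2 : ch (((8 * k + 2 : ℕ)) : ℤ) = 0 := by
      rw [ch_blk]
      decide
    have c3 : ch (((8 * k + 3 : ℕ)) : ℤ) = 1 := by
      rw [ch_blk]
      decide
    have c4 : ch (((8 * k + 4 : ℕ)) : ℤ) = 0 := by
      rw [ch_blk]
      decide
    have c5 : ch (((8 * k + 5 : ℕ)) : ℤ) = -1 := by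
      rw [ch_blk]
      decide
    have c6 : ch (((8 * k + 6 : ℕ)) : ℤ) = 0 := by
      rw [ch_blk]
      decide
    have c7 : ch (((8 * k + 7 : ℕ)) : ℤ) = -1 := by
      rw [ch_blk]
      decide
    rw [c0, c1, c2, c3, c4, c5, c6, c7]
    push_cast
    ring
  have hpos (k : ℕ) : 0 < 2 * (((8 * k + 1 : ℝ)) * rexp (-π * (8 * k + 1 : ℝ) ^ 2 * t / 8) + ((8 * k + 3 : ℝ)) * rexp (-π * (8 * k + 3 : ℝ) ^ 2 * t / 8)
        - ((8 * k + 5 : ℝ)) * rexp (-π * (8 * k + 5 : ℝ) ^ 2 * t / 8) - ((8 * k + 7 : ℝ)) * rexp (-π * (8 * k + 7 : ℝ) ^ 2 * t / 8)) := by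
    have hk : (0 : ℝ) ≤ (k : ℝ) := Nat.cast_nonneg k
    have h1 := hd (8 * k + 1) (by linarith)
    have h3 := hd (8 * k + 3) (by linarith)
    have h5 := hd (8 * k + 5) (by linarith)
    have e1 : (8 * (k : ℝ) + 1 + 2) = 8 * k + 3 := by ring
    have e3 : (8 * (k : ℝ) + 3 + 2) = 8 * k + 5 := by ring
    have e5 : (8 * (k : ℝ) + 5 + 2) = 8 * k + 7 := by ring
    rw [e1] at h1
    rw [e3] at h3
    rw [e5] at h5
    linarith
  refine pos_of_blocks _ _ _ h' 8 0 (by norm_num) (hpos 0) ?_ ?_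
  · have := hblk 0
    simp only [mul_zero, add_zero, Finset.range_zero, Finset.sum_empty, zero_add, mul_one] at this ⊢
    exact this.ge
  · intro k
    rw [hblk k]
    have := hpos k
    linarith

theorem ph_dec {t : ℝ} (ht : 1 ≤ t) (a b : ℝ) (ha : 1 ≤ a) (hab : a ≤ b) :
    rexp (-b) - rexp (-b * t) ≤ rexp (-a) - rexp (-a * t) := by
  have hk1 : rexp (-b) = rexp (-a) * rexp (-(b - a)) := by
    rw [← Real.exp_add]
    congr 1
    ring
  have hk2 : rexp (-b * t) = rexp (-a * t) * rexp (-(b - a) * t) := by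
    rw [← Real.exp_add]
    congr 1
    ring
  rw [hk1, hk2]
  -- `e^{-at}(1 - e^{-(b-a)t}) ≤ e^{-a}(1 - e^{-(b-a)})`
  have h1 : rexp (-a * t) * t ≤ rexp (-a) := by
    have h2 : t ≤ rexp (a * (t - 1)) := by
      have := Real.add_one_le_exp (a * (t - 1))
      nlinarith
    have h3 : rexp (-a) = rexp (-a * t) * rexp (a * (t - 1)) := by
      rw [← Real.exp_add]
      congr 1
      ring
    rw [h3]
    exact mul_le_mul_of_nonneg_left h2 (Real.exp_pos _).le
  -- `1 - e^{-ut} ≤ t (1 - e^{-u})` for `t ≥ 1`, `u ≥ 0`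
  have hu : 0 ≤ b - a := by linarith
  have h2 : 1 - rexp (-(b - a) * t) ≤ t * (1 - rexp (-(b - a))) := by
    have hx : rexp (-(b - a) * t) = (rexp (-(b - a))) ^ t := by
      rw [← Real.exp_mul]
    have hb := one_add_mul_self_le_rpow_one_add (s := rexp (-(b - a)) - 1) (by
      have := Real.exp_pos (-(b - a))
      linarith) ht
    have hy : 1 + (rexp (-(b - a)) - 1) = rexp (-(b - a)) := by ring
    rw [hy] at hb
    rw [hx]
    linarith
  have h3 : 0 ≤ 1 - rexp (-(b - a)) := by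
    have : rexp (-(b - a)) ≤ 1 := Real.exp_le_one_iff.mpr (by linarith)
    linarith
  have h4 := Real.exp_pos (-a * t)
  have h5 : rexp (-a * t) * (1 - rexp (-(b - a) * t)) ≤ rexp (-a) * (1 - rexp (-(b - a))) := by
    calc rexp (-a * t) * (1 - rexp (-(b - a) * t)) ≤ rexp (-a * t) * (t * (1 - rexp (-(b - a)))) :=
          mul_le_mul_of_nonneg_left h2 h4.le
      _ = (rexp (-a * t) * t) * (1 - rexp (-(b - a))) := by ring
      _ ≤ rexp (-a) * (1 - rexp (-(b - a))) := mul_le_mul_of_nonneg_right h1 h3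
  linarith

theorem HH_pos {t : ℝ} (ht : 1 < t) : 0 < HH t := by
  have ht0 : 0 < t := by linarith
  have h := ((hasSum_HH ht0).sub (hasSum_HH one_pos)).nat_add_neg
  rw [HH_one, sub_zero] at h
  have h0 : (et 0 : ℝ) * rexp (-π * ((0 : ℤ) : ℝ) ^ 2 * t / 4) - (et 0 : ℝ) * rexp (-π * ((0 : ℤ) : ℝ) ^ 2 * 1 / 4) = 0 := by
    simp
  rw [h0, add_zero] at h
  set ph : ℝ → ℝ := fun y => rexp (-(π * y ^ 2 / 4)) - rexp (-(π * y ^ 2 / 4) * t) with hph
  have hneg (n : ℕ) : et (-(n : ℤ)) = et (n : ℤ) := by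
    unfold et
    by_cases hn : (n : ℤ) % 4 = 0
    · have : (-(n : ℤ)) % 4 = 0 := by omega
      rw [if_pos hn, if_pos this]
    · have : ¬ (-(n : ℤ)) % 4 = 0 := by omega
      rw [if_neg hn, if_neg this]
  have h' : HasSum (fun n : ℕ => 2 * (-(et (n : ℤ) : ℝ) * ph n)) (HH t) := by
    refine h.congr_fun fun n => ?_
    rw [hneg]
    push_cast
    rw [neg_sq]
    have e1 : -π * (n : ℝ) ^ 2 * t / 4 = -(π * (n : ℝ) ^ 2 / 4) * t := by ring
    have e2 : -π * (n : ℝ) ^ 2 * 1 / 4 = -(π * (n : ℝ) ^ 2 / 4) := by ring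
    rw [e1, e2, hph]
    ring
  clear h
  have hp0 : ph 0 = 0 := by
    rw [hph]
    simp
  have hpn (y : ℝ) : 0 ≤ ph y := by
    rw [hph]
    simp only
    have : rexp (-(π * y ^ 2 / 4) * t) ≤ rexp (-(π * y ^ 2 / 4)) := by
      refine Real.exp_le_exp.mpr ?_
      have : 0 ≤ π * y ^ 2 / 4 := by positivity
      nlinarith
    linarith
  have hpp (y : ℝ) (hy : 0 < y) : 0 < ph y := by
    rw [hph]
    simp only
    have : rexp (-(π * y ^ 2 / 4) * t) < rexp (-(π * y ^ 2 / 4)) := by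
      refine Real.exp_lt_exp.mpr ?_
      have : 0 < π * y ^ 2 / 4 := by positivity
      nlinarith
    linarith
  have hdec (y : ℝ) (hy : 3 ≤ y) : ph (y + 1) ≤ ph y := by
    rw [hph]
    simp only
    refine ph_dec ht.le _ _ ?_ ?_
    · have := Real.pi_gt_three
      have h9 : 9 ≤ y ^ 2 := by nlinarith
      nlinarith
    · have := Real.pi_pos
      have h9 : y ^ 2 ≤ (y + 1) ^ 2 := by nlinarith
      have := mul_le_mul_of_nonneg_left h9 this.le
      linarith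
  have hblk (k : ℕ) : ∑ i ∈ Finset.range (4 * (k + 1) + 1), 2 * (-(et (i : ℤ) : ℝ) * ph i) =
      ∑ i ∈ Finset.range (4 * k + 1), 2 * (-(et (i : ℤ) : ℝ) * ph i) +
      2 * (ph (4 * k + 1) + ph (4 * k + 2) + ph (4 * k + 3) - ph (4 * k + 3 + 1)) := by
    have e : 4 * (k + 1) + 1 = 4 * k + 1 + 1 + 1 + 1 + 1 := by ring
    rw [e, Finset.sum_range_succ, Finset.sum_range_succ, Finset.sum_range_succ, Finset.sum_range_succ]
    have c1 : et (((4 * k + 1 : ℕ)) : ℤ) = -1 := by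
      unfold et
      rw [if_neg (by omega)]
    have c2 : et (((4 * k + 1 + 1 : ℕ)) : ℤ) = -1 := by
      unfold et
      rw [if_neg (by omega)]
    have c3 : et (((4 * k + 1 + 1 + 1 : ℕ)) : ℤ) = -1 := by
      unfold et
      rw [if_neg (by omega)]
    have c4 : et (((4 * k + 1 + 1 + 1 + 1 : ℕ)) : ℤ) = 1 := by
      unfold et
      rw [if_pos (by omega)]
    rw [c1, c2, c3, c4]
    have e1 : (((4 * k + 1 : ℕ)) : ℝ) = 4 * k + 1 := by push_cast; ring
    have e2 : (((4 * k + 1 + 1 : ℕ)) : ℝ) = 4 * k + 2 := by push_cast; ring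
    have e3 : (((4 * k + 1 + 1 + 1 : ℕ)) : ℝ) = 4 * k + 3 := by push_cast; ring
    have e4 : (((4 * k + 1 + 1 + 1 + 1 : ℕ)) : ℝ) = 4 * k + 3 + 1 := by push_cast; ring
    rw [e1, e2, e3, e4]
    push_cast
    ring
  have hpos (k : ℕ) : 0 < 2 * (ph (4 * k + 1) + ph (4 * k + 2) + ph (4 * k + 3) - ph (4 * k + 3 + 1)) := by
    have hk : (0 : ℝ) ≤ (k : ℝ) := Nat.cast_nonneg k
    have h1 := hpp (4 * k + 1) (by linarith)
    have h2 := hpn (4 * k + 2)
    have h3 := hdec (4 * k + 3) (by linarith)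
    linarith
  refine pos_of_blocks _ _ _ h' 4 1 (by norm_num) (hpos 0) ?_ ?_
  · have := hblk 0
    have e0 : ∑ i ∈ Finset.range (4 * 0 + 1), 2 * (-(et (i : ℤ) : ℝ) * ph i) = 0 := by
      rw [mul_zero, zero_add, Finset.sum_range_one]
      push_cast
      rw [hp0]
      ring
    rw [e0] at this
    have e5 : 4 * (0 + 1) + 1 = 4 + 1 := rfl
    rw [e5] at this
    linarith
  · intro k
    rw [hblk k]
    have := hpos k
    linarith

end Pool.Agent.Lib.MP_1a91b9_ntC
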