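import Pool.Agent.Lib.MP_1a91b9_ntC.Defs

/-!
# The odd theta function `G t = Σ ch x * x * exp (-π x² t / 8)` and its functional equation
-/

set_option autoImplicit false

open Real HurwitzZeta Set Filter Asymptotics

namespace Pool.Agent.Lib.MP_1a91b9_ntC

theorem ch_zero : ch 0 = 0 := by decide

theorem ch_mod (x : ℤ) : ch (x % 8) = ch x := by
  unfold ch
  rw [Int.emod_emod_of_dvd x (dvd_refl 8)]

/-- The odd theta function. -/
noncomputable def GG (t : ℝ) : ℝ :=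
  8 * (oddKernel ((1 / 8 : ℝ) : UnitAddCircle) (8 * t) + oddKernel ((3 / 8 : ℝ) : UnitAddCircle) (8 * t)
    - oddKernel ((5 / 8 : ℝ) : UnitAddCircle) (8 * t) - oddKernel ((7 / 8 : ℝ) : UnitAddCircle) (8 * t))

theorem hasSum_res (r : ℤ) (hr : 0 ≤ r) (hr8 : r < 8) {t : ℝ} (ht : 0 < t) :
    HasSum (fun x : ℤ => if x % 8 = r then (x : ℝ) * rexp (-π * (x : ℝ) ^ 2 * t / 8) else 0)
      (8 * oddKernel ((r / 8 : ℝ) : UnitAddCircle) (8 * t)) := by
  have h := (hasSum_int_oddKernel ((r : ℝ) / 8) (by positivity : 0 < 8 * t)).mul_left 8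
  have hinj : Function.Injective (fun n : ℤ => 8 * n + r) := by
    intro a b hab
    simp only at hab
    omega
  have h2 : (fun n : ℤ => 8 * (((n : ℝ) + (r : ℝ) / 8) * rexp (-π * ((n : ℝ) + (r : ℝ) / 8) ^ 2 * (8 * t)))) =
      (fun x : ℤ => if x % 8 = r then (x : ℝ) * rexp (-π * (x : ℝ) ^ 2 * t / 8) else 0) ∘ (fun n : ℤ => 8 * n + r) := by
    funext n
    simp only [Function.comp]
    have h3 : (8 * n + r) % 8 = r := by omega
    rw [if_pos h3]
    push_cast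
    have e1 : -π * ((n : ℝ) + (r : ℝ) / 8) ^ 2 * (8 * t) = -π * (8 * (n : ℝ) + (r : ℝ)) ^ 2 * t / 8 := by ring
    rw [e1]
    ring
  rw [h2] at h
  rw [← Function.Injective.hasSum_iff hinj]
  · exact h
  · intro x hx
    rw [if_neg]
    intro h4
    apply hx
    refine ⟨x / 8, ?_⟩
    simp only
    omega

theorem hasSum_GG {t : ℝ} (ht : 0 < t) :
    HasSum (fun x : ℤ => (ch x : ℝ) * (x : ℝ) * rexp (-π * (x : ℝ) ^ 2 * t / 8)) (GG t) := by
  have h1 := hasSum_res 1 (by norm_num) (by norm_num) ht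
  have h3 := hasSum_res 3 (by norm_num) (by norm_num) ht
  have h5 := hasSum_res 5 (by norm_num) (by norm_num) ht
  have h7 := hasSum_res 7 (by norm_num) (by norm_num) ht
  have h := ((h1.add h3).sub h5).sub h7
  have e : GG t = 8 * oddKernel (((1 : ℤ) / 8 : ℝ) : UnitAddCircle) (8 * t) + 8 * oddKernel (((3 : ℤ) / 8 : ℝ) : UnitAddCircle) (8 * t)
      - 8 * oddKernel (((5 : ℤ) / 8 : ℝ) : UnitAddCircle) (8 * t) - 8 * oddKernel (((7 : ℤ) / 8 : ℝ) : UnitAddCircle) (8 * t) := by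
    unfold GG
    push_cast
    ring
  rw [e]
  refine h.congr_fun fun x => ?_
  unfold ch
  have h8 : x % 8 = 0 ∨ x % 8 = 1 ∨ x % 8 = 2 ∨ x % 8 = 3 ∨ x % 8 = 4 ∨ x % 8 = 5 ∨ x % 8 = 6 ∨ x % 8 = 7 := by omega
  rcases h8 with h | h | h | h | h | h | h | h <;> simp [h]

/-- `ζ = exp (2 π i / 8)`. -/
noncomputable def zt : ℂ := Complex.exp (2 * π * Complex.I / 8)

theorem zt_eq : zt = ((√2 / 2 : ℝ) : ℂ) * (1 + Complex.I) := by
  unfold zt
  have h : 2 * (π : ℂ) * Complex.I / 8 = ((π / 4 : ℝ) : ℂ) * Complex.I := by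
    push_cast
    ring
  rw [h, Complex.exp_mul_I, ← Complex.ofReal_cos, ← Complex.ofReal_sin, Real.cos_pi_div_four, Real.sin_pi_div_four]
  ring

theorem zt_sq : zt ^ 2 = Complex.I := by
  rw [zt_eq, mul_pow]
  have h1 : ((√2 / 2 : ℝ) : ℂ) ^ 2 = 1 / 2 := by
    rw [← Complex.ofReal_pow, div_pow, Real.sq_sqrt (by norm_num)]
    push_cast
    norm_num
  have h2 : (1 + Complex.I) ^ 2 = 2 * Complex.I := by
    have := Complex.I_sq
    linear_combination this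
  rw [h1, h2]
  ring

theorem exp_eq_zt (a : ℕ) (n : ℤ) : Complex.exp (2 * π * Complex.I * ((a / 8 : ℝ) : ℂ) * n) = zt ^ ((a : ℤ) * n) := by
  unfold zt
  rw [← Complex.exp_int_mul]
  congr 1
  push_cast
  ring

theorem zt_gauss (n : ℤ) :
    zt ^ ((1 : ℤ) * n) + zt ^ ((3 : ℤ) * n) - zt ^ ((5 : ℤ) * n) - zt ^ ((7 : ℤ) * n) = Complex.I * ((√8 : ℝ) : ℂ) * (ch n : ℂ) := by
  have hne : zt ≠ 0 := by
    unfold zt
    exact Complex.exp_ne_zero _
  have h4 : zt ^ 4 = -1 := by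
    have : zt ^ 4 = (zt ^ 2) ^ 2 := by ring
    rw [this, zt_sq, Complex.I_sq]
  have h8 : zt ^ (8 : ℤ) = 1 := by
    have : zt ^ (8 : ℤ) = (zt ^ 4) ^ 2 := by
      rw [← pow_mul]
      norm_cast
    rw [this, h4]
    norm_num
  obtain ⟨q, r, hn, hr0, hr8⟩ : ∃ q r : ℤ, n = 8 * q + r ∧ 0 ≤ r ∧ r < 8 :=
    ⟨n / 8, n % 8, by omega, by omega, by omega⟩
  have hz (a : ℤ) : zt ^ (a * n) = zt ^ (a * r) := by
    rw [hn, mul_add, zpow_add₀ hne]
    have : a * (8 * q) = 8 * (a * q) := by ring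
    rw [this, zpow_mul, h8, one_zpow, one_mul]
  have hc : ch n = ch r := by
    have : r = n % 8 := by omega
    rw [this, ch_mod]
  rw [hz, hz, hz, hz, hc]
  have hs : ((√8 : ℝ) : ℂ) = 2 * ((√2 : ℝ) : ℂ) := by
    have : √8 = 2 * √2 := by
      have : (8 : ℝ) = 2 ^ 2 * 2 := by norm_num
      rw [this, Real.sqrt_mul (by norm_num), Real.sqrt_sq (by norm_num)]
    rw [this]
    push_cast
    ring
  have h1 : zt + zt ^ 3 = Complex.I * ((√2 : ℝ) : ℂ) := by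
    have : zt ^ 3 = zt * Complex.I := by
      rw [← zt_sq]
      ring
    rw [this, zt_eq]
    push_cast
    have := Complex.I_sq
    linear_combination ((√2 : ℝ) : ℂ) / 2 * this
  obtain ⟨m, rfl⟩ := Int.eq_ofNat_of_zero_le hr0
  have hm : m < 8 := by omega
  have hz2 (a : ℕ) : zt ^ ((a : ℤ) * (m : ℤ)) = zt ^ (a * m) := by
    have : ((a : ℤ) * (m : ℤ)) = ((a * m : ℕ) : ℤ) := by push_cast; ring
    rw [this, zpow_natCast]
  have e1 := hz2 1
  have e3 := hz2 3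
  have e5 := hz2 5
  have e7 := hz2 7
  push_cast at e1 e3 e5 e7
  rw [e1, e3, e5, e7, hs]
  have hs2 : ((√2 : ℝ) : ℂ) ^ 2 = 2 := by
    rw [← Complex.ofReal_pow, Real.sq_sqrt (by norm_num)]
    norm_num
  have c0 : ch ((0 : ℕ) : ℤ) = 0 := by decide
  have c1 : ch ((1 : ℕ) : ℤ) = 1 := by decide
  have c2 : ch ((2 : ℕ) : ℤ) = 0 := by decide
  have c3 : ch ((3 : ℕ) : ℤ) = 1 := by decide
  have c4 : ch ((4 : ℕ) : ℤ) = 0 := by decide
  have c5 : ch ((5 : ℕ) : ℤ) = -1 := by decide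
  have c6 : ch ((6 : ℕ) : ℤ) = 0 := by decide
  have c7 : ch ((7 : ℕ) : ℤ) = -1 := by decide
  have q (k j : ℕ) : zt ^ (4 * k + j) = (-1) ^ k * zt ^ j := by
    rw [pow_add, pow_mul, h4]
  interval_cases m
  · rw [c0]
    simp
  · rw [c1]
    have a5 := q 1 1
    have a7 := q 1 3
    norm_num at a5 a7 ⊢
    rw [a5, a7]
    linear_combination 2 * h1
  · rw [c2]
    have a5 := q 2 2
    have a7 := q 3 2
    have a3 := q 1 2
    norm_num at a5 a7 a3 ⊢
    rw [a5, a7, a3]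
    ring
  · rw [c3]
    have a3 := q 2 1
    have a5 := q 3 3
    have a7 := q 5 1
    norm_num at a5 a7 a3 ⊢
    rw [a5, a7, a3]
    linear_combination 2 * h1
  · rw [c4]
    have a1 := q 1 0
    have a3 := q 3 0
    have a5 := q 5 0
    have a7 := q 7 0
    norm_num at a1 a5 a7 a3 ⊢
    rw [a1, a5, a7, a3]
    ring
  · rw [c5]
    have a1 := q 1 1
    have a3 := q 3 3
    have a5 := q 6 1
    have a7 := q 8 3
    norm_num at a1 a5 a7 a3 ⊢
    rw [a1, a5, a7, a3]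
    linear_combination (-2) * h1
  · rw [c6]
    have a1 := q 1 2
    have a3 := q 4 2
    have a5 := q 7 2
    have a7 := q 10 2
    norm_num at a1 a5 a7 a3 ⊢
    rw [a1, a5, a7, a3]
    ring
  · rw [c7]
    have a1 := q 1 3
    have a3 := q 5 1
    have a5 := q 8 3
    have a7 := q 12 1
    norm_num at a1 a5 a7 a3 ⊢
    rw [a1, a5, a7, a3]
    linear_combination (-2) * h1

theorem sin_GG {t : ℝ} (ht : 0 < t) :
    sinKernel ((1 / 8 : ℝ) : UnitAddCircle) (t / 8) + sinKernel ((3 / 8 : ℝ) : UnitAddCircle) (t / 8)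
      - sinKernel ((5 / 8 : ℝ) : UnitAddCircle) (t / 8) - sinKernel ((7 / 8 : ℝ) : UnitAddCircle) (t / 8) = √8 * GG t := by
  have ht8 : 0 < t / 8 := by positivity
  have h1 := hasSum_int_sinKernel (1 / 8) ht8
  have h3 := hasSum_int_sinKernel (3 / 8) ht8
  have h5 := hasSum_int_sinKernel (5 / 8) ht8
  have h7 := hasSum_int_sinKernel (7 / 8) ht8
  have h := ((h1.add h3).sub h5).sub h7
  have hG : HasSum (fun x : ℤ => ((√8 * ((ch x : ℝ) * (x : ℝ) * rexp (-π * (x : ℝ) ^ 2 * t / 8)) : ℝ) : ℂ)) ((√8 * GG t : ℝ) : ℂ) :=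
    Complex.hasSum_ofReal.mpr ((hasSum_GG ht).mul_left _)
  have hu := h.unique (hG.congr_fun fun n => ?_)
  · exact_mod_cast hu
  · have g := zt_gauss n
    have e1 := exp_eq_zt 1 n
    have e3 := exp_eq_zt 3 n
    have e5 := exp_eq_zt 5 n
    have e7 := exp_eq_zt 7 n
    push_cast at e1 e3 e5 e7 g ⊢
    rw [e1, e3, e5, e7]
    have hx : -(π : ℂ) * (n : ℂ) ^ 2 * ((t : ℂ) / 8) = -(π : ℂ) * (n : ℂ) ^ 2 * (t : ℂ) / 8 := by ring
    rw [hx]
    have hI := Complex.I_sq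
    linear_combination (-Complex.I * n * Complex.exp (-(π : ℂ) * (n : ℂ) ^ 2 * (t : ℂ) / 8)) * g
      - (n : ℂ) * Complex.exp (-(π : ℂ) * (n : ℂ) ^ 2 * (t : ℂ) / 8) * ((√8 : ℝ) : ℂ) * (ch n : ℂ) * hI

theorem GG_inv {t : ℝ} (ht : 0 < t) : GG (1 / t) = t ^ (3 / 2 : ℝ) * GG t := by
  have hs := sin_GG ht
  have e : 1 / (8 * (1 / t)) = t / 8 := by field_simp
  have h0 : GG (1 / t) = 8 * (1 / (8 * (1 / t)) ^ (3 / 2 : ℝ)) * (√8 * GG t) := by
    rw [← hs]
    unfold GG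
    rw [oddKernel_functional_equation, oddKernel_functional_equation _ (8 * (1 / t)), oddKernel_functional_equation _ (8 * (1 / t)),
      oddKernel_functional_equation _ (8 * (1 / t)), e]
    ring
  rw [h0]
  have h8 : (8 * (1 / t)) ^ (3 / 2 : ℝ) = 8 * √8 / t ^ (3 / 2 : ℝ) := by
    have : 8 * (1 / t) = 8 / t := by ring
    rw [this, Real.div_rpow (by norm_num) ht.le]
    congr 1
    have : (3 / 2 : ℝ) = 1 + 1 / 2 := by norm_num
    rw [this, Real.rpow_add (by norm_num), Real.rpow_one, Real.sqrt_eq_rpow]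
  rw [h8]
  have hp : 0 < t ^ (3 / 2 : ℝ) := Real.rpow_pos_of_pos ht _
  have hq : 0 < √8 := Real.sqrt_pos.mpr (by norm_num)
  field_simp

end Pool.Agent.Lib.MP_1a91b9_ntC
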